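import Pool.Agent.W842.RST.Edges

/-!
# One arm: paths of given length from a vertex
-/

set_option autoImplicit false

namespace Pool.Agent.W842.RST

open Finset

variable {V : Type*} [DecidableEq V]

/-- there is a simple path of length `h` from `v` whose other vertices are in `W` (here `v ∉ W`) -/
def HP : ℕ → V → Finset V → Finset (Sym2 V) → Prop
  | 0, _, _, _ => True
  | (h + 1), v, W, S => ∃ u ∈ W, s(v, u) ∈ S ∧ HP h u (W.erase u) S

theorem HP_inc (h : ℕ) (v : V) (W : Finset V) : Inc (HP h v W) := by
  induction h generalizing v W with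
  | zero => intro S T _ _; trivial
  | succ h ih =>
    rintro S T hST ⟨u, hu, h1, h2⟩
    exact ⟨u, hu, hST h1, ih u _ S T hST h2⟩

/-- `HP h v W` depends only on the edges inside `insert v W` -/
theorem HP_congr (h : ℕ) (v : V) (W : Finset V) (hv : v ∉ W) (S T : Finset (Sym2 V))
    (hST : ∀ e ∈ edg (insert v W), (e ∈ S ↔ e ∈ T)) : HP h v W S ↔ HP h v W T := by
  induction h generalizing v W with
  | zero => exact Iff.rfl
  | succ h ih =>
    unfold HP
    apply exists_congr
    intro u
    constructor
    · rintro ⟨hu, h1, h2⟩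
      have hvu : v ≠ u := fun h => hv (h ▸ hu)
      have e1 : s(v, u) ∈ edg (insert v W) := by rw [mem_edg]; simp [hu, hvu]
      refine ⟨hu, (hST _ e1).1 h1, (ih u (W.erase u) (by simp) ?_).1 h2⟩
      intro e he
      rw [Finset.insert_erase hu] at he
      exact hST e (edg_mono (Finset.subset_insert _ _) he)
    · rintro ⟨hu, h1, h2⟩
      have hvu : v ≠ u := fun h => hv (h ▸ hu)
      have e1 : s(v, u) ∈ edg (insert v W) := by rw [mem_edg]; simp [hu, hvu]
      refine ⟨hu, (hST _ e1).2 h1, (ih u (W.erase u) (by simp) ?_).2 h2⟩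
      intro e he
      rw [Finset.insert_erase hu] at he
      exact hST e (edg_mono (Finset.subset_insert _ _) he)

/-- the bounds: `Q 0 = 1`, `Q (h+1) = 1 - exp (- c * Q h)` -/
noncomputable def Qb (c : ℝ) : ℕ → ℝ
  | 0 => 1
  | (h + 1) => 1 - Real.exp (-(c * Qb c h))

theorem Qb_nonneg {c : ℝ} (hc : 0 ≤ c) (h : ℕ) : 0 ≤ Qb c h := by
  induction h with
  | zero => simp [Qb]
  | succ h ih =>
    unfold Qb
    have : Real.exp (-(c * Qb c h)) ≤ 1 := Real.exp_le_one_iff.2 (by nlinarith)
    linarith

/-- `1 - exp (-y) ≤ 2 y / (2 + y)` -/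
theorem one_sub_exp_le {y : ℝ} (hy : 0 ≤ y) : 1 - Real.exp (-y) ≤ 2 * y / (2 + y) := by
  rw [le_div_iff₀ (by linarith)]
  -- (1 - e^{-y}) (2 + y) ≤ 2 y  iff  2 - y ≤ (2 + y) e^{-y}
  have key : 2 - y ≤ (2 + y) * Real.exp (-y) := by
    by_cases h2 : 2 ≤ y
    · have : 0 ≤ (2 + y) * Real.exp (-y) := by positivity
      linarith
    · push Not at h2
      -- monotonicity of f y = (2+y) e^{-y} - (2 - y)
      have hmono : MonotoneOn (fun z : ℝ => (2 + z) * Real.exp (-z) - (2 - z)) (Set.Ici 0) := by
        apply monotoneOn_of_deriv_nonneg (convex_Ici 0)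
        · fun_prop
        · fun_prop
        · intro x hx
          simp only [interior_Ici, Set.mem_Ioi] at hx
          have hd : HasDerivAt (fun z : ℝ => (2 + z) * Real.exp (-z) - (2 - z))
              ((0 + 1) * Real.exp (-x) + (2 + x) * (Real.exp (-x) * (-1)) - (0 - 1)) x := by
            apply HasDerivAt.sub
            · apply HasDerivAt.mul
              · exact (hasDerivAt_const x 2).add (hasDerivAt_id x)
              · exact (Real.hasDerivAt_exp (-x)).comp x (hasDerivAt_neg x)
            · exact (hasDerivAt_const x 2).sub (hasDerivAt_id x)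
          rw [hd.deriv]
          have h3 : (1 + x) * Real.exp (-x) ≤ 1 := by
            have h4 : 1 + x ≤ Real.exp x := by linarith [Real.add_one_le_exp x]
            calc (1 + x) * Real.exp (-x) ≤ Real.exp x * Real.exp (-x) := by
                  apply mul_le_mul_of_nonneg_right h4 (Real.exp_pos _).le
              _ = 1 := by rw [← Real.exp_add]; simp
          nlinarith
      have := hmono (Set.mem_Ici.2 le_rfl) (Set.mem_Ici.2 hy) hy
      simp only [add_zero, neg_zero, Real.exp_zero, mul_one, sub_zero, sub_self] at this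
      linarith
  nlinarith

theorem Qb_le {c τ : ℝ} (hc : 0 ≤ c) (hcτ : c ≤ τ) (hτ : 1 ≤ τ) (h : ℕ) :
    (h : ℝ) * Qb c h ≤ 2 * τ ^ h := by
  induction h with
  | zero => simp
  | succ h ih =>
    have hQ := Qb_nonneg hc h
    set Q := Qb c h with hQd
    have h1 : Qb c (h + 1) ≤ 2 * (τ * Q) / (2 + τ * Q) := by
      have e1 : Qb c (h + 1) ≤ 1 - Real.exp (-(τ * Q)) := by
        show 1 - Real.exp (-(c * Q)) ≤ _
        have : Real.exp (-(τ * Q)) ≤ Real.exp (-(c * Q)) := by
          apply Real.exp_le_exp.2
          nlinarith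
        linarith
      exact e1.trans (one_sub_exp_le (by positivity))
    have hpos : 0 < 2 + τ * Q := by positivity
    have h2 : ((h : ℝ) + 1) * (2 * (τ * Q) / (2 + τ * Q)) ≤ 2 * τ ^ (h + 1) := by
      rw [← mul_div_assoc, div_le_iff₀ hpos]
      have hτh : 1 ≤ τ ^ (h + 1) := one_le_pow₀ hτ
      have e1 : (h : ℝ) * Q * τ ≤ 2 * τ ^ h * τ := by
        apply mul_le_mul_of_nonneg_right ih (by linarith)
      have e2 : Q * τ ≤ τ ^ (h + 1) * (Q * τ) := by
        have : 0 ≤ Q * τ := by positivity
        nlinarith
      have e3 : τ ^ (h + 1) = τ ^ h * τ := pow_succ _ _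
      rw [e3] at e2 ⊢
      nlinarith
    calc ((h + 1 : ℕ) : ℝ) * Qb c (h + 1) = ((h : ℝ) + 1) * Qb c (h + 1) := by push_cast; ring
      _ ≤ ((h : ℝ) + 1) * (2 * (τ * Q) / (2 + τ * Q)) := by
          apply mul_le_mul_of_nonneg_left h1 (by positivity)
      _ ≤ _ := h2

/-- the probability that a random subset meets `B` -/
theorem pr_meets {α : Type*} [DecidableEq α] (p : ℝ) (E B : Finset α) (hB : B ⊆ E) :
    pr p E (fun S => ∃ u ∈ S, u ∈ B) = 1 - (1 - p) ^ B.card := by
  classical
  rw [← pr_disjoint p E B hB]
  have : (1 : ℝ) = pr p E (fun S => ∃ u ∈ S, u ∈ B) + pr p E (fun S => Disjoint S B) := by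
    unfold pr
    rw [← ex_add]
    refine (ex_const p E (1 : ℝ)).symm.trans (ex_congr p ?_)
    intro S _
    by_cases h : ∃ u ∈ S, u ∈ B
    · have h2 : ¬ Disjoint S B := by
        rw [Finset.not_disjoint_iff]; exact h
      rw [if_pos h, if_neg h2]; norm_num
    · have h2 : Disjoint S B := by
        by_contra h3
        rw [Finset.not_disjoint_iff] at h3
        exact h h3
      rw [if_neg h, if_pos h2]; norm_num
  linarith

theorem HP_bound {p : ℝ} (h0 : 0 ≤ p) (h1 : p < 1) (m : ℕ) (h : ℕ) (v : V) (W : Finset V)
    (hv : v ∉ W) (hW : W.card ≤ m) :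
    pr p (edg (insert v W)) (HP h v W) ≤ Qb (m * (-Real.log (1 - p))) h := by
  classical
  induction h generalizing v W with
  | zero =>
    show _ ≤ (1 : ℝ)
    exact pr_le_one h0 h1.le _ _
  | succ h ih =>
    set c : ℝ := -Real.log (1 - p) with hc
    have hc0 : 0 ≤ c := by
      rw [hc]
      have := Real.log_nonpos (by linarith : (0:ℝ) ≤ 1 - p) (by linarith)
      linarith
    rw [edg_insert hv, pr_union p (disjoint_edg_star hv)]
    -- the good vertices
    set good : Finset (Sym2 V) → Finset V := fun S₁ => W.filter (fun u => HP h u (W.erase u) S₁)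
      with hgood
    have e1 : ex p (edg W) (fun S₁ => pr p (star v W) (fun S₂ => HP (h + 1) v W (S₁ ∪ S₂))) ≤
        ex p (edg W) (fun S₁ => 1 - Real.exp (-(c * (good S₁).card))) := by
      apply ex_mono h0 h1.le
      intro S₁ hS₁
      rw [pr_star]
      calc pr p W (fun N => HP (h + 1) v W (S₁ ∪ star v N))
          ≤ pr p W (fun N => ∃ u ∈ N, u ∈ good S₁) := by
            apply pr_mono h0 h1.le
            rintro N hN ⟨u, hu, h2, h3⟩
            have hvu : v ≠ u := fun h => hv (h ▸ hu)
            refine ⟨u, ?_, ?_⟩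
            · rcases Finset.mem_union.1 h2 with h4 | h4
              · exact absurd (mem_edg.1 (hS₁ h4)).1 hv
              · exact mem_star.1 h4
            · rw [hgood]
              simp only [Finset.mem_filter]
              refine ⟨hu, ?_⟩
              rw [HP_congr h u (W.erase u) (by simp) S₁ (S₁ ∪ star v N)]
              · exact h3
              · intro e he
                rw [Finset.insert_erase hu] at he
                rw [Finset.mem_union]
                constructor
                · exact Or.inl
                · rintro (h4 | h4)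
                  · exact h4
                  · exact absurd h4 (Finset.disjoint_left.1 (disjoint_edg_star hv) he)
        _ = 1 - (1 - p) ^ (good S₁).card := pr_meets p W _ (Finset.filter_subset _ _)
        _ = 1 - Real.exp (-(c * (good S₁).card)) := by
            congr 1
            rw [hc]
            rw [← Real.rpow_natCast, Real.rpow_def_of_pos (by linarith)]
            congr 1
            ring
    refine e1.trans ?_
    -- Jensen
    set M : ℝ := (m : ℝ) * Qb (m * c) h with hM
    have hmean : ex p (edg W) (fun S₁ => ((good S₁).card : ℝ)) ≤ M := by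
      have e2 : ex p (edg W) (fun S₁ => ((good S₁).card : ℝ)) =
          ∑ u ∈ W, pr p (edg W) (HP h u (W.erase u)) := by
        unfold pr
        rw [← ex_sum]
        apply ex_congr
        intro S _
        rw [hgood]
        simp only
        rw [Finset.card_filter]
        push_cast
        rfl
      rw [e2]
      calc ∑ u ∈ W, pr p (edg W) (HP h u (W.erase u)) ≤ ∑ u ∈ W, Qb (m * c) h := by
            apply Finset.sum_le_sum
            intro u hu
            have := ih u (W.erase u) (by simp) ((Finset.card_le_card (Finset.erase_subset _ _)).trans hW)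
            rwa [Finset.insert_erase hu] at this
        _ = W.card * Qb (m * c) h := by rw [Finset.sum_const, nsmul_eq_mul]
        _ ≤ M := by
            apply mul_le_mul_of_nonneg_right _ (Qb_nonneg (by positivity) h)
            exact_mod_cast hW
    have hjen : Real.exp (-(c * M)) ≤ ex p (edg W) (fun S₁ => Real.exp (-(c * (good S₁).card))) := by
      have h5 : ∀ x : ℝ, Real.exp (-(c * M)) * (1 + c * M - c * x) ≤ Real.exp (-(c * x)) := by
        intro x
        have h6 := Real.add_one_le_exp (c * M - c * x)
        calc Real.exp (-(c * M)) * (1 + c * M - c * x)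
            ≤ Real.exp (-(c * M)) * Real.exp (c * M - c * x) := by
              apply mul_le_mul_of_nonneg_left _ (Real.exp_pos _).le
              linarith
          _ = Real.exp (-(c * x)) := by rw [← Real.exp_add]; ring_nf
      calc Real.exp (-(c * M))
          ≤ Real.exp (-(c * M)) * (1 + c * M - c * ex p (edg W) (fun S₁ => ((good S₁).card : ℝ))) := by
            have : 1 ≤ 1 + c * M - c * ex p (edg W) (fun S₁ => ((good S₁).card : ℝ)) := by nlinarith
            have h7 := (Real.exp_pos (-(c * M)))
            nlinarith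
        _ = ex p (edg W) (fun S₁ => Real.exp (-(c * M)) * (1 + c * M - c * ((good S₁).card : ℝ))) := by
            rw [ex_mul_left, ex_sub, ex_const, ex_mul_left]
        _ ≤ _ := by
            apply ex_mono h0 h1.le
            intro S _
            exact h5 _
    rw [ex_sub, ex_const]
    show _ ≤ 1 - Real.exp (-(m * c * Qb (m * c) h))
    have e9 : c * M = m * c * Qb (m * c) h := by rw [hM]; ring
    rw [← e9]
    linarith

end Pool.Agent.W842.RST
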