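import Pool.Agent.W842.RST.Main

/-!
# Asymptotics
-/

set_option autoImplicit false

namespace Pool.Agent.W842.RST

open Finset MeasureTheory Filter Topology Asymptotics

/-- powers of the logarithm are eventually smaller than powers -/
theorem eventually_log (s : ℝ) {ε : ℝ} (hε : 0 < ε) {C : ℝ} (hC : 0 < C) :
    ∀ᶠ n : ℕ in atTop, C * Real.log n ^ s ≤ (n : ℝ) ^ ε := by
  have h := (isLittleO_log_rpow_rpow_atTop s hε).def (c := 1 / C) (by positivity)
  have h2 := tendsto_natCast_atTop_atTop (R := ℝ) |>.eventually h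
  filter_upwards [h2, eventually_ge_atTop 3] with n hn h3
  have hn1 : (3 : ℝ) ≤ n := by exact_mod_cast h3
  have hlog : 0 ≤ Real.log n := Real.log_nonneg (by linarith)
  rw [Real.norm_eq_abs, Real.norm_eq_abs, abs_of_nonneg (Real.rpow_nonneg hlog _),
    abs_of_nonneg (Real.rpow_nonneg (by linarith) _)] at hn
  calc C * Real.log n ^ s ≤ C * (1 / C * (n : ℝ) ^ ε) := mul_le_mul_of_nonneg_left hn hC.le
    _ = (n : ℝ) ^ ε := by field_simp

theorem eventually_Par {γ g ε : ℝ} (hγ : 0 < γ) (hgγ : g ≤ γ) (hg3 : 3 * g ≤ 1) (hε : 0 < ε)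
    (hεg : ε ≤ g) : ∀ᶠ n : ℕ in atTop, Par γ n ((n : ℝ) ^ ε) ((n : ℝ) ^ g) := by
  have h1 := eventually_log 6 hε (C := 1000000 * 9 ^ 6) (by norm_num)
  have h2 := eventually_log (1 + γ) hε (C := 126 * (1 + γ) * 6 ^ γ / γ) (by positivity)
  have h3 : ∀ᶠ n : ℕ in atTop, 1 ≤ Real.log n :=
    (Real.tendsto_log_atTop.comp (tendsto_natCast_atTop_atTop (R := ℝ))).eventually
      (eventually_ge_atTop 1)
  filter_upwards [h1, h2, h3, eventually_ge_atTop 1] with n h1 h2 hL hn
  have hn1 : (1 : ℝ) ≤ n := by exact_mod_cast hn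
  refine ⟨hγ, hL, ?_, ?_, ?_, ?_, ?_⟩
  · refine le_trans ?_ h1
    have e1 : Real.log n ^ (6 : ℝ) = Real.log n ^ 6 := by
      rw [← Real.rpow_natCast]; norm_num
    rw [e1]
    have e2 : (1 + 8 * Real.log n) ^ 6 ≤ (9 * Real.log n) ^ 6 :=
      pow_le_pow_left₀ (by linarith) (by linarith) 6
    calc 1000000 * (1 + 8 * Real.log n) ^ 6 ≤ 1000000 * (9 * Real.log n) ^ 6 := by linarith
      _ = 1000000 * 9 ^ 6 * Real.log n ^ 6 := by ring
  · exact Real.rpow_le_rpow_of_exponent_le hn1 hεg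
  · have : ((n : ℝ) ^ g) ^ 3 = (n : ℝ) ^ (g * 3) := by
      rw [← Real.rpow_natCast, ← Real.rpow_mul (by linarith)]; norm_num
    rw [this]
    calc (n : ℝ) ^ (g * 3) ≤ (n : ℝ) ^ (1 : ℝ) :=
          Real.rpow_le_rpow_of_exponent_le hn1 (by linarith)
      _ = n := Real.rpow_one _
  · exact Real.rpow_le_rpow_of_exponent_le hn1 hgγ
  · have e1 : (1 + 5 * Real.log n) ^ γ ≤ 6 ^ γ * Real.log n ^ γ := by
      rw [← Real.mul_rpow (by norm_num) (by linarith)]
      exact Real.rpow_le_rpow (by linarith) (by linarith) hγ.le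
    have e2 : Real.log n ^ (1 + γ) = Real.log n * Real.log n ^ γ := by
      rw [Real.rpow_add (by linarith), Real.rpow_one]
    rw [e2] at h2
    calc 126 * (1 + γ) * Real.log n * (1 + 5 * Real.log n) ^ γ ≤
          126 * (1 + γ) * Real.log n * (6 ^ γ * Real.log n ^ γ) := by
          apply mul_le_mul_of_nonneg_left e1
          have : 0 ≤ Real.log n := by linarith
          positivity
      _ = γ * (126 * (1 + γ) * 6 ^ γ / γ * (Real.log n * Real.log n ^ γ)) := by
          field_simp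
      _ ≤ γ * (n : ℝ) ^ ε := mul_le_mul_of_nonneg_left h2 hγ.le

/-- two-sided bounds for every `γ > 0` -/
theorem diam_bounds (γ : ℝ) (hγ : 0 < γ) (ε : ℝ) (hε : 0 < ε) :
    Tendsto (fun n : ℕ => avg γ n (fun T =>
      (n : ℝ) ^ (min γ (1 / 3) - ε) ≤ (T.diam : ℝ) ∧
        (T.diam : ℝ) ≤ (n : ℝ) ^ (1 - 2 * min γ (1 / 3) + ε))) atTop (𝓝 1) := by
  set g : ℝ := min γ (1 / 3) with hg
  have hg0 : 0 < g := lt_min hγ (by norm_num)
  have hg1 : g ≤ γ := min_le_left _ _
  have hg3 : 3 * g ≤ 1 := by have : g ≤ 1 / 3 := min_le_right _ _; linarith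
  set ε' : ℝ := min (ε / 4) g with hε'
  have hε'0 : 0 < ε' := lt_min (by linarith) hg0
  have hε'1 : ε' ≤ ε / 4 := min_le_left _ _
  have hε'2 : ε' ≤ g := min_le_right _ _
  have hpar := eventually_Par hγ hg1 hg3 hε'0 hε'2
  have hlim : Tendsto (fun n : ℕ => 1 - 3000 / (n : ℝ) ^ ε') atTop (𝓝 1) := by
    have h1 : Tendsto (fun n : ℕ => (n : ℝ) ^ ε') atTop atTop :=
      (tendsto_rpow_atTop hε'0).comp (tendsto_natCast_atTop_atTop (R := ℝ))
    have h2 := h1.const_div_atTop 3000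
    simpa using (tendsto_const_nhds (x := (1 : ℝ))).sub h2
  refine tendsto_of_tendsto_of_tendsto_of_le_of_le' hlim tendsto_const_nhds ?_ ?_
  · filter_upwards [hpar, eventually_ge_atTop 1] with n P hn
    have hn1 : (1 : ℝ) ≤ n := by exact_mod_cast hn
    have hn0 : (0 : ℝ) < n := by linarith
    apply P.main_bound
    intro T h1 h2
    constructor
    · refine le_trans ?_ h1
      rw [← Real.rpow_sub hn0]
      exact Real.rpow_le_rpow_of_exponent_le hn1 (by linarith)
    · refine h2.trans ?_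
      have e1 : (n : ℝ) * ((n : ℝ) ^ ε') ^ 4 / ((n : ℝ) ^ g) ^ 2 =
          (n : ℝ) ^ (1 + ε' * 4 - g * 2) := by
        have a1 : ((n : ℝ) ^ ε') ^ 4 = (n : ℝ) ^ (ε' * 4) := by
          rw [← Real.rpow_natCast, ← Real.rpow_mul hn0.le]; norm_num
        have a2 : ((n : ℝ) ^ g) ^ 2 = (n : ℝ) ^ (g * 2) := by
          rw [← Real.rpow_natCast, ← Real.rpow_mul hn0.le]; norm_num
        rw [Real.rpow_sub hn0, Real.rpow_add hn0, Real.rpow_one, a1, a2]
      rw [e1]
      exact Real.rpow_le_rpow_of_exponent_le hn1 (by linarith)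
  · exact Eventually.of_forall (fun n => avg_le_one γ n _)

theorem hasExponent_third {γ : ℝ} (hγ : 1 / 3 ≤ γ) : HasExponent γ (1 / 3) := by
  intro ε hε
  have h := diam_bounds γ (by linarith) ε hε
  rw [min_eq_right hγ] at h
  have e : (1 : ℝ) - 2 * (1 / 3) + ε = 1 / 3 + ε := by norm_num
  rw [e] at h
  exact h

theorem gibbs_add_le {n : ℕ} (γ : ℝ) (U : Sym2 (Fin n) → ℝ) (A B : SimpleGraph (Fin n) → Prop)
    (h : ∀ T, ¬ (A T ∧ B T)) : gibbs γ U A + gibbs γ U B ≤ 1 := by
  classical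
  unfold gibbs
  rw [← add_div]
  apply div_le_one_of_le₀
  · rw [← Finset.sum_union]
    · apply Finset.sum_le_sum_of_subset_of_nonneg
      · intro T hT
        simp only [Finset.mem_union, Finset.mem_filter, Finset.mem_univ, true_and] at hT ⊢
        rcases hT with hT | hT
        · exact hT.1
        · exact hT.1
      · intro T _ _
        exact (treeWt_pos γ U T).le
    · rw [Finset.disjoint_left]
      intro T h1 h2
      simp only [Finset.mem_filter, Finset.mem_univ, true_and] at h1 h2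
      exact h T ⟨h1.2, h2.2⟩
  · exact Finset.sum_nonneg (fun T _ => (treeWt_pos γ U T).le)

theorem avg_add_le {n : ℕ} (γ : ℝ) (A B : SimpleGraph (Fin n) → Prop)
    (h : ∀ T, ¬ (A T ∧ B T)) : avg γ n A + avg γ n B ≤ 1 := by
  have hint : ∀ A : SimpleGraph (Fin n) → Prop,
      Integrable (fun U : Sym2 (Fin n) → ℝ => gibbs γ U A) (env n) := by
    intro A
    apply Integrable.of_bound (measurable_gibbs γ A).aestronglyMeasurable 1
    refine Filter.Eventually.of_forall (fun U => ?_)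
    rw [Real.norm_eq_abs, abs_of_nonneg (gibbs_nonneg γ U A)]
    exact gibbs_le_one γ U A
  unfold avg
  rw [← integral_add (hint A) (hint B)]
  have h1 : ∫ U, (gibbs γ U A + gibbs γ U B) ∂(env n) ≤ ∫ _, (1 : ℝ) ∂(env n) :=
    integral_mono ((hint A).add (hint B)) (integrable_const _) (fun U => gibbs_add_le γ U A B h)
  rw [integral_const] at h1
  simpa using h1

/-- an event bound which holds with probability tending to one bounds the exponent -/
theorem exponent_le {γ α β : ℝ} (hα : HasExponent γ α)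
    (h : ∀ ε : ℝ, 0 < ε → Tendsto (fun n : ℕ => avg γ n (fun T =>
      (T.diam : ℝ) ≤ (n : ℝ) ^ (β + ε))) atTop (𝓝 1)) : α ≤ β := by
  by_contra hcon
  push Not at hcon
  have h1 := hα ((α - β) / 3) (by linarith)
  have h2 := h ((α - β) / 3) (by linarith)
  have h3 := h1.add h2
  have h4 : ∀ᶠ n : ℕ in atTop, avg γ n (fun T =>
    (n : ℝ) ^ (α - (α - β) / 3) ≤ (T.diam : ℝ) ∧ (T.diam : ℝ) ≤ (n : ℝ) ^ (α + (α - β) / 3)) +
      avg γ n (fun T => (T.diam : ℝ) ≤ (n : ℝ) ^ (β + (α - β) / 3)) ≤ 1 := by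
    filter_upwards [eventually_ge_atTop 2] with n hn
    apply avg_add_le
    rintro T ⟨⟨h5, _⟩, h6⟩
    have hn1 : (1 : ℝ) < n := by exact_mod_cast hn
    have := Real.rpow_lt_rpow_of_exponent_lt hn1 (show β + (α - β) / 3 < α - (α - β) / 3 by
      linarith)
    linarith
  have h5 := le_of_tendsto h3 h4
  norm_num at h5

theorem le_exponent {γ α β : ℝ} (hα : HasExponent γ α)
    (h : ∀ ε : ℝ, 0 < ε → Tendsto (fun n : ℕ => avg γ n (fun T =>
      (n : ℝ) ^ (β - ε) ≤ (T.diam : ℝ))) atTop (𝓝 1)) : β ≤ α := by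
  by_contra hcon
  push Not at hcon
  have h1 := hα ((β - α) / 3) (by linarith)
  have h2 := h ((β - α) / 3) (by linarith)
  have h3 := h1.add h2
  have h4 : ∀ᶠ n : ℕ in atTop, avg γ n (fun T =>
    (n : ℝ) ^ (α - (β - α) / 3) ≤ (T.diam : ℝ) ∧ (T.diam : ℝ) ≤ (n : ℝ) ^ (α + (β - α) / 3)) +
      avg γ n (fun T => (n : ℝ) ^ (β - (β - α) / 3) ≤ (T.diam : ℝ)) ≤ 1 := by
    filter_upwards [eventually_ge_atTop 2] with n hn
    apply avg_add_le
    rintro T ⟨⟨_, h5⟩, h6⟩
    have hn1 : (1 : ℝ) < n := by exact_mod_cast hn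
    have := Real.rpow_lt_rpow_of_exponent_lt hn1 (show α + (β - α) / 3 < β - (β - α) / 3 by
      linarith)
    linarith
  have h5 := le_of_tendsto h3 h4
  norm_num at h5

theorem avg_mono {n : ℕ} (γ : ℝ) (A B : SimpleGraph (Fin n) → Prop)
    (h : ∀ T, A T → B T) : avg γ n A ≤ avg γ n B := by
  classical
  have hint : ∀ A : SimpleGraph (Fin n) → Prop,
      Integrable (fun U : Sym2 (Fin n) → ℝ => gibbs γ U A) (env n) := by
    intro A
    apply Integrable.of_bound (measurable_gibbs γ A).aestronglyMeasurable 1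
    refine Filter.Eventually.of_forall (fun U => ?_)
    rw [Real.norm_eq_abs, abs_of_nonneg (gibbs_nonneg γ U A)]
    exact gibbs_le_one γ U A
  unfold avg
  apply integral_mono (hint A) (hint B)
  intro U
  simp only
  unfold gibbs
  apply div_le_div_of_nonneg_right
  · apply Finset.sum_le_sum_of_subset_of_nonneg
    · intro T hT
      simp only [Finset.mem_filter, Finset.mem_univ, true_and] at hT ⊢
      exact ⟨hT.1, h T hT.2⟩
    · intro T _ _
      exact (treeWt_pos γ U T).le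
  · exact Finset.sum_nonneg (fun T _ => (treeWt_pos γ U T).le)

theorem exponent_bounds {γ α : ℝ} (hγ : 0 < γ) (hα : HasExponent γ α) :
    min γ (1 / 3) ≤ α ∧ α ≤ 1 - 2 * min γ (1 / 3) := by
  constructor
  · apply le_exponent hα
    intro ε hε
    refine tendsto_of_tendsto_of_tendsto_of_le_of_le (diam_bounds γ hγ ε hε) tendsto_const_nhds
      (fun n => ?_) (fun n => avg_le_one γ n _)
    exact avg_mono γ _ _ (fun T h => h.1)
  · apply exponent_le hα
    intro ε hε
    refine tendsto_of_tendsto_of_tendsto_of_le_of_le (diam_bounds γ hγ ε hε) tendsto_const_nhds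
      (fun n => ?_) (fun n => avg_le_one γ n _)
    exact avg_mono γ _ _ (fun T h => h.2)

end Pool.Agent.W842.RST
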