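import Pool.Agent.W842.RST.Edges

/-!
# Exploration of a random graph and large components
-/

set_option autoImplicit false

namespace Pool.Agent.W842.RST

open Finset

variable {V : Type*} [DecidableEq V]

/-- the graph with edge set `S` -/
abbrev gr (S : Finset (Sym2 V)) : SimpleGraph V := SimpleGraph.fromEdgeSet (S : Set (Sym2 V))

/-- the exploration never finds a large excursion: `W` is the set of unexplored vertices,
`A ⊆ W` the active ones, `B` the explored vertices of the current excursion, `k` is fuel. -/
noncomputable def Fx (s : ℕ) : ℕ → Finset V → Finset V → Finset V → Finset (Sym2 V) → Prop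
  | 0, _, _, _, _ => True
  | (k + 1), W, A, B, S =>
    open Classical in
    if hA : A.Nonempty then
      if s ≤ A.card + B.card then False
      else Fx s k (W.erase hA.choose)
        ((A.erase hA.choose) ∪ (W \ A).filter (fun u => s(hA.choose, u) ∈ S))
        (insert hA.choose B) S
    else if hW : W.Nonempty then Fx s k W {hW.choose} ∅ S
    else True

theorem Fx_of_small [Fintype V] (s : ℕ) (S : Finset (Sym2 V))
    (hsmall : ∀ r : V, (open Classical in univ.filter (fun x => (gr S).Reachable r x)).card < s)
    (k : ℕ) (W A B : Finset V) (hAW : A ⊆ W) (hBW : Disjoint B W)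
    (h : ∀ x ∈ A ∪ B, ∀ y ∈ A ∪ B, (gr S).Reachable x y) : Fx s k W A B S := by
  classical
  induction k generalizing W A B with
  | zero => trivial
  | succ k ih =>
    unfold Fx
    split_ifs with hA hs hW
    · obtain ⟨a, ha⟩ := hA
      have hd : Disjoint A B := (Finset.disjoint_of_subset_right hAW hBW).symm
      have h1 : A ∪ B ⊆ univ.filter (fun x => (gr S).Reachable a x) := by
        intro x hx
        rw [Finset.mem_filter]
        exact ⟨Finset.mem_univ _, h a (Finset.mem_union_left _ ha) x hx⟩
      have h2 := Finset.card_le_card h1
      rw [Finset.card_union_of_disjoint hd] at h2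
      have h3 := hsmall a
      omega
    · have hw : hA.choose ∈ A := hA.choose_spec
      set w := hA.choose with hwd
      apply ih
      · intro x hx
        rcases Finset.mem_union.1 hx with h1 | h1
        · exact Finset.mem_erase.2 ⟨Finset.ne_of_mem_erase h1, hAW (Finset.mem_of_mem_erase h1)⟩
        · rw [Finset.mem_filter, Finset.mem_sdiff] at h1
          exact Finset.mem_erase.2 ⟨fun h => h1.1.2 (h ▸ hw), h1.1.1⟩
      · rw [Finset.disjoint_left]
        intro x hx hx'
        rcases Finset.mem_insert.1 hx with h1 | h1
        · exact (Finset.ne_of_mem_erase hx') h1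
        · exact Finset.disjoint_left.1 hBW h1 (Finset.mem_of_mem_erase hx')
      · have hr : ∀ x ∈ (A.erase w ∪ (W \ A).filter (fun u => s(w, u) ∈ S)) ∪ insert w B,
            (gr S).Reachable w x := by
          intro x hx
          rcases Finset.mem_union.1 hx with h1 | h1
          · rcases Finset.mem_union.1 h1 with h2 | h2
            · exact h w (Finset.mem_union_left _ hw) x
                (Finset.mem_union_left _ (Finset.mem_of_mem_erase h2))
            · rw [Finset.mem_filter, Finset.mem_sdiff] at h2
              have hne : w ≠ x := fun h => h2.1.2 (h ▸ hw)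
              apply SimpleGraph.Adj.reachable
              rw [SimpleGraph.fromEdgeSet_adj]
              exact ⟨by exact_mod_cast h2.2, hne⟩
          · rcases Finset.mem_insert.1 h1 with h2 | h2
            · rw [h2]
            · exact h w (Finset.mem_union_left _ hw) x (Finset.mem_union_right _ h2)
        intro x hx y hy
        exact (hr x hx).symm.trans (hr y hy)
    · apply ih
      · intro x hx
        rw [Finset.mem_singleton] at hx
        rw [hx]; exact hW.choose_spec
      · simp
      · intro x hx y hy
        simp only [Finset.union_empty, Finset.mem_singleton] at hx hy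
        rw [hx, hy]

theorem Fx_congr (s k : ℕ) (W A B : Finset V) (hAW : A ⊆ W) (S T : Finset (Sym2 V))
    (hST : ∀ e ∈ edg W, (e ∈ S ↔ e ∈ T)) : Fx s k W A B S ↔ Fx s k W A B T := by
  classical
  induction k generalizing W A B with
  | zero => exact Iff.rfl
  | succ k ih =>
    unfold Fx
    split_ifs with hA hs hW
    · exact Iff.rfl
    · have hw : hA.choose ∈ A := hA.choose_spec
      set w := hA.choose with hwd
      have e1 : (W \ A).filter (fun u => s(w, u) ∈ S) = (W \ A).filter (fun u => s(w, u) ∈ T) := by
        apply Finset.filter_congr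
        intro u hu
        rw [Finset.mem_sdiff] at hu
        apply hST
        rw [mem_edg]
        exact ⟨hAW hw, hu.1, fun h => hu.2 (h ▸ hw)⟩
      rw [e1]
      apply ih
      · intro x hx
        rcases Finset.mem_union.1 hx with h1 | h1
        · exact Finset.mem_erase.2 ⟨Finset.ne_of_mem_erase h1, hAW (Finset.mem_of_mem_erase h1)⟩
        · rw [Finset.mem_filter, Finset.mem_sdiff] at h1
          exact Finset.mem_erase.2 ⟨fun h => h1.1.2 (h ▸ hw), h1.1.1⟩
      · intro e he
        exact hST e (edg_mono (Finset.erase_subset _ _) he)
    · apply ih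
      · intro x hx
        rw [Finset.mem_singleton] at hx
        rw [hx]; exact hW.choose_spec
      · exact hST
    · exact Iff.rfl

theorem pr_Fx_step (p : ℝ) (s k : ℕ) (W A B : Finset V) (hAW : A ⊆ W) (hA : A.Nonempty)
    (hs : ¬ s ≤ A.card + B.card) :
    pr p (edg W) (Fx s (k + 1) W A B) =
      ex p (W \ A) (fun N => pr p (edg (W.erase hA.choose))
        (Fx s k (W.erase hA.choose) ((A.erase hA.choose) ∪ N) (insert hA.choose B))) := by
  classical
  have hw : hA.choose ∈ A := hA.choose_spec
  have hunf : ∀ S, Fx s (k + 1) W A B S = Fx s k (W.erase hA.choose)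
        ((A.erase hA.choose) ∪ (W \ A).filter (fun u => s(hA.choose, u) ∈ S))
        (insert hA.choose B) S := by
    intro S
    conv_lhs => unfold Fx
    rw [dif_pos hA, if_neg hs]
  set w := hA.choose with hwd
  have hwW : w ∈ W := hAW hw
  have hnot : w ∉ W.erase w := Finset.notMem_erase _ _
  have e0 : edg W = edg (W.erase w) ∪ star w (W.erase w) := by
    rw [← edg_insert hnot, Finset.insert_erase hwW]
  have e1 : W.erase w = (A.erase w) ∪ (W \ A) := by
    ext x
    simp only [Finset.mem_erase, Finset.mem_union, Finset.mem_sdiff]
    constructor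
    · rintro ⟨h1, h2⟩
      by_cases h3 : x ∈ A
      · exact Or.inl ⟨h1, h3⟩
      · exact Or.inr ⟨h2, h3⟩
    · rintro (⟨h1, h2⟩ | ⟨h1, h2⟩)
      · exact ⟨h1, hAW h2⟩
      · exact ⟨fun h => h2 (h ▸ hw), h1⟩
  have hdis : Disjoint (A.erase w) (W \ A) := by
    rw [Finset.disjoint_left]
    intro x hx hx'
    exact (Finset.mem_sdiff.1 hx').2 (Finset.mem_of_mem_erase hx)
  rw [e0, pr_union p (disjoint_edg_star hnot)]
  have e2 : ∀ S₁ ⊆ edg (W.erase w), pr p (star w (W.erase w))
      (fun S₂ => Fx s (k + 1) W A B (S₁ ∪ S₂)) =
      pr p (W \ A) (fun N => Fx s k (W.erase w) ((A.erase w) ∪ N) (insert w B) S₁) := by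
    intro S₁ hS₁
    rw [pr_star]
    have e3 : pr p (W.erase w) (fun N => Fx s (k + 1) W A B (S₁ ∪ star w N)) =
        pr p (W.erase w) (fun N => Fx s k (W.erase w) ((A.erase w) ∪ ((W \ A) ∩ N))
          (insert w B) S₁) := by
      apply pr_congr
      intro N hN
      rw [hunf]
      have e4 : (W \ A).filter (fun u => s(w, u) ∈ S₁ ∪ star w N) = (W \ A) ∩ N := by
        ext u
        rw [Finset.mem_filter, Finset.mem_inter, Finset.mem_union, mem_star]
        constructor
        · rintro ⟨h1, h2 | h2⟩
          · exact absurd (mem_edg.1 (hS₁ h2)).1 hnot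
          · exact ⟨h1, h2⟩
        · rintro ⟨h1, h2⟩
          exact ⟨h1, Or.inr h2⟩
      rw [e4]
      apply Fx_congr
      · intro x hx
        rw [e1]
        rcases Finset.mem_union.1 hx with h1 | h1
        · exact Finset.mem_union_left _ h1
        · exact Finset.mem_union_right _ (Finset.mem_inter.1 h1).1
      · intro e he
        rw [Finset.mem_union]
        constructor
        · rintro (h1 | h1)
          · exact h1
          · exact absurd h1 (Finset.disjoint_left.1 (disjoint_edg_star hnot) he)
        · exact Or.inl
    rw [e3]
    conv_lhs => rw [e1]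
    rw [Finset.union_comm (A.erase w) (W \ A)]
    have e5 := pr_union_left p (hdis.symm) (fun N => Fx s k (W \ A ∪ A.erase w)
        ((A.erase w) ∪ ((W \ A) ∩ N)) (insert w B) S₁) (by
      intro N₁ h1 N₂ h2
      have e6 : (W \ A) ∩ (N₁ ∪ N₂) = (W \ A) ∩ N₁ := by
        ext u
        simp only [Finset.mem_inter, Finset.mem_union]
        constructor
        · rintro ⟨h3, h4 | h4⟩
          · exact ⟨h3, h4⟩
          · exact absurd h3 (Finset.disjoint_left.1 hdis (h2 h4))
        · rintro ⟨h3, h4⟩
          exact ⟨h3, Or.inl h4⟩
      rw [e6])
    rw [e5]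
    apply pr_congr
    intro N hN
    rw [Finset.inter_eq_right.2 hN, (e1.trans (Finset.union_comm _ _)).symm]
  have e7 : ex p (edg (W.erase w)) (fun S₁ => pr p (star w (W.erase w))
      (fun S₂ => Fx s (k + 1) W A B (S₁ ∪ S₂))) =
      ex p (edg (W.erase w)) (fun S₁ =>
      pr p (W \ A) (fun N => Fx s k (W.erase w) ((A.erase w) ∪ N) (insert w B) S₁)) :=
    ex_congr p e2
  rw [e7]
  unfold pr
  rw [ex_comm]

/-- the potential -/
noncomputable def Bd (m0 : ℕ) (lam g : ℕ → ℝ) (κ : ℝ) (w a b : ℕ) : ℝ :=
  if m0 ≤ w + b then Real.exp (-(lam b * a) + g b - κ * ((w : ℝ) + b - m0)) else 1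

theorem Bd_nonneg (m0 : ℕ) (lam g : ℕ → ℝ) (κ : ℝ) (w a b : ℕ) : 0 ≤ Bd m0 lam g κ w a b := by
  unfold Bd
  split_ifs
  · positivity
  · norm_num

theorem pr_Fx_le {p : ℝ} (h0 : 0 ≤ p) (h1 : p ≤ 1) (n s m0 : ℕ) (lam g : ℕ → ℝ) (κ c : ℝ)
    (hκ : 0 ≤ κ) (hlam : ∀ b, 0 ≤ lam b) (hlam' : ∀ b, lam b ≤ lam (b + 1) * (1 - p))
    (hc : p * n ≤ c)
    (hg : ∀ b < s, g (b + 1) + lam (b + 1) - p * ((m0 : ℝ) - b) * lam (b + 1) +
      c * lam (b + 1) ^ 2 / 2 ≤ g b)
    (g0 : g 0 ≤ 0) (hgκ : ∀ b ≤ s, κ * b ≤ g b) (hsm : s ≤ m0)
    (k : ℕ) (W A B : Finset V) (hAW : A ⊆ W) (hBW : Disjoint B W) (hWn : W.card ≤ n)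
    (hBs : B.card < s) (hk : 2 * W.card + (if A = ∅ then 1 else 0) ≤ k) :
    pr p (edg W) (Fx s k W A B) ≤ Bd m0 lam g κ W.card A.card B.card := by
  classical
  induction k generalizing W A B with
  | zero =>
    exfalso
    by_cases hA : A = ∅
    · rw [if_pos hA] at hk; omega
    · have : W.card = 0 := by omega
      have hW := Finset.card_eq_zero.1 this
      subst hW
      exact hA (Finset.subset_empty.1 hAW)
  | succ k ih =>
    by_cases hA : A.Nonempty
    · by_cases hs : s ≤ A.card + B.card
      · have : pr p (edg W) (Fx s (k + 1) W A B) = pr p (edg W) (fun _ => False) := by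
          apply pr_congr
          intro S _
          unfold Fx
          rw [dif_pos hA, if_pos hs]
        rw [this]
        have h3 : pr p (edg W) (fun _ => False) = 0 := by
          unfold pr
          simp [ex_const]
        rw [h3]
        exact Bd_nonneg _ _ _ _ _ _ _
      · by_cases hm : m0 ≤ W.card + B.card
        · rw [pr_Fx_step p s k W A B hAW hA hs]
          have hw : hA.choose ∈ A := hA.choose_spec
          set w := hA.choose with hwd
          have hwW : w ∈ W := hAW hw
          have hwB : w ∉ B := fun h => Finset.disjoint_left.1 hBW h hwW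
          have hApos : 1 ≤ A.card := Finset.card_pos.2 hA
          have hWpos : 1 ≤ W.card := Finset.card_pos.2 ⟨w, hwW⟩
          have cW : (W.erase w).card = W.card - 1 := Finset.card_erase_of_mem hwW
          have cB : (insert w B).card = B.card + 1 := Finset.card_insert_of_notMem hwB
          have cA : ∀ N ⊆ W \ A, ((A.erase w) ∪ N).card = A.card - 1 + N.card := by
            intro N hN
            rw [Finset.card_union_of_disjoint, Finset.card_erase_of_mem hw]
            rw [Finset.disjoint_left]
            intro x hx hx'
            exact (Finset.mem_sdiff.1 (hN hx')).2 (Finset.mem_of_mem_erase hx)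
          set b := B.card with hb
          set a := A.card with ha
          set m := W.card with hmd
          set l := lam (b + 1) with hl
          have hl0 : 0 ≤ l := hlam _
          have step1 : ex p (W \ A) (fun N => pr p (edg (W.erase w))
              (Fx s k (W.erase w) ((A.erase w) ∪ N) (insert w B))) ≤
              ex p (W \ A) (fun N => Real.exp (-(l * ((a : ℝ) - 1)) + g (b + 1) -
                κ * ((m : ℝ) + b - m0)) * (Real.exp (-l)) ^ N.card) := by
            apply ex_mono h0 h1
            intro N hN
            have h3 := ih (W.erase w) ((A.erase w) ∪ N) (insert w B) (by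
                intro x hx
                rcases Finset.mem_union.1 hx with h1 | h1
                · exact Finset.mem_erase.2 ⟨Finset.ne_of_mem_erase h1,
                    hAW (Finset.mem_of_mem_erase h1)⟩
                · have h2 := Finset.mem_sdiff.1 (hN h1)
                  exact Finset.mem_erase.2 ⟨fun h => h2.2 (h ▸ hw), h2.1⟩) (by
                rw [Finset.disjoint_left]
                intro x hx hx'
                rcases Finset.mem_insert.1 hx with h1 | h1
                · exact (Finset.ne_of_mem_erase hx') h1
                · exact Finset.disjoint_left.1 hBW h1 (Finset.mem_of_mem_erase hx'))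
              (by rw [cW]; omega) (by rw [cB]; omega) (by
                rw [cW]
                have : (if A.erase w ∪ N = ∅ then 1 else 0) ≤ 1 := by split_ifs <;> omega
                omega)
            refine h3.trans (le_of_eq ?_)
            rw [cW, cB, cA N hN]
            unfold Bd
            rw [if_pos (by omega)]
            rw [← Real.exp_nat_mul, ← Real.exp_add]
            congr 1
            push_cast [Nat.cast_sub hApos, Nat.cast_sub hWpos]
            ring
          refine step1.trans ?_
          rw [ex_mul_left, ex_pow_card]
          unfold Bd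
          rw [if_pos hm]
          have hcard : (W \ A).card = m - a := by
            rw [Finset.card_sdiff_of_subset hAW]
          have ham : a ≤ m := Finset.card_le_card hAW
          rw [hcard]
          set δ := 1 - Real.exp (-l) with hδ
          have e1 : 1 - p + p * Real.exp (-l) = 1 - p * δ := by rw [hδ]; ring
          rw [e1]
          have hδ1 : δ ≤ l := by
            have := Real.add_one_le_exp (-l)
            rw [hδ]; linarith
          have hδ2 : l - l ^ 2 / 2 ≤ δ := by
            -- exp(-l) ≤ 1 - l + l^2/2
            have hq : Real.exp (-l) ≤ 1 - l + l ^ 2 / 2 := by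
              have h5 := Real.quadratic_le_exp_of_nonneg hl0
              have h6 : Real.exp (-l) * Real.exp l = 1 := by rw [← Real.exp_add]; simp
              have h7 : 0 < Real.exp (-l) := Real.exp_pos _
              by_cases hbig : 1 - l + l ^ 2 / 2 ≤ 0
              · nlinarith [sq_nonneg (l - 1)]
              · push Not at hbig
                have h8 : 1 ≤ (1 - l + l ^ 2 / 2) * Real.exp l := by
                  have h9 : 1 ≤ (1 - l + l ^ 2 / 2) * (1 + l + l ^ 2 / 2) := by
                    nlinarith [sq_nonneg (l ^ 2)]
                  nlinarith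
                by_contra hcon
                push Not at hcon
                have : (1 - l + l ^ 2 / 2) * Real.exp l < Real.exp (-l) * Real.exp l :=
                  mul_lt_mul_of_pos_right hcon (Real.exp_pos _)
                rw [h6] at this
                linarith
            rw [hδ]; linarith
          have hδ0 : 0 ≤ δ := by
            have : Real.exp (-l) ≤ 1 := Real.exp_le_one_iff.2 (by linarith)
            rw [hδ]; linarith
          have hδle : δ ≤ 1 := by rw [hδ]; linarith [Real.exp_pos (-l)]
          have e2 : (1 - p * δ) ^ (m - a) ≤ Real.exp (-(p * δ * ((m : ℝ) - a))) := by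
            have h5 : 1 - p * δ ≤ Real.exp (-(p * δ)) := by
              have := Real.add_one_le_exp (-(p * δ))
              linarith
            have h6 : 0 ≤ 1 - p * δ := by nlinarith
            calc (1 - p * δ) ^ (m - a) ≤ Real.exp (-(p * δ)) ^ (m - a) :=
                  pow_le_pow_left₀ h6 h5 _
              _ = Real.exp (-(p * δ * ((m : ℝ) - a))) := by
                  rw [← Real.exp_nat_mul]
                  congr 1
                  push_cast [Nat.cast_sub ham]
                  ring
          calc Real.exp (-(l * ((a : ℝ) - 1)) + g (b + 1) - κ * ((m : ℝ) + b - m0)) *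
                (1 - p * δ) ^ (m - a)
              ≤ Real.exp (-(l * ((a : ℝ) - 1)) + g (b + 1) - κ * ((m : ℝ) + b - m0)) *
                Real.exp (-(p * δ * ((m : ℝ) - a))) :=
                mul_le_mul_of_nonneg_left e2 (Real.exp_pos _).le
            _ = Real.exp (-(l * ((a : ℝ) - 1)) + g (b + 1) - κ * ((m : ℝ) + b - m0) -
                p * δ * ((m : ℝ) - a)) := by rw [← Real.exp_add]; ring_nf
            _ ≤ Real.exp (-(lam b * a) + g b - κ * ((m : ℝ) + b - m0)) := by
                apply Real.exp_le_exp.2
                have hbs : b < s := hBs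
                have h5 := hg b hbs
                have h6 := hlam' b
                rw [← hl] at h5 h6
                have h7 : (m0 : ℝ) - b ≤ m := by
                  have : (m0 : ℝ) ≤ m + b := by exact_mod_cast hm
                  linarith
                have hm0 : (0 : ℝ) ≤ m := Nat.cast_nonneg _
                have ha0 : (0 : ℝ) ≤ a := Nat.cast_nonneg _
                have h8 : p * m * (l - l ^ 2 / 2) ≤ p * m * δ :=
                  mul_le_mul_of_nonneg_left hδ2 (by positivity)
                have h9 : p * a * δ ≤ p * a * l :=
                  mul_le_mul_of_nonneg_left hδ1 (by positivity)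
                have h10 : p * ((m0 : ℝ) - b) * l ≤ p * m * l := by
                  have : p * ((m0 : ℝ) - b) ≤ p * m := mul_le_mul_of_nonneg_left h7 h0
                  exact mul_le_mul_of_nonneg_right this hl0
                have h11 : p * m * l ^ 2 ≤ c * l ^ 2 := by
                  apply mul_le_mul_of_nonneg_right _ (sq_nonneg _)
                  refine le_trans ?_ hc
                  apply mul_le_mul_of_nonneg_left _ h0
                  exact_mod_cast hWn
                have h12 : lam b * a ≤ l * (1 - p) * a :=
                  mul_le_mul_of_nonneg_right h6 ha0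
                nlinarith
        · unfold Bd
          rw [if_neg hm]
          exact pr_le_one h0 h1 _ _
    · have hAe : A = ∅ := Finset.not_nonempty_iff_eq_empty.1 hA
      subst hAe
      by_cases hW : W.Nonempty
      · have hu : ∀ S, Fx s (k + 1) W ∅ B S = Fx s k W {hW.choose} ∅ S := by
          intro S
          conv_lhs => unfold Fx
          rw [dif_neg hA, dif_pos hW]
        have e1 : pr p (edg W) (Fx s (k + 1) W ∅ B) = pr p (edg W) (Fx s k W {hW.choose} ∅) := by
          apply pr_congr
          intro S _
          rw [hu]
        rw [e1]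
        have hs0 : 0 < s := by omega
        have h3 := ih W {hW.choose} ∅ (by
          intro x hx
          rw [Finset.mem_singleton] at hx
          rw [hx]; exact hW.choose_spec) (by simp) hWn (by simpa using hs0) (by
          have : ({hW.choose} : Finset V) ≠ ∅ := Finset.singleton_ne_empty _
          rw [if_neg this]
          rw [if_pos rfl] at hk
          omega)
        refine h3.trans ?_
        rw [Finset.card_singleton, Finset.card_empty]
        set b := B.card with hb
        have hgb := hgκ b hBs.le
        unfold Bd
        by_cases hm1 : m0 ≤ W.card + 0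
        · rw [if_pos hm1, if_pos (by omega)]
          apply Real.exp_le_exp.2
          have := hlam 0
          push_cast
          nlinarith
        · rw [if_neg hm1]
          split_ifs with hm2
          · apply Real.one_le_exp
            have h4 : (W.card : ℝ) + b - m0 ≤ b := by
              have : (W.card : ℝ) ≤ m0 := by exact_mod_cast (by omega : W.card ≤ m0)
              linarith
            have h5 : κ * ((W.card : ℝ) + b - m0) ≤ κ * b := mul_le_mul_of_nonneg_left h4 hκ
            push_cast
            linarith
          · exact le_rfl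
      · have hWe : W = ∅ := Finset.not_nonempty_iff_eq_empty.1 hW
        subst hWe
        unfold Bd
        rw [if_neg (by simp only [Finset.card_empty]; omega)]
        exact pr_le_one h0 h1 _ _

/-- all components smaller than `s` is unlikely -/
theorem small_comp_le [Fintype V] {p : ℝ} (h0 : 0 ≤ p) (h1 : p ≤ 1) (s m0 : ℕ)
    (lam g : ℕ → ℝ) (κ c : ℝ)
    (hκ : 0 ≤ κ) (hlam : ∀ b, 0 ≤ lam b) (hlam' : ∀ b, lam b ≤ lam (b + 1) * (1 - p))
    (hc : p * Fintype.card V ≤ c)
    (hg : ∀ b < s, g (b + 1) + lam (b + 1) - p * ((m0 : ℝ) - b) * lam (b + 1) +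
      c * lam (b + 1) ^ 2 / 2 ≤ g b)
    (g0 : g 0 ≤ 0) (hgκ : ∀ b ≤ s, κ * b ≤ g b) (hsm : s ≤ m0) (hm0 : m0 ≤ Fintype.card V)
    (hs : 0 < s) :
    pr p (edg (univ : Finset V)) (fun S => ∀ r : V,
      (open Classical in univ.filter (fun x => (gr S).Reachable r x)).card < s) ≤
      Real.exp (-(κ * ((Fintype.card V : ℝ) - m0))) := by
  classical
  calc _ ≤ pr p (edg (univ : Finset V)) (Fx s (2 * Fintype.card V + 1) univ ∅ ∅) := by
        apply pr_mono h0 h1
        intro S _ h
        apply Fx_of_small s S h _ _ _ _ (by simp) (by simp)
        intro x hx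
        simp at hx
    _ ≤ Bd m0 lam g κ (univ : Finset V).card (∅ : Finset V).card (∅ : Finset V).card := by
        apply pr_Fx_le h0 h1 (Fintype.card V) s m0 lam g κ c hκ hlam hlam' hc hg g0 hgκ hsm
        · simp
        · simp
        · simp [Finset.card_univ]
        · simpa using hs
        · simp [Finset.card_univ]
    _ ≤ _ := by
        unfold Bd
        rw [if_pos (by simpa [Finset.card_univ] using hm0)]
        apply Real.exp_le_exp.2
        simp only [Finset.card_empty, Finset.card_univ, Nat.cast_zero]
        linarith

end Pool.Agent.W842.RST
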