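import Pool.Agent.W842.RST.Env
import Pool.Agent.W842.RST.Giant

/-!
# Long paths which avoid a large component are unlikely
-/

set_option autoImplicit false

namespace Pool.Agent.W842.RST

open MeasureTheory Finset

/-- the graph of the edges with variable at most `p` -/
def GU {n : ℕ} (U : Sym2 (Fin n) → ℝ) (p : ℝ) : SimpleGraph (Fin n) :=
  SimpleGraph.fromEdgeSet {e | U e ≤ p}

theorem GU_adj {n : ℕ} {U : Sym2 (Fin n) → ℝ} {p : ℝ} {u v : Fin n} :
    (GU U p).Adj u v ↔ U s(u, v) ≤ p ∧ u ≠ v := by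
  unfold GU
  rw [SimpleGraph.fromEdgeSet_adj]
  rfl

theorem GU_mono {n : ℕ} {U : Sym2 (Fin n) → ℝ} {p q : ℝ} (h : p ≤ q) : GU U p ≤ GU U q := by
  intro u v huv
  rw [GU_adj] at huv ⊢
  exact ⟨huv.1.trans h, huv.2⟩

theorem gr_filter {n : ℕ} (U : Sym2 (Fin n) → ℝ) (p : ℝ) :
    gr (open Classical in (edg (univ : Finset (Fin n))).filter (fun e => U e ≤ p)) = GU U p := by
  ext u v
  rw [GU_adj, SimpleGraph.fromEdgeSet_adj]
  simp only [Finset.coe_filter, Set.mem_ofPred_eq, mem_edg, Finset.mem_univ, true_and]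
  tauto

/-- the component of `v` -/
noncomputable def comp {n : ℕ} (G : SimpleGraph (Fin n)) (v : Fin n) : Finset (Fin n) :=
  open Classical in univ.filter (fun w => G.Reachable v w)

theorem mem_comp {n : ℕ} {G : SimpleGraph (Fin n)} {v w : Fin n} :
    w ∈ comp G v ↔ G.Reachable v w := by
  classical
  unfold comp
  simp

theorem card_path_edges {n m : ℕ} (x : Fin (m + 1) → Fin n) (hx : Function.Injective x) :
    ((univ : Finset (Fin m)).image (fun i => s(x i.castSucc, x i.succ))).card = m := by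
  rw [Finset.card_image_of_injective, Finset.card_univ, Fintype.card_fin]
  intro i j hij
  simp only at hij
  rw [Sym2.eq_iff] at hij
  rcases hij with ⟨h1, h2⟩ | ⟨h1, h2⟩
  · exact Fin.castSucc_injective _ (hx h1)
  · have a := hx h1
    have b := hx h2
    have a' := congrArg Fin.val a
    have b' := congrArg Fin.val b
    simp only [Fin.val_castSucc, Fin.val_succ] at a' b'
    omega

theorem card_cross {n : ℕ} (C P : Finset (Fin n)) (h : Disjoint C P) :
    ((C ×ˢ P).image (fun q => s(q.1, q.2))).card = C.card * P.card := by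
  rw [Finset.card_image_of_injOn, Finset.card_product]
  rintro ⟨a, b⟩ h1 ⟨c, d⟩ h2 hab
  simp only [Finset.coe_product, Set.mem_prod, Finset.mem_coe] at h1 h2
  simp only at hab
  rw [Sym2.eq_iff] at hab
  rcases hab with ⟨h3, h4⟩ | ⟨h3, h4⟩
  · rw [h3, h4]
  · exact absurd h2.2 (Finset.disjoint_left.1 h (h3 ▸ h1.1))

/-- the event for a given vertex and a given path -/
theorem avoid_one {n m s : ℕ} {p p' : ℝ} (h0 : 0 ≤ p) (h1 : p ≤ 1) (h0' : 0 ≤ p') (h1' : p' ≤ 1)
    (v : Fin n) (x : Fin (m + 1) → Fin n) (hx : Function.Injective x) :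
    env n {U | (∀ i : Fin m, U s(x i.castSucc, x i.succ) ≤ p') ∧
      (∀ i, ¬ (GU U p).Reachable v (x i)) ∧ s ≤ (comp (GU U p) v).card} ≤
      ENNReal.ofReal (p' ^ m * (1 - p) ^ (s * (m + 1))) := by
  classical
  set P : Finset (Fin n) := univ.image x with hP
  have hPc : P.card = m + 1 := by
    rw [hP, Finset.card_image_of_injective _ hx, Finset.card_univ, Fintype.card_fin]
  set E₁ := edg (univ \ P) with hE1
  set T : Finset (Sym2 (Fin n)) := (univ : Finset (Fin m)).image (fun i => s(x i.castSucc, x i.succ))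
    with hT
  by_cases hvP : v ∈ P
  · have : {U | (∀ i : Fin m, U s(x i.castSucc, x i.succ) ≤ p') ∧
      (∀ i, ¬ (GU U p).Reachable v (x i)) ∧ s ≤ (comp (GU U p) v).card} = ∅ := by
      ext U
      simp only [Set.mem_ofPred_eq, Set.mem_empty_iff_false, iff_false]
      rintro ⟨_, h2, _⟩
      obtain ⟨i, _, hi⟩ := Finset.mem_image.1 hvP
      exact h2 i (hi ▸ SimpleGraph.Reachable.refl _)
    rw [this]
    simp
  -- the component avoids P
  have hCP : ∀ S₁ ⊆ E₁, Disjoint (comp (gr S₁) v) P := by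
    intro S₁ hS₁
    rw [Finset.disjoint_left]
    intro w hw
    rw [mem_comp] at hw
    rw [SimpleGraph.reachable_iff_reflTransGen] at hw
    induction hw with
    | refl => exact hvP
    | tail _ hadj _ =>
      rw [SimpleGraph.fromEdgeSet_adj] at hadj
      have := hS₁ (by exact_mod_cast hadj.1)
      rw [hE1, mem_edg, Finset.mem_sdiff, Finset.mem_sdiff] at this
      exact this.2.1.2
  set R : Finset (Sym2 (Fin n)) → Finset (Sym2 (Fin n)) := fun S₁ =>
    (E₁ \ S₁) ∪ ((comp (gr S₁) v) ×ˢ P).image (fun q => s(q.1, q.2)) with hR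
  set Bx : Finset (Sym2 (Fin n)) → Set (Sym2 (Fin n) → ℝ) := fun S₁ =>
    {U | (∀ e ∈ S₁, U e ≤ p) ∧ (∀ e ∈ T, U e ≤ p') ∧ (∀ e ∈ R S₁, p < U e)} with hBx
  have hTE : ∀ e ∈ T, e ∉ E₁ := by
    intro e he he'
    obtain ⟨i, _, rfl⟩ := Finset.mem_image.1 he
    rw [hE1, mem_edg, Finset.mem_sdiff] at he'
    exact he'.1.2 (Finset.mem_image_of_mem _ (Finset.mem_univ _))
  have hcrossE : ∀ S₁ ⊆ E₁, ∀ e ∈ ((comp (gr S₁) v) ×ˢ P).image (fun q => s(q.1, q.2)),
      e ∉ E₁ ∧ e ∉ T := by
    intro S₁ hS₁ e he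
    obtain ⟨⟨a, b⟩, hab, rfl⟩ := Finset.mem_image.1 he
    rw [Finset.mem_product] at hab
    simp only at hab
    constructor
    · intro h
      rw [hE1, mem_edg, Finset.mem_sdiff, Finset.mem_sdiff] at h
      exact h.2.1.2 hab.2
    · intro h
      obtain ⟨i, _, hi⟩ := Finset.mem_image.1 h
      have ha := Finset.disjoint_left.1 (hCP S₁ hS₁) hab.1
      simp only at hi
      rw [Sym2.eq_iff] at hi
      rcases hi with ⟨h3, _⟩ | ⟨_, h3⟩
      · exact ha (h3 ▸ Finset.mem_image_of_mem _ (Finset.mem_univ _))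
      · exact ha (h3 ▸ Finset.mem_image_of_mem _ (Finset.mem_univ _))
  have hmeas : ∀ S₁ ∈ E₁.powerset.filter (fun S₁ => s ≤ (comp (gr S₁) v).card),
      env n (Bx S₁) ≤ ENNReal.ofReal (p ^ S₁.card * (1 - p) ^ (E₁ \ S₁).card *
        (p' ^ m * (1 - p) ^ (s * (m + 1)))) := by
    intro S₁ hS
    rw [Finset.mem_filter, Finset.mem_powerset] at hS
    obtain ⟨hS₁, hs⟩ := hS
    refine (env_box3 h0 h1 h0' h1' S₁ T (R S₁) ?_ ?_ ?_).trans ?_
    · rw [Finset.disjoint_right]
      exact fun e he he' => hTE e he (hS₁ he')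
    · rw [Finset.disjoint_left]
      intro e he he'
      rcases Finset.mem_union.1 he' with h2 | h2
      · exact (Finset.mem_sdiff.1 h2).2 he
      · exact (hcrossE S₁ hS₁ e h2).1 (hS₁ he)
    · rw [Finset.disjoint_left]
      intro e he he'
      rcases Finset.mem_union.1 he' with h2 | h2
      · exact hTE e he (Finset.mem_sdiff.1 h2).1
      · exact (hcrossE S₁ hS₁ e h2).2 he
    · apply ENNReal.ofReal_le_ofReal
      have c1 : T.card = m := card_path_edges x hx
      have c2 : (R S₁).card = (E₁ \ S₁).card + (comp (gr S₁) v).card * (m + 1) := by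
        rw [hR]
        simp only
        rw [Finset.card_union_of_disjoint, card_cross _ _ (hCP S₁ hS₁), hPc]
        rw [Finset.disjoint_right]
        intro e he he'
        exact (hcrossE S₁ hS₁ e he).1 (Finset.mem_sdiff.1 he').1
      rw [c1, c2, pow_add]
      have hq : 0 ≤ 1 - p := by linarith
      have hpow : (1 - p) ^ ((comp (gr S₁) v).card * (m + 1)) ≤ (1 - p) ^ (s * (m + 1)) :=
        pow_le_pow_of_le_one hq (by linarith) (Nat.mul_le_mul_right _ hs)
      calc p ^ S₁.card * p' ^ m * ((1 - p) ^ (E₁ \ S₁).card *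
            (1 - p) ^ ((comp (gr S₁) v).card * (m + 1)))
          ≤ p ^ S₁.card * p' ^ m * ((1 - p) ^ (E₁ \ S₁).card * (1 - p) ^ (s * (m + 1))) := by
            apply mul_le_mul_of_nonneg_left _ (by positivity)
            exact mul_le_mul_of_nonneg_left hpow (by positivity)
        _ = _ := by ring
  have hsub : {U | (∀ i : Fin m, U s(x i.castSucc, x i.succ) ≤ p') ∧
      (∀ i, ¬ (GU U p).Reachable v (x i)) ∧ s ≤ (comp (GU U p) v).card} ⊆
      ⋃ S₁ ∈ E₁.powerset.filter (fun S₁ => s ≤ (comp (gr S₁) v).card), Bx S₁ := by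
    rintro U ⟨hU1, hU2, hU3⟩
    rw [Set.mem_iUnion₂]
    set S₁ := E₁.filter (fun e => U e ≤ p) with hS1
    have hle : gr S₁ ≤ GU U p := by
      intro a b hab
      rw [SimpleGraph.fromEdgeSet_adj] at hab
      rw [GU_adj]
      have := hab.1
      rw [hS1] at this
      simp only [Finset.coe_filter, Set.mem_ofPred_eq] at this
      exact ⟨this.2, hab.2⟩
    have hKC : comp (GU U p) v ⊆ comp (gr S₁) v := by
      intro w hw
      rw [mem_comp] at hw ⊢
      rw [SimpleGraph.reachable_iff_reflTransGen] at hw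
      induction hw with
      | refl => exact SimpleGraph.Reachable.refl _
      | @tail b c hb hadj ih =>
        refine ih.trans (SimpleGraph.Adj.reachable ?_)
        have hb' : (GU U p).Reachable v b := by
          rw [SimpleGraph.reachable_iff_reflTransGen]; exact hb
        have hc' : (GU U p).Reachable v c := hb'.trans hadj.reachable
        have hnP : ∀ y, (GU U p).Reachable v y → y ∉ P := by
          intro y hy hyP
          obtain ⟨i, _, hi⟩ := Finset.mem_image.1 hyP
          exact hU2 i (hi ▸ hy)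
        rw [GU_adj] at hadj
        rw [SimpleGraph.fromEdgeSet_adj]
        refine ⟨?_, hadj.2⟩
        rw [hS1]
        simp only [Finset.coe_filter, Set.mem_ofPred_eq]
        refine ⟨?_, hadj.1⟩
        rw [hE1, mem_edg, Finset.mem_sdiff, Finset.mem_sdiff]
        exact ⟨⟨Finset.mem_univ _, hnP b hb'⟩, ⟨Finset.mem_univ _, hnP c hc'⟩, hadj.2⟩
    refine ⟨S₁, ?_, ?_, ?_, ?_⟩
    · rw [Finset.mem_filter, Finset.mem_powerset]
      exact ⟨Finset.filter_subset _ _, hU3.trans (Finset.card_le_card hKC)⟩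
    · intro e he
      exact (Finset.mem_filter.1 he).2
    · intro e he
      obtain ⟨i, _, rfl⟩ := Finset.mem_image.1 he
      exact hU1 i
    · intro e he
      rcases Finset.mem_union.1 he with h2 | h2
      · rw [Finset.mem_sdiff, hS1, Finset.mem_filter] at h2
        by_contra hcon
        push Not at hcon
        exact h2.2 ⟨h2.1, hcon⟩
      · obtain ⟨⟨a, b⟩, hab, rfl⟩ := Finset.mem_image.1 h2
        rw [Finset.mem_product] at hab
        simp only at hab ⊢
        by_contra hcon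
        push Not at hcon
        obtain ⟨i, _, hi⟩ := Finset.mem_image.1 hab.2
        have h3 : (GU U p).Reachable v a := (mem_comp.1 hab.1).mono hle
        have h4 : a ≠ b := by
          intro h
          exact Finset.disjoint_left.1 (hCP S₁ (Finset.filter_subset _ _)) hab.1 (h ▸ hab.2)
        have h5 : (GU U p).Adj a b := by rw [GU_adj]; exact ⟨hcon, h4⟩
        exact hU2 i (hi ▸ h3.trans h5.reachable)
  calc _ ≤ env n (⋃ S₁ ∈ E₁.powerset.filter (fun S₁ => s ≤ (comp (gr S₁) v).card), Bx S₁) :=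
        measure_mono hsub
    _ ≤ ∑ S₁ ∈ E₁.powerset.filter (fun S₁ => s ≤ (comp (gr S₁) v).card), env n (Bx S₁) :=
        measure_biUnion_finset_le _ _
    _ ≤ ∑ S₁ ∈ E₁.powerset.filter (fun S₁ => s ≤ (comp (gr S₁) v).card),
          ENNReal.ofReal (p ^ S₁.card * (1 - p) ^ (E₁ \ S₁).card *
          (p' ^ m * (1 - p) ^ (s * (m + 1)))) := Finset.sum_le_sum hmeas
    _ ≤ ∑ S₁ ∈ E₁.powerset,
          ENNReal.ofReal (p ^ S₁.card * (1 - p) ^ (E₁ \ S₁).card *
          (p' ^ m * (1 - p) ^ (s * (m + 1)))) :=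
        Finset.sum_le_sum_of_subset (Finset.filter_subset _ _)
    _ = ENNReal.ofReal (∑ S₁ ∈ E₁.powerset, (p ^ S₁.card * (1 - p) ^ (E₁ \ S₁).card *
          (p' ^ m * (1 - p) ^ (s * (m + 1))))) := by
        rw [ENNReal.ofReal_sum_of_nonneg]
        intro S _
        have : 0 ≤ 1 - p := by linarith
        positivity
    _ = ENNReal.ofReal (p' ^ m * (1 - p) ^ (s * (m + 1))) := by
        congr 1
        exact ex_const p E₁ _

/-- there is a simple path with `m + 1` vertices and all variables at most `p'` which avoids a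
component of size at least `s` of the graph at level `p` -/
def AvoidBad {n : ℕ} (m s : ℕ) (p p' : ℝ) (U : Sym2 (Fin n) → ℝ) : Prop :=
  ∃ v : Fin n, ∃ x : Fin (m + 1) → Fin n, Function.Injective x ∧
    (∀ i : Fin m, U s(x i.castSucc, x i.succ) ≤ p') ∧
      (∀ i, ¬ (GU U p).Reachable v (x i)) ∧ s ≤ (comp (GU U p) v).card

theorem avoid_le {n m s : ℕ} {p p' : ℝ} (h0 : 0 ≤ p) (h1 : p ≤ 1) (h0' : 0 ≤ p') (h1' : p' ≤ 1) :
    env n {U | AvoidBad m s p p' U} ≤
      ENNReal.ofReal ((n : ℝ) ^ (m + 2) * (p' ^ m * (1 - p) ^ (s * (m + 1)))) := by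
  classical
  have hsub : {U : Sym2 (Fin n) → ℝ | AvoidBad m s p p' U} ⊆
      ⋃ q ∈ (univ : Finset (Fin n × (Fin (m + 1) → Fin n))).filter
        (fun q => Function.Injective q.2),
        {U | (∀ i : Fin m, U s(q.2 i.castSucc, q.2 i.succ) ≤ p') ∧
      (∀ i, ¬ (GU U p).Reachable q.1 (q.2 i)) ∧ s ≤ (comp (GU U p) q.1).card} := by
    rintro U ⟨v, x, hx, h⟩
    rw [Set.mem_iUnion₂]
    exact ⟨(v, x), by simp [hx], h⟩
  have hq : 0 ≤ 1 - p := by linarith
  calc _ ≤ _ := measure_mono hsub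
    _ ≤ _ := measure_biUnion_finset_le _ _
    _ ≤ ∑ q ∈ (univ : Finset (Fin n × (Fin (m + 1) → Fin n))).filter
        (fun q => Function.Injective q.2), ENNReal.ofReal (p' ^ m * (1 - p) ^ (s * (m + 1))) := by
        apply Finset.sum_le_sum
        intro q hq
        exact avoid_one h0 h1 h0' h1' q.1 q.2 (Finset.mem_filter.1 hq).2
    _ ≤ ∑ q ∈ (univ : Finset (Fin n × (Fin (m + 1) → Fin n))),
          ENNReal.ofReal (p' ^ m * (1 - p) ^ (s * (m + 1))) :=
        Finset.sum_le_sum_of_subset (Finset.filter_subset _ _)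
    _ = ENNReal.ofReal (∑ q ∈ (univ : Finset (Fin n × (Fin (m + 1) → Fin n))),
          (p' ^ m * (1 - p) ^ (s * (m + 1)))) := by
        rw [ENNReal.ofReal_sum_of_nonneg]
        intro _ _
        positivity
    _ = _ := by
        congr 1
        rw [Finset.sum_const, Finset.card_univ, Fintype.card_prod, Fintype.card_fun,
          Fintype.card_fin, Fintype.card_fin, nsmul_eq_mul]
        push_cast
        ring

end Pool.Agent.W842.RST
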