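import Pool.Agent.W842.RST.Ex

/-!
# The van den Berg-Kesten inequality for increasing events, `p ≤ 1/2`
-/

set_option autoImplicit false

namespace Pool.Agent.W842.RST

open Finset

variable {α : Type*} [DecidableEq α]

/-- `A` and `B` occur on disjoint subsets -/
def dj (A B : Finset α → Prop) (S : Finset α) : Prop :=
  ∃ S₁ S₂, S₁ ⊆ S ∧ S₂ ⊆ S ∧ Disjoint S₁ S₂ ∧ A S₁ ∧ B S₂

def Inc (A : Finset α → Prop) : Prop := ∀ S T : Finset α, S ⊆ T → A S → A T

theorem Inc.insert {A : Finset α → Prop} (h : Inc A) (a : α) : Inc (fun S => A (insert a S)) :=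
  fun _ _ hST hS => h _ _ (Finset.insert_subset_insert a hST) hS

theorem pr_insert (p : ℝ) {a : α} {E : Finset α} (ha : a ∉ E) (A : Finset α → Prop) :
    pr p (insert a E) A = (1 - p) * pr p E A + p * pr p E (fun S => A (insert a S)) := by
  unfold pr
  rw [ex_insert p ha]

theorem bk {p : ℝ} (h0 : 0 ≤ p) (h2 : p ≤ 1 / 2) (E : Finset α) (A B : Finset α → Prop)
    (hA : Inc A) (hB : Inc B) : pr p E (dj A B) ≤ pr p E A * pr p E B := by
  classical
  have h1 : p ≤ 1 := by linarith
  induction E using Finset.induction_on generalizing A B with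
  | empty =>
    unfold pr
    rw [ex_empty, ex_empty, ex_empty]
    by_cases h : dj A B ∅
    · obtain ⟨S₁, S₂, hS₁, hS₂, _, hA1, hB1⟩ := h
      have e1 := Finset.subset_empty.1 hS₁
      have e2 := Finset.subset_empty.1 hS₂
      subst e1 e2
      rw [if_pos hA1, if_pos hB1]
      split_ifs <;> norm_num
    · rw [if_neg h]
      split_ifs <;> norm_num
  | insert a E ha ih =>
    rw [pr_insert p ha, pr_insert p ha, pr_insert p ha]
    set A' : Finset α → Prop := fun S => A (insert a S) with hA'
    set B' : Finset α → Prop := fun S => B (insert a S) with hB'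
    have iA' : Inc A' := hA.insert a
    have iB' : Inc B' := hB.insert a
    have key : pr p E (fun S => dj A B (insert a S)) ≤
        pr p E (dj A' B) + pr p E (dj A B') - pr p E (dj A B) := by
      unfold pr
      rw [← ex_add, ← ex_sub]
      apply ex_mono h0 h1
      intro S hS
      have haS : a ∉ S := fun h => ha (hS h)
      have c1 : dj A B (insert a S) → dj A' B S ∨ dj A B' S := by
        rintro ⟨S₁, S₂, hS₁, hS₂, hd, hA1, hB1⟩
        by_cases h : a ∈ S₁
        · left
          have h2 : a ∉ S₂ := Finset.disjoint_left.1 hd h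
          refine ⟨S₁.erase a, S₂, ?_, ?_, ?_, ?_, hB1⟩
          · intro x hx
            have := hS₁ (Finset.mem_of_mem_erase hx)
            rcases Finset.mem_insert.1 this with h3 | h3
            · exact absurd h3 (Finset.ne_of_mem_erase hx)
            · exact h3
          · intro x hx
            rcases Finset.mem_insert.1 (hS₂ hx) with h3 | h3
            · exact absurd (h3 ▸ hx) h2
            · exact h3
          · exact Finset.disjoint_of_subset_left (Finset.erase_subset _ _) hd
          · show A (insert a (S₁.erase a))
            rw [Finset.insert_erase h]; exact hA1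
        · right
          refine ⟨S₁, S₂.erase a, ?_, ?_, ?_, hA1, ?_⟩
          · intro x hx
            rcases Finset.mem_insert.1 (hS₁ hx) with h3 | h3
            · exact absurd (h3 ▸ hx) h
            · exact h3
          · intro x hx
            have := hS₂ (Finset.mem_of_mem_erase hx)
            rcases Finset.mem_insert.1 this with h3 | h3
            · exact absurd h3 (Finset.ne_of_mem_erase hx)
            · exact h3
          · exact Finset.disjoint_of_subset_right (Finset.erase_subset _ _) hd
          · show B (insert a (S₂.erase a))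
            apply hB S₂ _ _ hB1
            intro x hx
            by_cases hxa : x = a
            · subst hxa; exact Finset.mem_insert_self _ _
            · exact Finset.mem_insert_of_mem (Finset.mem_erase.2 ⟨hxa, hx⟩)
      have c2 : dj A B S → dj A' B S ∧ dj A B' S := by
        rintro ⟨S₁, S₂, hS₁, hS₂, hd, hA1, hB1⟩
        exact ⟨⟨S₁, S₂, hS₁, hS₂, hd, hA _ _ (Finset.subset_insert _ _) hA1, hB1⟩,
          ⟨S₁, S₂, hS₁, hS₂, hd, hA1, hB _ _ (Finset.subset_insert _ _) hB1⟩⟩
      by_cases h : dj A B S
      · obtain ⟨h3, h4⟩ := c2 h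
        rw [if_pos h, if_pos h3, if_pos h4]
        split_ifs <;> norm_num
      · rw [if_neg h]
        by_cases h5 : dj A B (insert a S)
        · rw [if_pos h5]
          rcases c1 h5 with h6 | h6
          · rw [if_pos h6]
            split_ifs <;> norm_num
          · rw [if_pos h6]
            split_ifs <;> norm_num
        · rw [if_neg h5]
          split_ifs <;> norm_num
    have i1 := ih A B hA hB
    have i2 := ih A' B iA' hB
    have i3 := ih A B' hA iB'
    have mA : pr p E A ≤ pr p E A' := pr_mono h0 h1 (fun S _ h => hA _ _ (Finset.subset_insert _ _) h)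
    have mB : pr p E B ≤ pr p E B' := pr_mono h0 h1 (fun S _ h => hB _ _ (Finset.subset_insert _ _) h)
    have a0 := pr_nonneg h0 h1 E A
    have b0 := pr_nonneg h0 h1 E B
    set x := pr p E (dj A B)
    set y := pr p E (dj A' B)
    set z := pr p E (dj A B')
    set w := pr p E (fun S => dj A B (insert a S))
    set A0 := pr p E A
    set A1 := pr p E A'
    set B0 := pr p E B
    set B1 := pr p E B'
    have e1 : (1 - p) * x + p * w ≤ (1 - 2 * p) * x + p * (y + z) := by nlinarith
    have e2 : (1 - 2 * p) * x + p * (y + z) ≤ (1 - 2 * p) * (A0 * B0) + p * (A1 * B0 + A0 * B1) := by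
      have : 0 ≤ 1 - 2 * p := by linarith
      nlinarith
    have e3 : 0 ≤ p ^ 2 * ((A1 - A0) * (B1 - B0)) :=
      mul_nonneg (sq_nonneg _) (mul_nonneg (by linarith) (by linarith))
    nlinarith

end Pool.Agent.W842.RST
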