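import Pool.Agent.W842.RST.Arm

/-!
# Long simple paths
-/

set_option autoImplicit false

namespace Pool.Agent.W842.RST

open Finset

variable {V : Type*} [DecidableEq V]

/-- the set of edges `S` has a simple path of length `K` -/
def LP (K : ℕ) (S : Finset (Sym2 V)) : Prop :=
  ∃ x : ℕ → V, Set.InjOn x (Set.Iic K) ∧ ∀ i < K, s(x i, x (i + 1)) ∈ S

theorem HP_of_path (h : ℕ) (x : ℕ → V) (W : Finset V) (S : Finset (Sym2 V))
    (hinj : Set.InjOn x (Set.Iic h)) (hW : ∀ i, 1 ≤ i → i ≤ h → x i ∈ W)
    (hS : ∀ i < h, s(x i, x (i + 1)) ∈ S) : HP h (x 0) W S := by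
  induction h generalizing x W with
  | zero => trivial
  | succ h ih =>
    refine ⟨x 1, hW 1 le_rfl (by omega), hS 0 (by omega), ?_⟩
    apply ih (fun i => x (i + 1))
    · intro a ha b hb hab
      simp only [Set.mem_Iic] at ha hb
      have := hinj (x₁ := a + 1) (x₂ := b + 1) (by simp only [Set.mem_Iic]; omega)
        (by simp only [Set.mem_Iic]; omega) hab
      omega
    · intro i hi hi'
      rw [Finset.mem_erase]
      refine ⟨?_, hW (i + 1) (by omega) (by omega)⟩
      intro he
      have := hinj (x₁ := i + 1) (x₂ := 1) (by simp only [Set.mem_Iic]; omega)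
        (by simp only [Set.mem_Iic]; omega) he
      omega
    · intro i hi
      exact hS (i + 1) (by omega)

theorem dj_of_path (K h j : ℕ) (x : ℕ → V) (S : Finset (Sym2 V)) (hj : h ≤ j) (hj' : j + h ≤ K)
    (hinj : Set.InjOn x (Set.Iic K)) (hS : ∀ i < K, s(x i, x (i + 1)) ∈ S) [Fintype V] :
    dj (HP h (x j) (univ.erase (x j))) (HP h (x j) (univ.erase (x j))) S := by
  have inj : ∀ a b, a ≤ K → b ≤ K → x a = x b → a = b := fun a b ha hb h => hinj ha hb h
  refine ⟨(Finset.Ico j (j + h)).image (fun i => s(x i, x (i + 1))),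
    (Finset.Ico (j - h) j).image (fun i => s(x i, x (i + 1))), ?_, ?_, ?_, ?_, ?_⟩
  · intro e he
    obtain ⟨i, hi, rfl⟩ := Finset.mem_image.1 he
    rw [Finset.mem_Ico] at hi
    exact hS i (by omega)
  · intro e he
    obtain ⟨i, hi, rfl⟩ := Finset.mem_image.1 he
    rw [Finset.mem_Ico] at hi
    exact hS i (by omega)
  · rw [Finset.disjoint_left]
    intro e he he'
    obtain ⟨a, ha, rfl⟩ := Finset.mem_image.1 he
    obtain ⟨b, hb, hab⟩ := Finset.mem_image.1 he'
    rw [Finset.mem_Ico] at ha hb
    rw [Sym2.eq_iff] at hab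
    rcases hab with ⟨h1, h2⟩ | ⟨h1, h2⟩
    · have := inj b a (by omega) (by omega) h1
      omega
    · have e1 := inj b (a + 1) (by omega) (by omega) h1
      omega
  · apply HP_of_path h (fun i => x (j + i))
    · intro a ha b hb hab
      simp only [Set.mem_Iic] at ha hb
      have := inj (j + a) (j + b) (by omega) (by omega) hab
      omega
    · intro i hi hi'
      rw [Finset.mem_erase]
      refine ⟨fun he => ?_, Finset.mem_univ _⟩
      have := inj (j + i) j (by omega) (by omega) he
      omega
    · intro i hi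
      apply Finset.mem_image.2
      exact ⟨j + i, by rw [Finset.mem_Ico]; omega, rfl⟩
  · apply HP_of_path h (fun i => x (j - i))
    · intro a ha b hb hab
      simp only [Set.mem_Iic] at ha hb
      have := inj (j - a) (j - b) (by omega) (by omega) hab
      omega
    · intro i hi hi'
      rw [Finset.mem_erase]
      refine ⟨fun he => ?_, Finset.mem_univ _⟩
      have := inj (j - i) j (by omega) (by omega) he
      omega
    · intro i hi
      apply Finset.mem_image.2
      refine ⟨j - (i + 1), by rw [Finset.mem_Ico]; omega, ?_⟩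
      have : j - (i + 1) + 1 = j - i := by omega
      simp only [this]
      rw [Sym2.eq_swap]

theorem LP_bound [Fintype V] {p : ℝ} (h0 : 0 ≤ p) (h2 : p ≤ 1 / 2) (K h : ℕ) (hK : 2 * h ≤ K) :
    ((K : ℝ) + 1 - 2 * h) * pr p (edg (univ : Finset V)) (LP K) ≤
      Fintype.card V * Qb (Fintype.card V * (-Real.log (1 - p))) h ^ 2 := by
  classical
  have h1 : p ≤ 1 := by linarith
  have key := pr_le_sum h0 h1 (E := edg (univ : Finset V)) (univ : Finset V) (LP K)
    (fun v => dj (HP h v (univ.erase v)) (HP h v (univ.erase v))) ((K : ℝ) + 1 - 2 * h) ?_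
  · refine key.trans ?_
    calc ∑ v : V, pr p (edg univ) (dj (HP h v (univ.erase v)) (HP h v (univ.erase v)))
        ≤ ∑ v : V, Qb (Fintype.card V * (-Real.log (1 - p))) h ^ 2 := by
          apply Finset.sum_le_sum
          intro v _
          refine (bk h0 h2 _ _ _ (HP_inc h v _) (HP_inc h v _)).trans ?_
          have e1 := HP_bound h0 (by linarith : p < 1) (Fintype.card V) h v (univ.erase v)
            (Finset.notMem_erase _ _) (Finset.card_le_card (Finset.subset_univ _))
          rw [Finset.insert_erase (Finset.mem_univ v)] at e1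
          have e2 := pr_nonneg h0 h1 (edg (univ : Finset V)) (HP h v (univ.erase v))
          rw [sq]
          exact mul_le_mul e1 e1 e2 (e2.trans e1)
      _ = _ := by rw [Finset.sum_const, nsmul_eq_mul, Finset.card_univ]
  · rintro S - ⟨x, hinj, hS⟩
    have e1 : ((Finset.Icc h (K - h)).image x) ⊆
        (univ.filter (fun v => dj (HP h v (univ.erase v)) (HP h v (univ.erase v)) S)) := by
      intro v hv
      obtain ⟨j, hj, rfl⟩ := Finset.mem_image.1 hv
      rw [Finset.mem_Icc] at hj
      rw [Finset.mem_filter]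
      exact ⟨Finset.mem_univ _, dj_of_path K h j x S hj.1 (by omega) hinj hS⟩
    have e2 : ((Finset.Icc h (K - h)).image x).card = K + 1 - 2 * h := by
      rw [Finset.card_image_of_injOn]
      · rw [Nat.card_Icc]; omega
      · intro a ha b hb hab
        rw [Finset.coe_Icc, Set.mem_Icc] at ha hb
        exact hinj (by simp only [Set.mem_Iic]; omega) (by simp only [Set.mem_Iic]; omega) hab
    have e3 := Finset.card_le_card e1
    rw [e2] at e3
    have e4 : ((K : ℝ) + 1 - 2 * h) = ((K + 1 - 2 * h : ℕ) : ℝ) := by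
      rw [Nat.cast_sub (by omega)]; push_cast; ring
    rw [e4]
    exact_mod_cast e3

end Pool.Agent.W842.RST
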