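import Pool.Agent.W842.RST.Avoid

/-!
# The number of pairs of vertices joined by a short path
-/

set_option autoImplicit false

namespace Pool.Agent.W842.RST

open MeasureTheory Finset

/-- a simple path of length `j` -/
def IsX {n : ℕ} (S : Finset (Sym2 (Fin n))) (j : ℕ) (x : Fin (j + 1) → Fin n) : Prop :=
  ∀ i : Fin j, s(x i.castSucc, x i.succ) ∈ S

theorem pr_superset {α : Type*} [DecidableEq α] (p : ℝ) (E T : Finset α) (hT : T ⊆ E) :
    pr p E (fun S => T ⊆ S) = p ^ T.card := by
  classical
  have h1 : E = T ∪ (E \ T) := by rw [Finset.union_sdiff_of_subset hT]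
  have h2 : pr p (T ∪ (E \ T)) (fun S => T ⊆ S) = pr p T (fun S => T ⊆ S) := by
    apply pr_union_left p Finset.disjoint_sdiff
    intro S₁ hS₁ S₂ hS₂
    constructor
    · intro h x hx
      rcases Finset.mem_union.1 (h hx) with h3 | h3
      · exact h3
      · exact absurd hx (Finset.mem_sdiff.1 (hS₂ h3)).2
    · intro h
      exact h.trans Finset.subset_union_left
  rw [h1, h2]
  unfold pr ex
  rw [Finset.sum_eq_single T]
  · simp
  · intro S hS hne
    have : ¬ T ⊆ S := fun h => hne (Finset.Subset.antisymm (Finset.mem_powerset.1 hS) h)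
    simp [this]
  · intro h
    exact absurd (Finset.mem_powerset.2 (Finset.Subset.refl _)) h

theorem pr_IsX {n : ℕ} (p : ℝ) (j : ℕ) (x : Fin (j + 1) → Fin n) (hx : Function.Injective x) :
    pr p (edg (univ : Finset (Fin n))) (fun S => IsX S j x) = p ^ j := by
  classical
  have h1 : pr p (edg (univ : Finset (Fin n))) (fun S => IsX S j x) =
      pr p (edg (univ : Finset (Fin n))) (fun S =>
        (univ : Finset (Fin j)).image (fun i => s(x i.castSucc, x i.succ)) ⊆ S) := by
    apply pr_congr
    intro S _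
    unfold IsX
    rw [Finset.image_subset_iff]
    simp
  rw [h1, pr_superset, card_path_edges x hx]
  intro e he
  obtain ⟨i, _, rfl⟩ := Finset.mem_image.1 he
  rw [mem_edg]
  refine ⟨Finset.mem_univ _, Finset.mem_univ _, ?_⟩
  intro h
  have := congrArg Fin.val (hx h)
  simp at this

/-- ordered pairs joined by a walk of length at most `l` -/
noncomputable def shortPairs {n : ℕ} (G : SimpleGraph (Fin n)) (l : ℕ) :
    Finset (Fin n × Fin n) :=
  open Classical in univ.filter (fun q => ∃ w : G.Walk q.1 q.2, w.length ≤ l)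

theorem exists_IsX {n : ℕ} (S : Finset (Sym2 (Fin n))) {u v : Fin n} (l : ℕ)
    (h : ∃ w : (gr S).Walk u v, w.length ≤ l) :
    ∃ j : ℕ, j ≤ l ∧ ∃ x : Fin (j + 1) → Fin n, Function.Injective x ∧ IsX S j x ∧ x 0 = u ∧
      x (Fin.last j) = v := by
  classical
  obtain ⟨w, hw⟩ := h
  set q := w.bypass with hq
  have hp : q.IsPath := w.bypass_isPath
  refine ⟨q.length, (w.length_bypass_le_length).trans hw, fun i => q.getVert i, ?_, ?_, ?_, ?_⟩
  · intro a b hab
    have := hp.getVert_injOn (x₁ := a.val) (x₂ := b.val) (by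
      simp only [Set.mem_ofPred_eq]; omega) (by simp only [Set.mem_ofPred_eq]; omega) hab
    exact Fin.ext this
  · intro i
    have := q.adj_getVert_succ (i := i.val) i.isLt
    rw [SimpleGraph.fromEdgeSet_adj] at this
    simp only [Fin.val_castSucc, Fin.val_succ]
    exact_mod_cast this.1
  · simp
  · simp

theorem short_le {n : ℕ} {p : ℝ} (h0 : 0 ≤ p) (h1 : p ≤ 1) (l : ℕ) (M : ℝ) :
    M * pr p (edg (univ : Finset (Fin n)))
      (fun S => M ≤ ((shortPairs (gr S) l).card : ℝ)) ≤
      ∑ j ∈ range (l + 1), (n : ℝ) ^ (j + 1) * p ^ j := by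
  classical
  set I : Finset (Σ j : Fin (l + 1), (Fin ((j : ℕ) + 1) → Fin n)) :=
    univ.filter (fun q => Function.Injective q.2) with hI
  have key := pr_le_sum h0 h1 (E := edg (univ : Finset (Fin n))) I
    (fun S => M ≤ ((shortPairs (gr S) l).card : ℝ)) (fun q S => IsX S q.1 q.2) M ?_
  · refine key.trans ?_
    calc ∑ q ∈ I, pr p (edg univ) (fun S => IsX S q.1 q.2) = ∑ q ∈ I, p ^ (q.1 : ℕ) := by
          apply Finset.sum_congr rfl
          intro q hq
          rw [hI, Finset.mem_filter] at hq
          exact pr_IsX p q.1 q.2 hq.2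
      _ ≤ ∑ q : (Σ j : Fin (l + 1), (Fin ((j : ℕ) + 1) → Fin n)), p ^ (q.1 : ℕ) := by
          apply Finset.sum_le_sum_of_subset_of_nonneg (Finset.filter_subset _ _)
          intro _ _ _
          positivity
      _ = ∑ j : Fin (l + 1), (n : ℝ) ^ ((j : ℕ) + 1) * p ^ (j : ℕ) := by
          rw [Fintype.sum_sigma]
          apply Finset.sum_congr rfl
          intro j _
          simp only
          rw [Finset.sum_const, Finset.card_univ, Fintype.card_fun, Fintype.card_fin,
            Fintype.card_fin, nsmul_eq_mul]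
          push_cast
          ring
      _ = _ := by
          rw [Finset.sum_range (fun j => (n : ℝ) ^ (j + 1) * p ^ j)]
  · intro S _ hM
    refine hM.trans ?_
    norm_cast
    -- injection
    have hch : ∀ q ∈ shortPairs (gr S) l, ∃ i : (Σ j : Fin (l + 1), (Fin ((j : ℕ) + 1) → Fin n)),
        i ∈ I.filter (fun q => IsX S q.1 q.2) ∧ i.2 0 = q.1 ∧ i.2 (Fin.last _) = q.2 := by
      intro q hq
      unfold shortPairs at hq
      rw [Finset.mem_filter] at hq
      obtain ⟨j, hj, x, hx, hX, h3, h4⟩ := exists_IsX S l hq.2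
      refine ⟨⟨⟨j, by omega⟩, x⟩, ?_, h3, h4⟩
      rw [Finset.mem_filter, hI, Finset.mem_filter]
      exact ⟨⟨Finset.mem_univ _, hx⟩, hX⟩
    rcases (shortPairs (gr S) l).eq_empty_or_nonempty with he | ⟨q0, hq0⟩
    · rw [he]; simp
    obtain ⟨i0, _⟩ := hch q0 hq0
    haveI : Nonempty (Σ j : Fin (l + 1), (Fin ((j : ℕ) + 1) → Fin n)) := ⟨i0⟩
    choose! f hf using hch
    apply Finset.card_le_card_of_injOn f
    · intro q hq
      exact (hf q hq).1
    · intro q hq q' hq' hqq
      have a := hf q hq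
      have b := hf q' hq'
      rw [hqq] at a
      exact Prod.ext (a.2.1.symm.trans b.2.1) (a.2.2.symm.trans b.2.2)

end Pool.Agent.W842.RST
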