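import Pool.Agent.W842.RST.Thermal
import Pool.Agent.W842.RST.LongPath
import Pool.Agent.W842.RST.Short

/-!
# Deterministic part: distances in the tree from level to level
-/

set_option autoImplicit false

namespace Pool.Agent.W842.RST

open Finset

variable {n : ℕ} {U : Sym2 (Fin n) → ℝ}

/-- a path in the graph at level `p'` either reaches the component `K` quickly or is short -/
theorem prefix_short {p p' : ℝ} {m s : ℕ} (T : SimpleGraph (Fin n))
    (hav : ¬ AvoidBad m s p p' U) (v : Fin n) (hv : s ≤ (comp (GU U p) v).card)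
    {x y : Fin n} (w : (T ⊓ GU U p').Walk x y) (hw : w.IsPath) :
    (∃ k, (GU U p).Reachable v k ∧ T.dist x k ≤ m) ∨
      ((∀ i ≤ w.length, ¬ (GU U p).Reachable v (w.getVert i)) ∧ w.length < m) := by
  classical
  have key : ∀ j, j ≤ w.length → m ≤ j → (∀ i ≤ m, ¬ (GU U p).Reachable v (w.getVert i)) →
      False := by
    intro j hj hmj hi
    apply hav
    refine ⟨v, fun i => w.getVert i, ?_, ?_, ?_, hv⟩
    · intro a b hab
      have := hw.getVert_injOn (x₁ := a.val) (x₂ := b.val) (by
        simp only [Set.mem_ofPred_eq]; omega) (by simp only [Set.mem_ofPred_eq]; omega) hab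
      exact Fin.ext this
    · intro i
      have := w.adj_getVert_succ (i := i.val) (by omega)
      rw [SimpleGraph.inf_adj, GU_adj] at this
      simp only [Fin.val_castSucc, Fin.val_succ]
      exact this.2.1
    · intro i
      exact hi i (by omega)
  by_cases hex : ∃ i, i ≤ w.length ∧ (GU U p).Reachable v (w.getVert i)
  · left
    have hmin := Nat.find_spec hex
    set i0 := Nat.find hex with hi0
    have hlt : ∀ i < i0, ¬ (GU U p).Reachable v (w.getVert i) := by
      intro i hi h
      exact Nat.find_min hex hi ⟨by omega, h⟩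
    have hi0m : i0 ≤ m := by
      by_contra hcon
      push Not at hcon
      exact key i0 hmin.1 (by omega) (fun i hi => hlt i (by omega))
    refine ⟨w.getVert i0, hmin.2, ?_⟩
    have h1 : T.dist x (w.getVert i0) ≤ ((w.take i0).mapLe (inf_le_left : T ⊓ GU U p' ≤ T)).length :=
      SimpleGraph.dist_le _
    rw [SimpleGraph.Walk.length_map, SimpleGraph.Walk.take_length] at h1
    exact h1.trans ((min_le_left _ _).trans hi0m)
  · right
    push Not at hex
    refine ⟨hex, ?_⟩
    by_contra hcon
    push Not at hcon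
    exact key w.length le_rfl hcon (fun i hi => hex i (by omega))

theorem step {p₀ p₁ p₁' : ℝ} {m s D : ℕ} (T : SimpleGraph (Fin n)) (hT : T.IsTree)
    (hgood : Good U p₁ p₁' T) (hav : ¬ AvoidBad m s p₀ p₁' U)
    (hv : ∃ v, s ≤ (comp (GU U p₀) v).card)
    (hD : ∀ x y, (GU U p₀).Reachable x y → T.dist x y ≤ D) :
    ∀ x y, (GU U p₁).Reachable x y → T.dist x y ≤ D + 2 * m := by
  classical
  obtain ⟨v, hv⟩ := hv
  intro x y hxy
  obtain ⟨w, hw⟩ := (hgood x y hxy).exists_isPath
  have h1 := prefix_short T hav v hv w hw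
  have h2 := prefix_short T hav v hv w.reverse hw.reverse
  have hshort : w.length < m → T.dist x y ≤ D + 2 * m := by
    intro h
    have h3 : T.dist x y ≤ (w.mapLe (inf_le_left : T ⊓ GU U p₁' ≤ T)).length :=
      SimpleGraph.dist_le _
    rw [SimpleGraph.Walk.length_map] at h3
    omega
  rcases h1 with ⟨k, hk, hk'⟩ | ⟨_, h⟩
  · rcases h2 with ⟨l, hl, hl'⟩ | ⟨_, h⟩
    · have h3 := hD k l (hk.symm.trans hl)
      have h4 : T.dist x y ≤ T.dist x k + T.dist k y := hT.connected.dist_triangle
      have h5 : T.dist k y ≤ T.dist k l + T.dist l y := hT.connected.dist_triangle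
      have h6 : T.dist l y = T.dist y l := SimpleGraph.dist_comm
      omega
    · rw [SimpleGraph.Walk.length_reverse] at h
      exact hshort h
  · exact hshort h

theorem base {p₀ p₀' : ℝ} {K : ℕ} (T : SimpleGraph (Fin n))
    (hgood : Good U p₀ p₀' T)
    (hLP : ¬ LP K (open Classical in (edg (univ : Finset (Fin n))).filter (fun e => U e ≤ p₀'))) :
    ∀ x y, (GU U p₀).Reachable x y → T.dist x y ≤ K := by
  classical
  intro x y hxy
  obtain ⟨w, hw⟩ := (hgood x y hxy).exists_isPath
  have h3 : T.dist x y ≤ (w.mapLe (inf_le_left : T ⊓ GU U p₀' ≤ T)).length :=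
    SimpleGraph.dist_le _
  rw [SimpleGraph.Walk.length_map] at h3
  by_contra hcon
  push Not at hcon
  apply hLP
  refine ⟨fun i => w.getVert i, ?_, ?_⟩
  · intro a ha b hb hab
    simp only [Set.mem_Iic] at ha hb
    exact hw.getVert_injOn (x₁ := a) (x₂ := b) (by
      simp only [Set.mem_ofPred_eq]; omega) (by simp only [Set.mem_ofPred_eq]; omega) hab
  · intro i hi
    have := w.adj_getVert_succ (i := i) (by omega)
    rw [SimpleGraph.inf_adj, GU_adj] at this
    rw [Finset.mem_filter, mem_edg]
    exact ⟨⟨Finset.mem_univ _, Finset.mem_univ _, this.2.2⟩, this.2.1⟩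

theorem diam_le_of {p : ℝ} {D : ℕ} (T : SimpleGraph (Fin n)) [Nonempty (Fin n)]
    (hc : (GU U p).Preconnected) (hD : ∀ x y, (GU U p).Reachable x y → T.dist x y ≤ D) :
    T.diam ≤ D := by
  obtain ⟨u, v, huv⟩ := T.exists_dist_eq_diam
  rw [← huv]
  exact hD u v (hc u v)

/-- lower bound for the diameter -/
theorem diam_lower {p₀ p₀' : ℝ} {s l : ℕ} (T : SimpleGraph (Fin n)) [Nonempty (Fin n)]
    (hT : T.IsTree) (hgood : Good U p₀ p₀' T) (v : Fin n) (hv : s ≤ (comp (GU U p₀) v).card)
    (hsh : (shortPairs (GU U p₀') l).card < s ^ 2) : l < T.diam := by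
  classical
  by_contra hcon
  push Not at hcon
  have hne : T.ediam ≠ ⊤ := SimpleGraph.connected_iff_ediam_ne_top.1 hT.connected
  have hsub : (comp (GU U p₀) v) ×ˢ (comp (GU U p₀) v) ⊆ shortPairs (GU U p₀') l := by
    rintro ⟨x, y⟩ hxy
    rw [Finset.mem_product, mem_comp, mem_comp] at hxy
    unfold shortPairs
    rw [Finset.mem_filter]
    refine ⟨Finset.mem_univ _, ?_⟩
    obtain ⟨w, hw⟩ := (hgood x y (hxy.1.symm.trans hxy.2)).exists_isPath
    refine ⟨w.mapLe (inf_le_right : T ⊓ GU U p₀' ≤ GU U p₀'), ?_⟩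
    rw [SimpleGraph.Walk.length_map]
    have h1 : T.dist x y ≤ T.diam := SimpleGraph.dist_le_diam hne
    obtain ⟨q, hq⟩ := hT.connected.exists_walk_length_eq_dist x y
    have hqp : q.IsPath := q.isPath_of_length_eq_dist hq
    have hwp : (w.mapLe (inf_le_left : T ⊓ GU U p₀' ≤ T)).IsPath := hw.mapLe _
    have huniq := (hT.existsUnique_path x y).unique hwp hqp
    have : (w.mapLe (inf_le_left : T ⊓ GU U p₀' ≤ T)).length = q.length := by rw [huniq]
    rw [SimpleGraph.Walk.length_map] at this
    omega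
  have h2 := Finset.card_le_card hsub
  rw [Finset.card_product] at h2
  have h3 : s * s ≤ (comp (GU U p₀) v).card * (comp (GU U p₀) v).card := Nat.mul_le_mul hv hv
  have h4 : s ^ 2 = s * s := sq s
  omega

end Pool.Agent.W842.RST
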