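import Pool.Agent.W842.RST.Avoid

/-!
# Connectivity
-/

set_option autoImplicit false

namespace Pool.Agent.W842.RST

open MeasureTheory Finset

theorem conn_le {n : ℕ} {p : ℝ} (h0 : 0 ≤ p) (h1 : p ≤ 1) :
    env n {U | ¬ (GU U p).Preconnected} ≤
      ENNReal.ofReal (Real.exp (n * (1 - p) ^ ((n + 1) / 2)) - 1) := by
  classical
  have hq : 0 ≤ 1 - p := by linarith
  set c : ℝ := (1 - p) ^ ((n + 1) / 2) with hc
  have hc0 : 0 ≤ c := by positivity
  set R : Finset (Fin n) → Finset (Sym2 (Fin n)) := fun A =>
    (A ×ˢ (univ \ A)).image (fun q => s(q.1, q.2)) with hR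
  have hsub : {U : Sym2 (Fin n) → ℝ | ¬ (GU U p).Preconnected} ⊆
      ⋃ A ∈ (univ : Finset (Finset (Fin n))).filter (fun A => A.Nonempty ∧ 2 * A.card ≤ n),
        {U | (∀ e ∈ (∅ : Finset (Sym2 (Fin n))), U e ≤ p) ∧
          (∀ e ∈ (∅ : Finset (Sym2 (Fin n))), U e ≤ p) ∧ (∀ e ∈ R A, p < U e)} := by
    intro U hU
    simp only [Set.mem_ofPred_eq] at hU
    unfold SimpleGraph.Preconnected at hU
    push Not at hU
    obtain ⟨u, v, huv⟩ := hU
    rw [Set.mem_iUnion₂]
    have hcross : ∀ a b, a ∈ comp (GU U p) u → b ∉ comp (GU U p) u → p < U s(a, b) := by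
      intro a b ha hb
      by_contra hcon
      push Not at hcon
      rw [mem_comp] at ha hb
      apply hb
      have : (GU U p).Adj a b := by
        rw [GU_adj]
        exact ⟨hcon, fun h => hb (h ▸ ha)⟩
      exact ha.trans this.reachable
    by_cases h2 : 2 * (comp (GU U p) u).card ≤ n
    · refine ⟨comp (GU U p) u, ?_, ?_, ?_, ?_⟩
      · simp only [Finset.mem_filter, Finset.mem_univ, true_and]
        exact ⟨⟨u, by rw [mem_comp]⟩, h2⟩
      · simp
      · simp
      · intro e he
        obtain ⟨⟨a, b⟩, hab, rfl⟩ := Finset.mem_image.1 he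
        rw [Finset.mem_product, Finset.mem_sdiff] at hab
        exact hcross a b hab.1 hab.2.2
    · refine ⟨univ \ comp (GU U p) u, ?_, ?_, ?_, ?_⟩
      · simp only [Finset.mem_filter, Finset.mem_univ, true_and]
        refine ⟨⟨v, ?_⟩, ?_⟩
        · rw [Finset.mem_sdiff, mem_comp]
          exact ⟨Finset.mem_univ _, huv⟩
        · rw [Finset.card_sdiff_of_subset (Finset.subset_univ _), Finset.card_univ,
            Fintype.card_fin]
          omega
      · simp
      · simp
      · intro e he
        obtain ⟨⟨a, b⟩, hab, rfl⟩ := Finset.mem_image.1 he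
        simp only [Finset.mem_product, Finset.mem_sdiff, Finset.mem_univ, true_and, not_not] at hab
        simp only
        rw [Sym2.eq_swap]
        exact hcross b a hab.2 hab.1
  calc _ ≤ _ := measure_mono hsub
    _ ≤ _ := measure_biUnion_finset_le _ _
    _ ≤ ∑ A ∈ (univ : Finset (Finset (Fin n))).filter (fun A => A.Nonempty ∧ 2 * A.card ≤ n),
          ENNReal.ofReal (c ^ A.card) := by
        apply Finset.sum_le_sum
        intro A hA
        simp only [Finset.mem_filter, Finset.mem_univ, true_and] at hA
        refine (env_box3 h0 h1 h0 h1 ∅ ∅ (R A) (by simp) (by simp) (by simp)).trans ?_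
        apply ENNReal.ofReal_le_ofReal
        rw [Finset.card_empty, pow_zero, one_mul, one_mul, hR]
        simp only
        rw [card_cross _ _ Finset.disjoint_sdiff, Finset.card_sdiff_of_subset (Finset.subset_univ _),
          Finset.card_univ, Fintype.card_fin, hc, ← pow_mul]
        apply pow_le_pow_of_le_one hq (by linarith)
        rw [mul_comm]
        apply Nat.mul_le_mul_left
        omega
    _ = ENNReal.ofReal (∑ A ∈ (univ : Finset (Finset (Fin n))).filter
          (fun A => A.Nonempty ∧ 2 * A.card ≤ n), c ^ A.card) := by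
        rw [ENNReal.ofReal_sum_of_nonneg]
        intro _ _
        positivity
    _ ≤ _ := by
        apply ENNReal.ofReal_le_ofReal
        have h3 : ∑ A ∈ (univ : Finset (Finset (Fin n))).filter
          (fun A => A.Nonempty ∧ 2 * A.card ≤ n), c ^ A.card ≤
          ∑ A ∈ (univ : Finset (Finset (Fin n))).erase ∅, c ^ A.card := by
          apply Finset.sum_le_sum_of_subset_of_nonneg
          · intro A hA
            simp only [Finset.mem_filter, Finset.mem_univ, true_and] at hA
            rw [Finset.mem_erase]
            exact ⟨Finset.nonempty_iff_ne_empty.1 hA.1, Finset.mem_univ _⟩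
          · intro _ _ _
            positivity
        refine h3.trans ?_
        have h4 : ∑ A ∈ (univ : Finset (Finset (Fin n))), c ^ A.card = (c + 1) ^ n := by
          have := Finset.sum_pow_mul_eq_add_pow c 1 (univ : Finset (Fin n))
          simp only [one_pow, mul_one, Finset.powerset_univ, Finset.card_univ,
            Fintype.card_fin] at this
          exact this
        have h5 := Finset.sum_erase_add (univ : Finset (Finset (Fin n))) (fun A => c ^ A.card)
          (Finset.mem_univ ∅)
        rw [h4] at h5
        simp only [Finset.card_empty, pow_zero] at h5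
        have h6 : (c + 1) ^ n ≤ Real.exp (n * c) := by
          rw [Real.exp_nat_mul]
          exact pow_le_pow_left₀ (by linarith) (Real.add_one_le_exp c) n
        linarith

end Pool.Agent.W842.RST
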