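import Pool.Agent.W842.RST.BK

/-!
# Sets of edges
-/

set_option autoImplicit false

namespace Pool.Agent.W842.RST

open Finset

variable {V : Type*} [DecidableEq V]

/-- the edges inside `W` -/
def edg (W : Finset V) : Finset (Sym2 V) := W.sym2.filter (fun e => ¬ e.IsDiag)

/-- the edges from `v` to `Z` -/
def star (v : V) (Z : Finset V) : Finset (Sym2 V) := Z.image (fun u => s(v, u))

theorem mem_edg {W : Finset V} {a b : V} : s(a, b) ∈ edg W ↔ a ∈ W ∧ b ∈ W ∧ a ≠ b := by
  unfold edg
  rw [Finset.mem_filter, Finset.mk_mem_sym2_iff, Sym2.mk_isDiag_iff]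
  tauto

theorem mem_star {v a : V} {Z : Finset V} : s(v, a) ∈ star v Z ↔ a ∈ Z := by
  unfold star
  rw [Finset.mem_image]
  constructor
  · rintro ⟨u, hu, h⟩
    rw [Sym2.congr_right] at h
    exact h ▸ hu
  · intro h
    exact ⟨a, h, rfl⟩

theorem edg_mono {W W' : Finset V} (h : W ⊆ W') : edg W ⊆ edg W' := by
  intro e
  induction e using Sym2.ind with
  | _ a b =>
    rw [mem_edg, mem_edg]
    rintro ⟨h1, h2, h3⟩
    exact ⟨h h1, h h2, h3⟩

theorem edg_insert {v : V} {W : Finset V} (hv : v ∉ W) :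
    edg (insert v W) = edg W ∪ star v W := by
  ext e
  induction e using Sym2.ind with
  | _ a b =>
    rw [Finset.mem_union, mem_edg, mem_edg]
    unfold star
    rw [Finset.mem_image]
    simp only [Finset.mem_insert]
    constructor
    · rintro ⟨h1 | h1, h2 | h2, h3⟩
      · exact absurd (h1.trans h2.symm) h3
      · right; exact ⟨b, h2, by rw [h1]⟩
      · right; exact ⟨a, h1, by rw [h2, Sym2.eq_swap]⟩
      · left; exact ⟨h1, h2, h3⟩
    · rintro (⟨h1, h2, h3⟩ | ⟨u, hu, h⟩)
      · exact ⟨Or.inr h1, Or.inr h2, h3⟩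
      · rw [Sym2.eq_iff] at h
        rcases h with ⟨h1, h2⟩ | ⟨h1, h2⟩
        · subst h1 h2
          exact ⟨Or.inl rfl, Or.inr hu, fun h => hv (h ▸ hu)⟩
        · subst h1 h2
          exact ⟨Or.inr hu, Or.inl rfl, fun h => hv (h ▸ hu)⟩

theorem disjoint_edg_star {v : V} {W Z : Finset V} (hv : v ∉ W) : Disjoint (edg W) (star v Z) := by
  rw [Finset.disjoint_left]
  intro e he he'
  unfold star at he'
  rw [Finset.mem_image] at he'
  obtain ⟨u, _, rfl⟩ := he'
  rw [mem_edg] at he
  exact hv he.1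

theorem star_inj (v : V) : Function.Injective (fun u : V => s(v, u)) := by
  intro a b h
  exact Sym2.congr_right.1 h

theorem star_union (v : V) (Z Z' : Finset V) : star v (Z ∪ Z') = star v Z ∪ star v Z' := by
  unfold star
  rw [Finset.image_union]

theorem disjoint_star {v : V} {Z Z' : Finset V} (h : Disjoint Z Z') :
    Disjoint (star v Z) (star v Z') := by
  unfold star
  exact (Finset.disjoint_image (star_inj v)).2 h

theorem pr_star (p : ℝ) (v : V) (Z : Finset V) (A : Finset (Sym2 V) → Prop) :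
    pr p (star v Z) A = pr p Z (fun N => A (star v N)) := by
  unfold pr star
  rw [ex_image p Z _ ((star_inj v).injOn)]

theorem ex_star (p : ℝ) (v : V) (Z : Finset V) (f : Finset (Sym2 V) → ℝ) :
    ex p (star v Z) f = ex p Z (fun N => f (star v N)) := by
  unfold star
  rw [ex_image p Z _ ((star_inj v).injOn)]

/-- if the event depends only on `E₁` the other edges do not matter -/
theorem pr_union_left {α : Type*} [DecidableEq α] (p : ℝ) {E₁ E₂ : Finset α}
    (hd : Disjoint E₁ E₂) (A : Finset α → Prop)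
    (h : ∀ S₁ ⊆ E₁, ∀ S₂ ⊆ E₂, (A (S₁ ∪ S₂) ↔ A S₁)) : pr p (E₁ ∪ E₂) A = pr p E₁ A := by
  rw [pr_union p hd]
  unfold pr
  apply ex_congr
  intro S₁ h1
  have h2 : ex p E₂ (fun S => open Classical in if A (S₁ ∪ S) then (1:ℝ) else 0) =
      ex p E₂ (fun _ => open Classical in if A S₁ then (1:ℝ) else 0) := by
    apply ex_congr
    intro S₂ h2
    by_cases hA : A S₁
    · rw [if_pos hA, if_pos ((h S₁ h1 S₂ h2).2 hA)]
    · rw [if_neg hA, if_neg (fun h' => hA ((h S₁ h1 S₂ h2).1 h'))]
  rw [h2, ex_const]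

end Pool.Agent.W842.RST
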