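import Pool.Agent.W842.RST.Ex
import Pool.Agent.W842.RST.Defs

/-!
# The environment
-/

set_option autoImplicit false

namespace Pool.Agent.W842.RST

open MeasureTheory Finset

noncomputable section

/-- the uniform law on `[0,1]` -/
def nu : Measure ℝ := (volume : Measure ℝ).restrict (Set.Icc 0 1)

instance : IsProbabilityMeasure nu := by
  constructor
  unfold nu
  rw [Measure.restrict_apply_univ, Real.volume_Icc]
  norm_num

instance (n : ℕ) : IsProbabilityMeasure (env n) := by
  have : env n = Measure.pi (fun _ => nu) := rfl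
  rw [this]
  infer_instance

theorem nu_univ : nu Set.univ = ENNReal.ofReal 1 := by
  rw [measure_univ, ENNReal.ofReal_one]

theorem nu_Iic {p : ℝ} (h0 : 0 ≤ p) (h1 : p ≤ 1) : nu (Set.Iic p) = ENNReal.ofReal p := by
  unfold nu
  rw [Measure.restrict_apply' measurableSet_Icc]
  have : Set.Iic p ∩ Set.Icc 0 1 = Set.Icc 0 p := by
    ext x
    simp only [Set.mem_inter_iff, Set.mem_Iic, Set.mem_Icc]
    constructor
    · rintro ⟨h2, h3, _⟩; exact ⟨h3, h2⟩
    · rintro ⟨h2, h3⟩; exact ⟨h3, h2, h3.trans h1⟩
  rw [this, Real.volume_Icc, sub_zero]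

theorem nu_Ioi {p : ℝ} (h0 : 0 ≤ p) (h1 : p ≤ 1) : nu (Set.Ioi p) = ENNReal.ofReal (1 - p) := by
  unfold nu
  rw [Measure.restrict_apply' measurableSet_Icc]
  have : Set.Ioi p ∩ Set.Icc 0 1 = Set.Ioc p 1 := by
    ext x
    simp only [Set.mem_inter_iff, Set.mem_Ioi, Set.mem_Icc, Set.mem_Ioc]
    constructor
    · rintro ⟨h2, h3, h4⟩; exact ⟨h2, h4⟩
    · rintro ⟨h2, h3⟩; exact ⟨h2, by linarith, h3⟩
  rw [this, Real.volume_Ioc]

theorem env_box {n : ℕ} (I : Sym2 (Fin n) → Set ℝ) (m : Sym2 (Fin n) → ℝ)
    (hm : ∀ e, 0 ≤ m e) (h : ∀ e, nu (I e) = ENNReal.ofReal (m e)) :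
    env n (Set.pi Set.univ I) = ENNReal.ofReal (∏ e, m e) := by
  have : env n = Measure.pi (fun _ => nu) := rfl
  rw [this, Measure.pi_pi, ENNReal.ofReal_prod_of_nonneg (fun e _ => hm e)]
  exact Finset.prod_congr rfl (fun e _ => h e)

/-- the probability of an event about the set of edges with variable at most `p` -/
theorem env_le_pr {n : ℕ} {p : ℝ} (h0 : 0 ≤ p) (h1 : p ≤ 1) (E : Finset (Sym2 (Fin n)))
    (A : Finset (Sym2 (Fin n)) → Prop) :
    env n {U | A (open Classical in E.filter (fun e => U e ≤ p))} ≤ ENNReal.ofReal (pr p E A) := by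
  classical
  set I : Finset (Sym2 (Fin n)) → Sym2 (Fin n) → Set ℝ := fun S e =>
    if e ∈ S then Set.Iic p else if e ∈ E then Set.Ioi p else Set.univ with hI
  set m : Finset (Sym2 (Fin n)) → Sym2 (Fin n) → ℝ := fun S e =>
    if e ∈ S then p else if e ∈ E then 1 - p else 1 with hmd
  have hbox : ∀ S, env n (Set.pi Set.univ (I S)) = ENNReal.ofReal (∏ e, m S e) := by
    intro S
    apply env_box
    · intro e
      rw [hmd]; simp only
      split_ifs <;> linarith
    · intro e
      rw [hmd, hI]; simp only
      split_ifs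
      · exact nu_Iic h0 h1
      · exact nu_Ioi h0 h1
      · exact nu_univ
  have hprod : ∀ S ⊆ E, ∏ e, m S e = p ^ S.card * (1 - p) ^ (E \ S).card := by
    intro S hS
    rw [hmd]
    simp only
    rw [Finset.prod_ite]
    have e1 : (univ : Finset (Sym2 (Fin n))).filter (fun e => e ∈ S) = S := by ext; simp
    rw [e1, Finset.prod_const, Finset.prod_ite]
    congr 1
    rw [Finset.prod_const, Finset.prod_const_one, mul_one]
    congr 2
    ext e
    simp only [Finset.mem_filter, Finset.mem_univ, true_and, Finset.mem_sdiff]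
    tauto
  have hsub : {U | A (E.filter (fun e => U e ≤ p))} ⊆
      ⋃ S ∈ E.powerset.filter A, Set.pi Set.univ (I S) := by
    intro U hU
    simp only [Set.mem_ofPred_eq] at hU
    rw [Set.mem_iUnion₂]
    refine ⟨E.filter (fun e => U e ≤ p), ?_, ?_⟩
    · rw [Finset.mem_filter, Finset.mem_powerset]
      exact ⟨Finset.filter_subset _ _, hU⟩
    · intro e _
      rw [hI]
      simp only [Finset.mem_filter]
      by_cases he : e ∈ E
      · by_cases hp : U e ≤ p
        · rw [if_pos ⟨he, hp⟩]; exact hp
        · rw [if_neg (fun h => hp h.2), if_pos he]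
          exact lt_of_not_ge hp
      · rw [if_neg (fun h => he h.1), if_neg he]
        trivial
  calc env n {U | A (E.filter (fun e => U e ≤ p))}
      ≤ env n (⋃ S ∈ E.powerset.filter A, Set.pi Set.univ (I S)) := measure_mono hsub
    _ ≤ ∑ S ∈ E.powerset.filter A, env n (Set.pi Set.univ (I S)) := measure_biUnion_finset_le _ _
    _ = ∑ S ∈ E.powerset.filter A, ENNReal.ofReal (p ^ S.card * (1 - p) ^ (E \ S).card) := by
        apply Finset.sum_congr rfl
        intro S hS
        rw [hbox, hprod S (Finset.mem_powerset.1 (Finset.mem_filter.1 hS).1)]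
    _ = ENNReal.ofReal (∑ S ∈ E.powerset.filter A, p ^ S.card * (1 - p) ^ (E \ S).card) := by
        rw [ENNReal.ofReal_sum_of_nonneg]
        intro S _
        have : 0 ≤ 1 - p := by linarith
        positivity
    _ = ENNReal.ofReal (pr p E A) := by
        congr 1
        unfold pr ex
        rw [Finset.sum_filter]
        apply Finset.sum_congr rfl
        intro S _
        by_cases h : A S
        · rw [if_pos h]; simp only [if_pos h, mul_one]
        · rw [if_neg h]; simp only [if_neg h, mul_zero]

/-- the probability of a box given by disjoint sets of edges below `p`, below `p'`, above `p` -/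
theorem env_box3 {n : ℕ} {p p' : ℝ} (h0 : 0 ≤ p) (h1 : p ≤ 1) (h0' : 0 ≤ p') (h1' : p' ≤ 1)
    (S T R : Finset (Sym2 (Fin n))) (hST : Disjoint S T) (hSR : Disjoint S R)
    (hTR : Disjoint T R) :
    env n {U | (∀ e ∈ S, U e ≤ p) ∧ (∀ e ∈ T, U e ≤ p') ∧ (∀ e ∈ R, p < U e)} ≤
      ENNReal.ofReal (p ^ S.card * p' ^ T.card * (1 - p) ^ R.card) := by
  classical
  have hbox := env_box (n := n) (fun e => if e ∈ S then Set.Iic p else if e ∈ T then Set.Iic p' else
    if e ∈ R then Set.Ioi p else Set.univ) (fun e => if e ∈ S then p else if e ∈ T then p' else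
    if e ∈ R then 1 - p else 1) (by intro e; split_ifs <;> linarith) (by
      intro e
      split_ifs
      · exact nu_Iic h0 h1
      · exact nu_Iic h0' h1'
      · exact nu_Ioi h0 h1
      · exact nu_univ)
  have hprod : (∏ e, (if e ∈ S then p else if e ∈ T then p' else
    if e ∈ R then 1 - p else 1)) = p ^ S.card * p' ^ T.card * (1 - p) ^ R.card := by
    rw [Finset.prod_ite]
    have e1 : (univ : Finset (Sym2 (Fin n))).filter (fun e => e ∈ S) = S := by ext; simp
    rw [e1, Finset.prod_const, Finset.prod_ite, Finset.prod_const, Finset.prod_ite,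
      Finset.prod_const, Finset.prod_const_one, mul_one, mul_assoc]
    have e2 : ((univ : Finset (Sym2 (Fin n))).filter (fun e => e ∉ S)).filter (fun e => e ∈ T) =
        T := by
      ext e
      simp only [Finset.mem_filter, Finset.mem_univ, true_and]
      constructor
      · exact fun h => h.2
      · exact fun h => ⟨fun h' => Finset.disjoint_left.1 hST h' h, h⟩
    have e3 : (((univ : Finset (Sym2 (Fin n))).filter (fun e => e ∉ S)).filter
        (fun e => e ∉ T)).filter (fun e => e ∈ R) = R := by
      ext e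
      simp only [Finset.mem_filter, Finset.mem_univ, true_and]
      constructor
      · exact fun h => h.2
      · exact fun h => ⟨⟨fun h' => Finset.disjoint_left.1 hSR h' h,
          fun h' => Finset.disjoint_left.1 hTR h' h⟩, h⟩
    rw [e2, e3]
  rw [hprod] at hbox
  rw [← hbox]
  apply measure_mono
  rintro U ⟨hS, hT, hR⟩ e _
  simp only
  split_ifs with a b c
  · exact hS e a
  · exact hT e b
  · exact hR e c
  · trivial

end

end Pool.Agent.W842.RST
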