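import Mathlib

/-!
# Expectation over a random subset of a finite set
-/

set_option autoImplicit false

namespace Pool.Agent.W842.RST

open Finset

variable {α : Type*} [DecidableEq α]

/-- the expectation of `f S` for a random subset `S` of `E` which keeps every element with
probability `p` independently -/
noncomputable def ex (p : ℝ) (E : Finset α) (f : Finset α → ℝ) : ℝ :=
  ∑ S ∈ E.powerset, p ^ S.card * (1 - p) ^ (E \ S).card * f S

theorem ex_empty (p : ℝ) (f : Finset α → ℝ) : ex p ∅ f = f ∅ := by
  simp [ex]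

theorem ex_insert (p : ℝ) {a : α} {E : Finset α} (ha : a ∉ E) (f : Finset α → ℝ) :
    ex p (insert a E) f = (1 - p) * ex p E f + p * ex p E (fun S => f (insert a S)) := by
  unfold ex
  rw [Finset.sum_powerset_insert ha, Finset.mul_sum, Finset.mul_sum]
  congr 1
  · apply Finset.sum_congr rfl
    intro S hS
    have hS' := Finset.mem_powerset.1 hS
    have haS : a ∉ S := fun h => ha (hS' h)
    rw [Finset.insert_sdiff_of_notMem _ haS, Finset.card_insert_of_notMem (by simp [ha])]
    ring
  · apply Finset.sum_congr rfl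
    intro S hS
    have hS' := Finset.mem_powerset.1 hS
    have haS : a ∉ S := fun h => ha (hS' h)
    have h1 : insert a E \ insert a S = E \ S := by
      ext x
      simp only [Finset.mem_sdiff, Finset.mem_insert, not_or]
      constructor
      · rintro ⟨h1 | h1, h2, h3⟩
        · exact absurd h1 h2
        · exact ⟨h1, h3⟩
      · rintro ⟨h1, h2⟩
        exact ⟨Or.inr h1, fun h => ha (h ▸ h1), h2⟩
    rw [h1, Finset.card_insert_of_notMem haS]
    ring

theorem ex_congr (p : ℝ) {E : Finset α} {f g : Finset α → ℝ} (h : ∀ S ⊆ E, f S = g S) :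
    ex p E f = ex p E g := by
  unfold ex
  apply Finset.sum_congr rfl
  intro S hS
  rw [h S (Finset.mem_powerset.1 hS)]

theorem ex_mono {p : ℝ} (h0 : 0 ≤ p) (h1 : p ≤ 1) {E : Finset α} {f g : Finset α → ℝ}
    (h : ∀ S ⊆ E, f S ≤ g S) : ex p E f ≤ ex p E g := by
  unfold ex
  apply Finset.sum_le_sum
  intro S hS
  apply mul_le_mul_of_nonneg_left (h S (Finset.mem_powerset.1 hS))
  have : 0 ≤ 1 - p := by linarith
  positivity

theorem ex_nonneg {p : ℝ} (h0 : 0 ≤ p) (h1 : p ≤ 1) {E : Finset α} {f : Finset α → ℝ}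
    (h : ∀ S ⊆ E, 0 ≤ f S) : 0 ≤ ex p E f := by
  unfold ex
  apply Finset.sum_nonneg
  intro S hS
  have : 0 ≤ 1 - p := by linarith
  exact mul_nonneg (by positivity) (h S (Finset.mem_powerset.1 hS))

theorem ex_const (p : ℝ) (E : Finset α) (c : ℝ) : ex p E (fun _ => c) = c := by
  induction E using Finset.induction_on with
  | empty => simp [ex_empty]
  | insert a E ha ih => rw [ex_insert p ha, ih]; ring

theorem ex_add (p : ℝ) (E : Finset α) (f g : Finset α → ℝ) :
    ex p E (fun S => f S + g S) = ex p E f + ex p E g := by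
  unfold ex
  rw [← Finset.sum_add_distrib]
  apply Finset.sum_congr rfl
  intro S _
  ring

theorem ex_sub (p : ℝ) (E : Finset α) (f g : Finset α → ℝ) :
    ex p E (fun S => f S - g S) = ex p E f - ex p E g := by
  unfold ex
  rw [← Finset.sum_sub_distrib]
  apply Finset.sum_congr rfl
  intro S _
  ring

theorem ex_mul_left (p : ℝ) (E : Finset α) (c : ℝ) (f : Finset α → ℝ) :
    ex p E (fun S => c * f S) = c * ex p E f := by
  unfold ex
  rw [Finset.mul_sum]
  apply Finset.sum_congr rfl
  intro S _
  ring

theorem ex_sum (p : ℝ) (E : Finset α) {ι : Type*} (s : Finset ι) (f : ι → Finset α → ℝ) :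
    ex p E (fun S => ∑ i ∈ s, f i S) = ∑ i ∈ s, ex p E (f i) := by
  unfold ex
  rw [Finset.sum_comm]
  apply Finset.sum_congr rfl
  intro S _
  rw [Finset.mul_sum]

theorem ex_union (p : ℝ) {E₁ E₂ : Finset α} (hd : Disjoint E₁ E₂) (f : Finset α → ℝ) :
    ex p (E₁ ∪ E₂) f = ex p E₁ (fun S₁ => ex p E₂ (fun S₂ => f (S₁ ∪ S₂))) := by
  induction E₁ using Finset.induction_on generalizing f with
  | empty => simp [ex_empty]
  | insert a E ha ih =>
    have hd' : Disjoint E E₂ := Finset.disjoint_of_subset_left (Finset.subset_insert a E) hd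
    have ha2 : a ∉ E₂ := Finset.disjoint_left.1 hd (Finset.mem_insert_self a E)
    rw [Finset.insert_union, ex_insert p (by simp [ha, ha2]), ex_insert p ha, ih hd', ih hd']
    congr 1
    congr 1
    apply ex_congr
    intro S _
    apply ex_congr
    intro S' _
    rw [Finset.insert_union]

theorem ex_comm (p : ℝ) {β : Type*} [DecidableEq β] (E₁ : Finset α) (E₂ : Finset β)
    (f : Finset α → Finset β → ℝ) :
    ex p E₁ (fun S₁ => ex p E₂ (fun S₂ => f S₁ S₂)) =
      ex p E₂ (fun S₂ => ex p E₁ (fun S₁ => f S₁ S₂)) := by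
  unfold ex
  simp_rw [Finset.mul_sum]
  rw [Finset.sum_comm]
  apply Finset.sum_congr rfl
  intro S _
  apply Finset.sum_congr rfl
  intro S' _
  ring

theorem ex_image (p : ℝ) {β : Type*} [DecidableEq β] (E : Finset α) (g : α → β)
    (hg : Set.InjOn g E) (f : Finset β → ℝ) :
    ex p (E.image g) f = ex p E (fun S => f (S.image g)) := by
  induction E using Finset.induction_on generalizing f with
  | empty => simp [ex_empty]
  | insert a E ha ih =>
    have hg' : Set.InjOn g (E : Set α) := hg.mono (by simp)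
    have hna : g a ∉ E.image g := by
      rw [Finset.mem_image]
      rintro ⟨b, hb, hb'⟩
      have := hg (by simp [hb]) (by simp) hb'
      exact ha (this ▸ hb)
    rw [Finset.image_insert, ex_insert p hna, ex_insert p ha, ih hg', ih hg']
    congr 1
    congr 1
    apply ex_congr
    intro S _
    rw [Finset.image_insert]

/-- generating function -/
theorem ex_pow_card (p : ℝ) (E : Finset α) (c : ℝ) :
    ex p E (fun S => c ^ S.card) = (1 - p + p * c) ^ E.card := by
  induction E using Finset.induction_on with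
  | empty => simp [ex_empty]
  | insert a E ha ih =>
    rw [ex_insert p ha, ih, Finset.card_insert_of_notMem ha]
    have : ex p E (fun S => c ^ (insert a S).card) = c * (1 - p + p * c) ^ E.card := by
      rw [← ih, ← ex_mul_left]
      apply ex_congr
      intro S hS
      rw [Finset.card_insert_of_notMem (fun h => ha (hS h))]
      ring
    rw [this]
    ring

/-- probability that the random subset has a property -/
noncomputable def pr (p : ℝ) (E : Finset α) (A : Finset α → Prop) : ℝ :=
  open Classical in ex p E (fun S => if A S then 1 else 0)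

theorem pr_nonneg {p : ℝ} (h0 : 0 ≤ p) (h1 : p ≤ 1) (E : Finset α) (A : Finset α → Prop) :
    0 ≤ pr p E A := by
  unfold pr
  apply ex_nonneg h0 h1
  intro S _
  split_ifs <;> norm_num

theorem pr_mono {p : ℝ} (h0 : 0 ≤ p) (h1 : p ≤ 1) {E : Finset α} {A B : Finset α → Prop}
    (h : ∀ S ⊆ E, A S → B S) : pr p E A ≤ pr p E B := by
  unfold pr
  apply ex_mono h0 h1
  intro S hS
  split_ifs with h2 h3 h3
  · exact le_rfl
  · exact absurd (h S hS h2) h3
  · norm_num
  · exact le_rfl

theorem pr_le_one {p : ℝ} (h0 : 0 ≤ p) (h1 : p ≤ 1) (E : Finset α) (A : Finset α → Prop) :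
    pr p E A ≤ 1 := by
  unfold pr
  calc _ ≤ ex p E (fun _ => (1 : ℝ)) := by
        apply ex_mono h0 h1
        intro S _
        split_ifs <;> norm_num
    _ = 1 := ex_const _ _ _

theorem pr_congr (p : ℝ) {E : Finset α} {A B : Finset α → Prop}
    (h : ∀ S ⊆ E, (A S ↔ B S)) : pr p E A = pr p E B := by
  unfold pr
  apply ex_congr
  intro S hS
  by_cases h2 : A S
  · simp [h2, (h S hS).1 h2]
  · have h3 : ¬ B S := fun h4 => h2 ((h S hS).2 h4)
    simp [h2, h3]

theorem pr_true (p : ℝ) (E : Finset α) : pr p E (fun _ => True) = 1 := by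
  unfold pr
  simp [ex_const]

theorem pr_union (p : ℝ) {E₁ E₂ : Finset α} (hd : Disjoint E₁ E₂) (A : Finset α → Prop) :
    pr p (E₁ ∪ E₂) A = ex p E₁ (fun S₁ => pr p E₂ (fun S₂ => A (S₁ ∪ S₂))) := by
  unfold pr
  rw [ex_union p hd]

/-- union bound over a finite family, Markov form -/
theorem pr_le_sum {p : ℝ} (h0 : 0 ≤ p) (h1 : p ≤ 1) {E : Finset α} {ι : Type*} (s : Finset ι)
    (A : Finset α → Prop) (B : ι → Finset α → Prop) (M : ℝ)
    (h : ∀ S ⊆ E, A S → M ≤ ((open Classical in s.filter (fun i => B i S)).card : ℝ)) :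
    M * pr p E A ≤ ∑ i ∈ s, pr p E (B i) := by
  classical
  unfold pr
  rw [← ex_mul_left, ← ex_sum]
  apply ex_mono h0 h1
  intro S hS
  by_cases hA : A S
  · have := h S hS hA
    rw [if_pos hA, mul_one]
    refine this.trans (le_of_eq ?_)
    rw [Finset.card_filter]
    push_cast
    rfl
  · rw [if_neg hA, mul_zero]
    apply Finset.sum_nonneg
    intro i _
    split_ifs <;> norm_num

/-- the probability of missing a given set -/
theorem pr_disjoint (p : ℝ) (E B : Finset α) (hB : B ⊆ E) :
    pr p E (fun S => Disjoint S B) = (1 - p) ^ B.card := by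
  classical
  have h1 : E = B ∪ (E \ B) := by
    rw [Finset.union_sdiff_of_subset hB]
  rw [h1, pr_union p Finset.disjoint_sdiff]
  have h2 : ex p B (fun S₁ => pr p (E \ B) (fun S₂ => Disjoint (S₁ ∪ S₂) B)) =
      ex p B (fun S₁ => (0 : ℝ) ^ S₁.card) := by
    apply ex_congr
    intro S₁ hS₁
    by_cases h3 : S₁ = ∅
    · subst h3
      simp only [Finset.empty_union, Finset.card_empty, pow_zero]
      rw [← pr_true p (E \ B)]
      apply pr_congr
      intro S hS
      simp only [iff_true]
      exact Finset.disjoint_of_subset_left hS Finset.sdiff_disjoint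
    · have h4 : 0 < S₁.card := Finset.card_pos.2 (Finset.nonempty_iff_ne_empty.2 h3)
      rw [zero_pow h4.ne']
      have h5 : pr p (E \ B) (fun S₂ => Disjoint (S₁ ∪ S₂) B) = pr p (E \ B) (fun _ => False) := by
        apply pr_congr
        intro S _
        simp only [iff_false]
        intro hd
        obtain ⟨x, hx⟩ := Finset.nonempty_iff_ne_empty.2 h3
        exact Finset.disjoint_left.1 hd (Finset.mem_union_left _ hx) (hS₁ hx)
      rw [h5]
      unfold pr
      simp [ex_const]
  rw [h2, ex_pow_card]
  ring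

end Pool.Agent.W842.RST
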