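import Pool.Agent.W842.RST.Giant

/-!
# The giant component: explicit parameters
-/

set_option autoImplicit false

namespace Pool.Agent.W842.RST

open Finset

theorem mul_exp_le {y : ℝ} (hy : 0 ≤ y) : y * Real.exp y ≤ (Real.exp y ^ 2 - 1) / 2 := by
  have h1 : y ≤ Real.sinh y := Real.self_le_sinh_iff.2 hy
  rw [Real.sinh_eq] at h1
  have h2 : Real.exp (-y) * Real.exp y = 1 := by rw [← Real.exp_add]; simp
  have h3 : 0 < Real.exp y := Real.exp_pos _
  nlinarith

theorem giant {V : Type*} [DecidableEq V] [Fintype V] (θ p : ℝ) (hθ : 0 < θ)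
    (hp : p * Fintype.card V = 1 + θ) (hp1 : p < 1) (s m0 : ℕ) (hs : 0 < s)
    (hps : p * s ≤ Real.log (1 + 3 / 2 * θ))
    (hq : 1 ≤ 2 * (1 + 3 / 2 * θ) * (1 - p) ^ s)
    (hm0 : (Fintype.card V : ℝ) * (1 - θ / (20 * (1 + θ))) ≤ m0) (hm0' : m0 ≤ Fintype.card V) :
    pr p (edg (univ : Finset V)) (fun S => ∀ r : V,
      (open Classical in univ.filter (fun x => (gr S).Reachable r x)).card < s) ≤
      Real.exp (-(θ ^ 2 / (200 * (1 + θ) * (1 + 3 / 2 * θ) ^ 2) *
        ((Fintype.card V : ℝ) - m0))) := by
  classical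
  set n : ℝ := (Fintype.card V : ℝ) with hn
  set t : ℝ := 1 + θ with ht
  set r : ℝ := 1 + 3 / 2 * θ with hr
  have hn0 : 0 < n := by
    rcases (Nat.cast_nonneg (α := ℝ) (Fintype.card V)).eq_or_lt with h | h
    · rw [← hn] at h
      rw [← h, mul_zero] at hp
      linarith
    · exact h
  have hp0 : 0 < p := by
    by_contra hcon
    push Not at hcon
    nlinarith
  have hq0 : 0 < 1 - p := by linarith
  have hr1 : 1 < r := by rw [hr]; linarith
  have ht1 : 1 < t := by rw [ht]; linarith
  set l0 : ℝ := θ / (20 * t * r ^ 2) with hl0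
  have hl0p : 0 < l0 := by positivity
  set lam : ℕ → ℝ := fun b => l0 / (1 - p) ^ b with hlam
  set g : ℕ → ℝ := fun b => l0 * ((m0 - b) / (1 - p) ^ b - m0) -
    t / 2 * ∑ j ∈ range b, lam (j + 1) ^ 2 with hg
  set κ : ℝ := θ ^ 2 / (200 * t * r ^ 2) with hκ
  have hκe : κ = θ / 10 * l0 := by rw [hκ, hl0]; field_simp; ring
  have hlogr : Real.log r ≤ r / 2 := by
    have h1 : Real.log r = Real.log (r / 2) + Real.log 2 := by
      rw [← Real.log_mul (by positivity) (by norm_num)]
      congr 1; ring
    have h2 := Real.log_le_sub_one_of_pos (by positivity : (0:ℝ) < r / 2)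
    have h3 := Real.log_two_lt_d9
    linarith
  -- facts for b ≤ s
  have hb : ∀ b ≤ s, p * b ≤ Real.log r := by
    intro b hb
    refine le_trans ?_ hps
    apply mul_le_mul_of_nonneg_left _ hp0.le
    exact_mod_cast hb
  have hbn : ∀ b : ℕ, (b : ℝ) * t = n * (p * b) := by
    intro b
    have : n * p = t := by rw [mul_comm]; exact hp
    calc (b : ℝ) * t = b * (n * p) := by rw [this]
      _ = _ := by ring
  have hbm : ∀ b ≤ s, (b : ℝ) ≤ m0 := by
    intro b hbs
    have h1 := hb b hbs
    have h2 := hbn b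
    have h3 : (b : ℝ) * t ≤ n * (r / 2) := by
      rw [h2]
      exact mul_le_mul_of_nonneg_left (h1.trans hlogr) hn0.le
    have h4 : n * (r / 2) ≤ n * (1 - θ / (20 * t)) * t := by
      have : n * (1 - θ / (20 * t)) * t = n * (t - θ / 20) := by field_simp
      rw [this]
      apply mul_le_mul_of_nonneg_left _ hn0.le
      rw [ht, hr]; linarith
    have h5 : (b : ℝ) * t ≤ m0 * t := by
      refine (h3.trans h4).trans ?_
      exact mul_le_mul_of_nonneg_right hm0 (by linarith)
    exact le_of_mul_le_mul_right h5 (by linarith)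
  have hqs : ∀ b ≤ s, 1 / (1 - p) ^ b ≤ 2 * r := by
    intro b hbs
    rw [div_le_iff₀ (by positivity)]
    refine hq.trans ?_
    apply mul_le_mul_of_nonneg_left _ (by positivity)
    exact pow_le_pow_of_le_one hq0.le (by linarith) hbs
  refine small_comp_le hp0.le hp1.le s m0 lam g κ t ?_ ?_ ?_ ?_ ?_ ?_ ?_ ?_ hm0' hs
  · rw [hκ]; positivity
  · intro b; rw [hlam]; positivity
  · intro b
    rw [hlam]
    simp only
    rw [pow_succ]
    have : l0 / ((1 - p) ^ b * (1 - p)) * (1 - p) = l0 / (1 - p) ^ b := by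
      field_simp
    rw [this]
  · exact hp.le
  · intro b _
    rw [hg]
    simp only
    rw [Finset.sum_range_succ]
    apply le_of_eq
    have e1 : lam (b + 1) = l0 / ((1 - p) ^ b * (1 - p)) := by rw [hlam]; simp only [pow_succ]
    have e2 : l0 * (((m0 : ℝ) - ((b + 1 : ℕ) : ℝ)) / (1 - p) ^ (b + 1) - m0) + lam (b + 1) -
        p * ((m0 : ℝ) - b) * lam (b + 1) = l0 * (((m0 : ℝ) - b) / (1 - p) ^ b - m0) := by
      rw [e1, pow_succ]
      push_cast
      field_simp
      ring
    linarith
  · rw [hg]; simp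
  · intro b hbs
    have hbm' := hbm b hbs
    set y : ℝ := p * b with hy
    have hy0 : 0 ≤ y := by positivity
    set E := Real.exp y with hE
    have hE1 : 1 + y ≤ E := by have := Real.add_one_le_exp y; linarith
    have hEr : E ≤ r := by
      calc E ≤ Real.exp (Real.log r) := Real.exp_le_exp.2 (hb b hbs)
        _ = r := Real.exp_log (by linarith)
    have hqE : E ≤ 1 / (1 - p) ^ b := by
      rw [le_div_iff₀ (by positivity)]
      have h1 : 1 - p ≤ Real.exp (-p) := by have := Real.add_one_le_exp (-p); linarith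
      calc E * (1 - p) ^ b ≤ E * Real.exp (-p) ^ b := by
            apply mul_le_mul_of_nonneg_left _ (Real.exp_pos _).le
            exact pow_le_pow_left₀ hq0.le h1 _
        _ = 1 := by
            rw [← Real.exp_nat_mul, hE, ← Real.exp_add, hy]
            ring_nf
            simp
    have h1 : ((m0 : ℝ) - b) * E ≤ ((m0 : ℝ) - b) / (1 - p) ^ b := by
      rw [div_eq_mul_one_div ((m0 : ℝ) - b)]
      exact mul_le_mul_of_nonneg_left hqE (by linarith)
    have h2 := mul_exp_le hy0
    rw [← hE] at h2
    -- (m0 - b) E - m0 ≥ (θ/5) b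
    have h3 : θ / 5 * b ≤ ((m0 : ℝ) - b) * E - m0 := by
      have hbt := hbn b
      rw [← hy] at hbt
      -- multiply by t
      have key : θ / 5 * b * t ≤ (((m0 : ℝ) - b) * E - m0) * t := by
        have e1 : (((m0 : ℝ) - b) * E - m0) * t = m0 * t * (E - 1) - n * (y * E) := by
          have : (b : ℝ) * E * t = n * (y * E) := by
            calc (b : ℝ) * E * t = b * t * E := by ring
              _ = n * y * E := by rw [hbt]
              _ = _ := by ring
          linarith
        rw [e1]
        have e2 : n * (y * E) ≤ n * ((E ^ 2 - 1) / 2) := mul_le_mul_of_nonneg_left h2 hn0.le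
        have e3 : n * (t - θ / 20) ≤ m0 * t := by
          have h5 : n * (1 - θ / (20 * t)) * t = n * (t - θ / 20) := by field_simp
          rw [← h5]
          exact mul_le_mul_of_nonneg_right hm0 (by linarith)
        have e4 : n * (t - θ / 20) * (E - 1) ≤ m0 * t * (E - 1) :=
          mul_le_mul_of_nonneg_right e3 (by linarith)
        have e5 : n * (θ / 5) * (E - 1) ≤ n * (t - θ / 20) * (E - 1) - n * ((E ^ 2 - 1) / 2) := by
          have h6 : (E + 1) / 2 ≤ 1 + 3 / 4 * θ := by rw [hr] at hEr; linarith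
          have h7 : n * (t - θ / 20) * (E - 1) - n * ((E ^ 2 - 1) / 2) =
              n * (E - 1) * (t - θ / 20 - (E + 1) / 2) := by ring
          rw [h7]
          have h8 : θ / 5 ≤ t - θ / 20 - (E + 1) / 2 := by rw [ht]; linarith
          have h9 : 0 ≤ n * (E - 1) := mul_nonneg hn0.le (by linarith)
          have h10 := mul_le_mul_of_nonneg_left h8 h9
          linarith
        have e6 : θ / 5 * b * t ≤ n * (θ / 5) * (E - 1) := by
          have h6 : θ / 5 * b * t = n * (θ / 5) * y := by
            calc θ / 5 * b * t = θ / 5 * (b * t) := by ring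
              _ = θ / 5 * (n * y) := by rw [hbt]
              _ = _ := by ring
          rw [h6]
          exact mul_le_mul_of_nonneg_left (by linarith) (by positivity)
        linarith
      exact le_of_mul_le_mul_right key (by linarith)
    have h4 : ∑ j ∈ range b, lam (j + 1) ^ 2 ≤ b * (2 * r * l0) ^ 2 := by
      calc ∑ j ∈ range b, lam (j + 1) ^ 2 ≤ ∑ j ∈ range b, (2 * r * l0) ^ 2 := by
            apply Finset.sum_le_sum
            intro j hj
            rw [Finset.mem_range] at hj
            have h5 := hqs (j + 1) (by omega)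
            apply pow_le_pow_left₀
            · rw [hlam]; positivity
            · rw [hlam]
              simp only
              rw [div_eq_mul_one_div]
              calc l0 * (1 / (1 - p) ^ (j + 1)) ≤ l0 * (2 * r) :=
                    mul_le_mul_of_nonneg_left h5 hl0p.le
                _ = 2 * r * l0 := by ring
        _ = b * (2 * r * l0) ^ 2 := by rw [Finset.sum_const, Finset.card_range, nsmul_eq_mul]
    rw [hg]
    simp only
    have h5 : l0 * (θ / 5 * b) ≤ l0 * (((m0 : ℝ) - b) / (1 - p) ^ b - m0) :=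
      mul_le_mul_of_nonneg_left (by linarith) hl0p.le
    have h6 : t / 2 * ∑ j ∈ range b, lam (j + 1) ^ 2 ≤ t / 2 * (b * (2 * r * l0) ^ 2) :=
      mul_le_mul_of_nonneg_left h4 (by positivity)
    have h7 : t / 2 * (b * (2 * r * l0) ^ 2) = θ / 10 * l0 * b := by
      have : 2 * t * r ^ 2 * l0 = θ / 10 := by rw [hl0]; field_simp; ring
      calc t / 2 * (b * (2 * r * l0) ^ 2) = (2 * t * r ^ 2 * l0) * l0 * b := by ring
        _ = _ := by rw [this]
    rw [hκe]
    linarith
  · exact_mod_cast hbm s le_rfl

end Pool.Agent.W842.RST
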