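import Pool.Agent.W842.RST.Thermal

/-!
# Elementary properties of the probability of an event for the random tree
-/

set_option autoImplicit false

namespace Pool.Agent.W842.RST

open MeasureTheory Finset

variable {n : ℕ}

theorem measurable_treeWt (γ : ℝ) (T : SimpleGraph (Fin n)) :
    Measurable (fun U : Sym2 (Fin n) → ℝ => treeWt γ U T) := by
  classical
  unfold treeWt
  apply Finset.measurable_prod
  intro e _
  exact Real.measurable_exp.comp ((measurable_pi_apply e).pow_const _)

theorem measurable_gibbs (γ : ℝ) (A : SimpleGraph (Fin n) → Prop) :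
    Measurable (fun U : Sym2 (Fin n) → ℝ => gibbs γ U A) := by
  classical
  unfold gibbs
  apply Measurable.div
  · exact Finset.measurable_sum _ (fun T _ => measurable_treeWt γ T)
  · exact Finset.measurable_sum _ (fun T _ => measurable_treeWt γ T)

theorem gibbs_nonneg (γ : ℝ) (U : Sym2 (Fin n) → ℝ) (A : SimpleGraph (Fin n) → Prop) :
    0 ≤ gibbs γ U A := by
  classical
  unfold gibbs
  exact div_nonneg (Finset.sum_nonneg (fun T _ => (treeWt_pos γ U T).le))
    (Finset.sum_nonneg (fun T _ => (treeWt_pos γ U T).le))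

theorem gibbs_le_one (γ : ℝ) (U : Sym2 (Fin n) → ℝ) (A : SimpleGraph (Fin n) → Prop) :
    gibbs γ U A ≤ 1 := by
  classical
  unfold gibbs
  apply div_le_one_of_le₀
  · apply Finset.sum_le_sum_of_subset_of_nonneg
    · intro T hT
      simp only [Finset.mem_filter, Finset.mem_univ, true_and] at hT ⊢
      exact hT.1
    · intro T _ _
      exact (treeWt_pos γ U T).le
  · exact Finset.sum_nonneg (fun T _ => (treeWt_pos γ U T).le)

theorem exists_tree [Nonempty (Fin n)] : ∃ T : SimpleGraph (Fin n), T.IsTree := by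
  obtain ⟨T, _, hT⟩ := (SimpleGraph.connected_top (V := Fin n)).exists_isTree_le
  exact ⟨T, hT⟩

/-- union bound -/
theorem gibbs_ge [Nonempty (Fin n)] (γ : ℝ) (U : Sym2 (Fin n) → ℝ) {ι : Type*} (I : Finset ι)
    (A : SimpleGraph (Fin n) → Prop) (B : ι → SimpleGraph (Fin n) → Prop)
    (h : ∀ T : SimpleGraph (Fin n), T.IsTree → (∀ i ∈ I, B i T) → A T) :
    1 - ∑ i ∈ I, gibbs γ U (fun T => ¬ B i T) ≤ gibbs γ U A := by
  classical
  set Z : ℝ := ∑ T ∈ univ.filter (fun T : SimpleGraph (Fin n) => T.IsTree), treeWt γ U T with hZ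
  have hZpos : 0 < Z := by
    obtain ⟨T, hT⟩ := exists_tree (n := n)
    apply Finset.sum_pos (fun T _ => treeWt_pos γ U T)
    exact ⟨T, by rw [Finset.mem_filter]; exact ⟨Finset.mem_univ _, hT⟩⟩
  set ind : (SimpleGraph (Fin n) → Prop) → SimpleGraph (Fin n) → ℝ :=
    fun C T => if C T then treeWt γ U T else 0 with hind
  have hind0 : ∀ C T, 0 ≤ ind C T := by
    intro C T
    rw [hind]
    simp only
    split_ifs
    · exact (treeWt_pos γ U T).le
    · exact le_rfl
  have hg : ∀ C : SimpleGraph (Fin n) → Prop, gibbs γ U C =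
      (∑ T ∈ univ.filter (fun T : SimpleGraph (Fin n) => T.IsTree), ind C T) / Z := by
    intro C
    unfold gibbs
    congr 1
    rw [hind]
    simp only
    rw [← Finset.sum_filter, Finset.filter_filter]
  rw [sub_le_iff_le_add, hg A]
  have e1 : ∑ i ∈ I, gibbs γ U (fun T => ¬ B i T) =
      (∑ i ∈ I, ∑ T ∈ univ.filter (fun T : SimpleGraph (Fin n) => T.IsTree),
        ind (fun T => ¬ B i T) T) / Z := by
    rw [Finset.sum_div]
    exact Finset.sum_congr rfl (fun i _ => hg _)
  rw [e1, ← add_div, le_div_iff₀ hZpos, one_mul, hZ, Finset.sum_comm, ← Finset.sum_add_distrib]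
  apply Finset.sum_le_sum
  intro T hT
  have hTt := (Finset.mem_filter.1 hT).2
  have hw := treeWt_pos γ U T
  have hsum0 : 0 ≤ ∑ i ∈ I, ind (fun T => ¬ B i T) T :=
    Finset.sum_nonneg (fun i _ => hind0 (fun T => ¬ B i T) T)
  by_cases hA : A T
  · have h3 : ind A T = treeWt γ U T := by rw [hind]; simp only; rw [if_pos hA]
    linarith
  · have : ∃ i ∈ I, ¬ B i T := by
      by_contra hcon
      push Not at hcon
      exact hA (h T hTt hcon)
    obtain ⟨i, hi, hBi⟩ := this
    have h2 := Finset.single_le_sum (f := fun i => ind (fun T => ¬ B i T) T)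
      (s := I) (fun j _ => hind0 (fun T => ¬ B j T) T) hi
    have h3 : ind (fun T => ¬ B i T) T = treeWt γ U T := by
      rw [hind]; simp only; rw [if_pos hBi]
    simp only [h3] at h2
    have := hind0 A T
    linarith

theorem avg_le_one (γ : ℝ) (n : ℕ) (A : SimpleGraph (Fin n) → Prop) : avg γ n A ≤ 1 := by
  unfold avg
  have h1 : ∫ U, gibbs γ U A ∂(env n) ≤ ∫ _, (1 : ℝ) ∂(env n) := by
    apply integral_mono_of_nonneg
    · exact Filter.Eventually.of_forall (fun U => gibbs_nonneg γ U A)
    · exact integrable_const _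
    · exact Filter.Eventually.of_forall (fun U => gibbs_le_one γ U A)
  rw [integral_const] at h1
  simpa using h1

theorem avg_ge (γ : ℝ) (n : ℕ) (A : SimpleGraph (Fin n) → Prop) (Bad : Set (Sym2 (Fin n) → ℝ))
    {η δ : ℝ} (hη : 0 ≤ η) (hδ : 0 ≤ δ) (hBad : env n Bad ≤ ENNReal.ofReal η)
    (h : ∀ U, U ∉ Bad → 1 - δ ≤ gibbs γ U A) : 1 - δ - η ≤ avg γ n A := by
  classical
  set B := toMeasurable (env n) Bad with hB
  have hBm : MeasurableSet B := measurableSet_toMeasurable _ _
  have hBe : env n B = env n Bad := measure_toMeasurable _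
  have hsub : Bad ⊆ B := subset_toMeasurable _ _
  have hint : Integrable (fun U : Sym2 (Fin n) → ℝ => gibbs γ U A) (env n) := by
    apply Integrable.of_bound (measurable_gibbs γ A).aestronglyMeasurable 1
    refine Filter.Eventually.of_forall (fun U => ?_)
    rw [Real.norm_eq_abs, abs_of_nonneg (gibbs_nonneg γ U A)]
    exact gibbs_le_one γ U A
  have h1 : ∫ U, (Bᶜ).indicator (fun _ => (1 - δ : ℝ)) U ∂(env n) ≤
      ∫ U, gibbs γ U A ∂(env n) := by
    apply integral_mono _ hint
    · intro U
      simp only [Set.indicator_apply]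
      split_ifs with hU
      · exact h U (fun hU' => hU (hsub hU'))
      · exact gibbs_nonneg γ U A
    · exact (integrable_const _).indicator hBm.compl
  rw [integral_indicator_const _ hBm.compl] at h1
  have h2 : (env n).real Bᶜ = 1 - (env n).real B := by
    rw [measureReal_compl hBm]
    simp
  have h3 : (env n).real B ≤ η := by
    rw [measureReal_def, hBe]
    exact ENNReal.toReal_le_of_le_ofReal hη hBad
  have h4 : 0 ≤ (env n).real B := measureReal_nonneg
  rw [h2, smul_eq_mul] at h1
  unfold avg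
  refine le_trans ?_ h1
  nlinarith

/-- the variables are positive almost surely -/
theorem env_nonpos (n : ℕ) : env n {U | ∃ e, U e ≤ 0} = 0 := by
  have hsub : {U : Sym2 (Fin n) → ℝ | ∃ e, U e ≤ 0} ⊆ ⋃ e : Sym2 (Fin n), {U | U e ≤ 0} := by
    rintro U ⟨e, he⟩
    exact Set.mem_iUnion.2 ⟨e, he⟩
  apply measure_mono_null hsub
  rw [measure_iUnion_null_iff]
  intro e
  have h := env_box3 (n := n) (p := 0) (p' := 0) le_rfl zero_le_one le_rfl zero_le_one {e} ∅ ∅
    (by simp) (by simp) (by simp)
  simp only [Finset.mem_singleton, forall_eq, Finset.notMem_empty, false_implies, implies_true,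
    and_true, Finset.card_singleton, pow_one, zero_mul, ENNReal.ofReal_zero] at h
  exact le_antisymm h (zero_le)

end Pool.Agent.W842.RST
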