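import Pool.Agent.W842.RST.GiantParam
import Pool.Agent.W842.RST.Chain
import Pool.Agent.W842.RST.Conn

/-!
# Numerical estimates for one level
-/

set_option autoImplicit false

namespace Pool.Agent.W842.RST

open Finset MeasureTheory

/-- the level `(1 + θ) / n` -/
noncomputable def lev (n : ℕ) (θ : ℝ) : ℝ := (1 + θ) / n

/-- the size of the component -/
noncomputable def siz (n : ℕ) (θ : ℝ) : ℕ := ⌊Real.log (1 + 3 / 2 * θ) / lev n θ⌋₊

/-- standing numerical assumptions -/
structure Num (n : ℕ) (θ : ℝ) : Prop where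
  hθ : 0 < θ
  hL : 1 ≤ Real.log n
  hθL : θ ≤ 5 * Real.log n
  h1 : 100 * (1 + 8 * Real.log n) ^ 2 ≤ n * θ
  h2 : 100 * (1 + 8 * Real.log n) ^ 2 ≤ n
  h3 : 16000 * Real.log n * (1 + 8 * Real.log n) ^ 4 ≤ n * θ ^ 3

namespace Num

variable {n : ℕ} {θ : ℝ} (N : Num n θ)

include N

theorem n_pos : (0 : ℝ) < n := by
  have h := N.h2
  have := N.hL
  have h3 : 0 < (1 + 8 * Real.log n) ^ 2 := by positivity
  linarith

theorem lev_pos : 0 < lev n θ := by
  have := N.n_pos
  have := N.hθ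
  unfold lev
  positivity

theorem r_le : 1 + 3 / 2 * θ ≤ 1 + 8 * Real.log n := by
  have := N.hθL
  have := N.hL
  linarith

theorem lev_le : lev n θ * (100 * (1 + 8 * Real.log n)) ≤ 1 := by
  have hn := N.n_pos
  have hr := N.r_le
  have hθ := N.hθ
  have h2 := N.h2
  have hL := N.hL
  unfold lev
  rw [div_mul_eq_mul_div, div_le_one hn]
  have h5 : (1 + θ) * (100 * (1 + 8 * Real.log n)) ≤ (1 + 8 * Real.log n) *
      (100 * (1 + 8 * Real.log n)) := by
    apply mul_le_mul_of_nonneg_right _ (by positivity)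
    linarith
  nlinarith

theorem lev_lt : lev n θ ≤ 1 / 100 := by
  have h := N.lev_le
  have hL := N.hL
  have hp := N.lev_pos
  have : lev n θ * 100 ≤ lev n θ * (100 * (1 + 8 * Real.log n)) := by
    apply mul_le_mul_of_nonneg_left _ hp.le
    linarith
  linarith

theorem log_r_pos : 0 < Real.log (1 + 3 / 2 * θ) := Real.log_pos (by have := N.hθ; linarith)

theorem log_r_ge : θ / (1 + 3 / 2 * θ) ≤ Real.log (1 + 3 / 2 * θ) := by
  have hθ := N.hθ
  have hr : 0 < 1 + 3 / 2 * θ := by linarith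
  have h := Real.one_sub_inv_le_log_of_pos hr
  refine le_trans ?_ h
  rw [div_le_iff₀ hr, sub_mul, inv_mul_cancel₀ hr.ne']
  linarith

/-- the size is large -/
theorem siz_ge : 2 ≤ Real.log (1 + 3 / 2 * θ) / lev n θ := by
  have hθ := N.hθ
  have hn := N.n_pos
  have hp := N.lev_pos
  rw [le_div_iff₀ hp]
  refine le_trans ?_ N.log_r_ge
  have hr : 0 < 1 + 3 / 2 * θ := by linarith
  rw [le_div_iff₀ hr]
  unfold lev
  rw [mul_div_assoc', div_mul_eq_mul_div, div_le_iff₀ hn]
  have h1 := N.h1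
  have h2 := N.r_le
  have hL := N.hL
  have h3 : (1 + θ) * (1 + 3 / 2 * θ) ≤ (1 + 8 * Real.log n) ^ 2 := by
    rw [sq]
    apply mul_le_mul (by linarith) h2 hr.le (by linarith)
  nlinarith

theorem siz_pos : 0 < siz n θ := by
  unfold siz
  have := N.siz_ge
  have h : 1 ≤ ⌊Real.log (1 + 3 / 2 * θ) / lev n θ⌋₊ := by
    apply Nat.le_floor
    push_cast
    linarith
  omega

theorem p_siz_le : lev n θ * siz n θ ≤ Real.log (1 + 3 / 2 * θ) := by
  have hp := N.lev_pos
  have h := Nat.floor_le (a := Real.log (1 + 3 / 2 * θ) / lev n θ)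
    (div_nonneg N.log_r_pos.le hp.le)
  rw [le_div_iff₀ hp] at h
  unfold siz
  linarith

theorem p_siz_ge : Real.log (1 + 3 / 2 * θ) - lev n θ ≤ lev n θ * siz n θ := by
  have hp := N.lev_pos
  have h := (Nat.lt_floor_add_one (Real.log (1 + 3 / 2 * θ) / lev n θ)).le
  rw [div_le_iff₀ hp] at h
  unfold siz
  nlinarith

theorem hq : 1 ≤ 2 * (1 + 3 / 2 * θ) * (1 - lev n θ) ^ siz n θ := by
  have hp := N.lev_pos
  have hpl := N.lev_lt
  set p := lev n θ with hpd
  have hθ := N.hθ
  set r : ℝ := 1 + 3 / 2 * θ with hr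
  have hr0 : 0 < r := by rw [hr]; linarith
  -- (1-p) ≥ exp (-(p + p^2))
  have h1 : Real.exp (-(p + p ^ 2)) ≤ 1 - p := by
    have h2 : Real.exp (-(p + p ^ 2)) * Real.exp (p + p ^ 2) = 1 := by
      rw [← Real.exp_add]; simp
    have h3 : 1 + (p + p ^ 2) ≤ Real.exp (p + p ^ 2) := by
      have := Real.add_one_le_exp (p + p ^ 2); linarith
    have h4 : 1 ≤ (1 - p) * Real.exp (p + p ^ 2) := by
      have h5 : (1 : ℝ) ≤ (1 - p) * (1 + (p + p ^ 2) + (p + p ^ 2) ^ 2 / 2) := by
        nlinarith [sq_nonneg p, mul_pos hp hp, mul_pos (mul_pos hp hp) hp]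
      have h6 := Real.quadratic_le_exp_of_nonneg (show 0 ≤ p + p ^ 2 by positivity)
      have h7 : 0 ≤ 1 - p := by linarith
      nlinarith
    have h5 : 0 < Real.exp (p + p ^ 2) := Real.exp_pos _
    by_contra hcon
    push Not at hcon
    have : (1 - p) * Real.exp (p + p ^ 2) < Real.exp (-(p + p ^ 2)) * Real.exp (p + p ^ 2) :=
      mul_lt_mul_of_pos_right hcon h5
    linarith
  have h2 : Real.exp (-(p + p ^ 2)) ^ siz n θ ≤ (1 - p) ^ siz n θ :=
    pow_le_pow_left₀ (Real.exp_pos _).le h1 _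
  rw [← Real.exp_nat_mul] at h2
  have h3 : p * siz n θ ≤ Real.log r := N.p_siz_le
  have h4 : -Real.log r - Real.log 2 ≤ siz n θ * -(p + p ^ 2) := by
    have h5 : (siz n θ : ℝ) * (p + p ^ 2) = (p * siz n θ) * (1 + p) := by ring
    have h6 : (p * siz n θ) * (1 + p) ≤ Real.log r * (1 + p) :=
      mul_le_mul_of_nonneg_right h3 (by linarith)
    have h7 : p * Real.log r ≤ 1 / 100 := by
      have h8 : Real.log r ≤ 1 + 8 * Real.log n := by
        have := Real.log_le_sub_one_of_pos hr0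
        have := N.r_le
        rw [← hr] at this
        linarith
      have h9 := N.lev_le
      rw [← hpd] at h9
      have : p * Real.log r ≤ p * (1 + 8 * Real.log n) := mul_le_mul_of_nonneg_left h8 hp.le
      linarith
    have h8 := Real.log_two_gt_d9
    nlinarith
  have h5 : Real.exp (-Real.log r - Real.log 2) ≤ (1 - p) ^ siz n θ :=
    (Real.exp_le_exp.2 h4).trans h2
  have h6 : Real.exp (-Real.log r - Real.log 2) = 1 / (2 * r) := by
    have : -Real.log r - Real.log 2 = -(Real.log (2 * r)) := by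
      rw [Real.log_mul (by norm_num) hr0.ne']; ring
    rw [this, Real.exp_neg, Real.exp_log (by positivity), one_div]
  rw [h6, div_le_iff₀ (by positivity)] at h5
  linarith

theorem giant_level : pr (lev n θ) (edg (univ : Finset (Fin n))) (fun S => ∀ r : Fin n,
      (open Classical in univ.filter (fun x => (gr S).Reachable r x)).card < siz n θ) ≤
      1 / (n : ℝ) ^ 2 := by
  classical
  have hn := N.n_pos
  have hθ := N.hθ
  have hL := N.hL
  have hp := N.lev_pos
  have hpl := N.lev_lt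
  set η : ℝ := θ / (20 * (1 + θ)) with hη
  have hη0 : 0 < η := by positivity
  have hη1 : η ≤ 1 / 20 := by
    rw [hη, div_le_div_iff₀ (by positivity) (by norm_num)]
    linarith
  set m0 : ℕ := ⌈(n : ℝ) * (1 - η)⌉₊ with hm0
  have hm1 : (n : ℝ) * (1 - η) ≤ m0 := Nat.le_ceil _
  have hm2 : m0 ≤ n := by
    apply Nat.ceil_le.2
    nlinarith
  have hm3 : (m0 : ℝ) < n * (1 - η) + 1 := Nat.ceil_lt_add_one (by
    apply mul_nonneg hn.le; linarith)
  have hcard : (Fintype.card (Fin n) : ℝ) = n := by rw [Fintype.card_fin]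
  have key := giant (V := Fin n) θ (lev n θ) hθ (by
      rw [hcard]; unfold lev; field_simp) (by linarith) (siz n θ) m0 N.siz_pos N.p_siz_le N.hq
    (by rw [hcard]; exact hm1) (by rw [Fintype.card_fin]; exact hm2)
  refine key.trans ?_
  rw [hcard]
  have hlog : 1 / (n : ℝ) ^ 2 = Real.exp (-(2 * Real.log n)) := by
    have : Real.exp (2 * Real.log n) = (n : ℝ) ^ 2 := by
      rw [show 2 * Real.log (n : ℝ) = Real.log n + Real.log n by ring, Real.exp_add,
        Real.exp_log hn]
      ring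
    rw [Real.exp_neg, this, one_div]
  rw [hlog]
  apply Real.exp_le_exp.2
  apply neg_le_neg
  -- 2 log n ≤ κ (n - m0)
  have h5 : n * η / 2 ≤ (n : ℝ) - m0 := by
    have h6 : 2 ≤ n * η := by
      have h1 := N.h1
      have : (n : ℝ) * η = n * θ / (20 * (1 + θ)) := by rw [hη]; ring
      rw [this, le_div_iff₀ (by positivity)]
      have h2 := N.r_le
      nlinarith
    nlinarith
  set A : ℝ := 1 + 8 * Real.log n with hA
  have hA1 : 1 + 3 / 2 * θ ≤ A := N.r_le
  have hA2 : 1 + θ ≤ A := by linarith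
  have h7 : θ ^ 2 / (200 * (1 + θ) * (1 + 3 / 2 * θ) ^ 2) * (n * η / 2) =
      n * θ ^ 3 / (8000 * ((1 + θ) ^ 2 * (1 + 3 / 2 * θ) ^ 2)) := by
    rw [hη]; field_simp; ring
  have h8 : 2 * Real.log n ≤ n * θ ^ 3 / (8000 * ((1 + θ) ^ 2 * (1 + 3 / 2 * θ) ^ 2)) := by
    rw [le_div_iff₀ (by positivity)]
    have h9 : (1 + θ) ^ 2 * (1 + 3 / 2 * θ) ^ 2 ≤ A ^ 4 := by
      have e1 : (1 + θ) ^ 2 ≤ A ^ 2 := pow_le_pow_left₀ (by linarith) hA2 2
      have e2 : (1 + 3 / 2 * θ) ^ 2 ≤ A ^ 2 := pow_le_pow_left₀ (by linarith) hA1 2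
      calc (1 + θ) ^ 2 * (1 + 3 / 2 * θ) ^ 2 ≤ A ^ 2 * A ^ 2 :=
            mul_le_mul e1 e2 (by positivity) (by positivity)
        _ = A ^ 4 := by ring
    have h10 := N.h3
    rw [← hA] at h10
    calc 2 * Real.log n * (8000 * ((1 + θ) ^ 2 * (1 + 3 / 2 * θ) ^ 2))
        ≤ 2 * Real.log n * (8000 * A ^ 4) := by
          apply mul_le_mul_of_nonneg_left _ (by linarith)
          linarith
      _ = 16000 * Real.log n * A ^ 4 := by ring
      _ ≤ _ := h10
  calc 2 * Real.log n ≤ _ := h8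
    _ = θ ^ 2 / (200 * (1 + θ) * (1 + 3 / 2 * θ) ^ 2) * (n * η / 2) := h7.symm
    _ ≤ _ := by
      apply mul_le_mul_of_nonneg_left h5 (by positivity)

/-- environment form -/
theorem env_giant : env n {U | ¬ ∃ v, siz n θ ≤ (comp (GU U (lev n θ)) v).card} ≤
    ENNReal.ofReal (1 / (n : ℝ) ^ 2) := by
  classical
  have hp := N.lev_pos
  have hpl := N.lev_lt
  have h1 := env_le_pr (n := n) hp.le (by linarith) (edg (univ : Finset (Fin n)))
    (fun S => ∀ r : Fin n, (univ.filter (fun x => (gr S).Reachable r x)).card < siz n θ)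
  refine le_trans ?_ (h1.trans (ENNReal.ofReal_le_ofReal ?_))
  · apply measure_mono
    intro U hU
    simp only [Set.mem_ofPred_eq] at hU ⊢
    push Not at hU
    intro r
    have h2 := hU r
    have he : ∀ (S : Finset (Sym2 (Fin n))), gr S = GU U (lev n θ) →
        (univ.filter (fun x => (gr S).Reachable r x)).card = (comp (GU U (lev n θ)) r).card := by
      intro S hS
      congr 1
      ext x
      rw [mem_comp, Finset.mem_filter, hS]
      simp
    rw [he _ (by convert gr_filter U (lev n θ))]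
    exact h2
  · convert N.giant_level

/-- avoid estimate: `θ' = 1.21 θ` -/
theorem env_avoid (m : ℕ) (hm : 16 * Real.log n * (1 + 3 / 2 * θ) / θ ≤ m) :
    env n {U | AvoidBad m (siz n θ) (lev n θ) (lev n (121 / 100 * θ)) U} ≤
    ENNReal.ofReal (1 / (n : ℝ) ^ 2) := by
  have hn := N.n_pos
  have hθ := N.hθ
  have hL := N.hL
  have hp := N.lev_pos
  have hpl := N.lev_lt
  have hp' : lev n (121 / 100 * θ) ≤ 121 / 100 * lev n θ := by
    unfold lev
    rw [← mul_div_assoc]
    apply div_le_div_of_nonneg_right _ hn.le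
    linarith
  have hp'0 : 0 ≤ lev n (121 / 100 * θ) := by unfold lev; positivity
  refine (avoid_le hp.le (by linarith) hp'0 (by linarith)).trans (ENNReal.ofReal_le_ofReal ?_)
  set p := lev n θ with hpd
  set p' := lev n (121 / 100 * θ) with hp'd
  set s := siz n θ with hs
  have hnp' : (n : ℝ) * p' = 1 + 121 / 100 * θ := by rw [hp'd]; unfold lev; field_simp
  set r : ℝ := 1 + 3 / 2 * θ with hr
  have hr0 : 0 < r := by rw [hr]; linarith
  have hps := N.p_siz_ge
  rw [← hpd, ← hs, ← hr] at hps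
  -- (1-p)^s ≤ exp (-p s) ≤ exp p / r
  have h1 : (1 - p) ^ s ≤ Real.exp p / r := by
    have h2 : 1 - p ≤ Real.exp (-p) := by have := Real.add_one_le_exp (-p); linarith
    calc (1 - p) ^ s ≤ Real.exp (-p) ^ s := pow_le_pow_left₀ (by linarith) h2 _
      _ = Real.exp (-(p * s)) := by rw [← Real.exp_nat_mul]; ring_nf
      _ ≤ Real.exp (p - Real.log r) := Real.exp_le_exp.2 (by linarith)
      _ = Real.exp p / r := by rw [Real.exp_sub, Real.exp_log hr0]
  -- ratio
  have h2 : (1 + 121 / 100 * θ) * (1 - p) ^ s ≤ Real.exp (-(θ / (4 * r))) := by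
    have h3 : (1 + 121 / 100 * θ) / r ≤ Real.exp (-(29 / 100 * θ / r)) := by
      have h4 : (1 + 121 / 100 * θ) / r = 1 - 29 / 100 * θ / r := by
        rw [hr]; field_simp; ring
      rw [h4]
      have := Real.add_one_le_exp (-(29 / 100 * θ / r))
      linarith
    have h5 : p ≤ 4 / 100 * θ / r := by
      rw [le_div_iff₀ hr0, hpd]
      unfold lev
      rw [div_mul_eq_mul_div, div_le_iff₀ hn]
      have h6 := N.h1
      have h7 := N.r_le
      rw [← hr] at h7
      set A : ℝ := 1 + 8 * Real.log n with hA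
      have h8 : (1 + θ) * r ≤ A ^ 2 := by
        rw [sq]
        apply mul_le_mul (by linarith) h7 hr0.le (by linarith)
      nlinarith
    calc (1 + 121 / 100 * θ) * (1 - p) ^ s ≤ (1 + 121 / 100 * θ) * (Real.exp p / r) := by
          apply mul_le_mul_of_nonneg_left h1 (by positivity)
      _ = (1 + 121 / 100 * θ) / r * Real.exp p := by ring
      _ ≤ Real.exp (-(29 / 100 * θ / r)) * Real.exp (4 / 100 * θ / r) := by
          apply mul_le_mul h3 (Real.exp_le_exp.2 h5) (Real.exp_pos _).le (Real.exp_pos _).le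
      _ = Real.exp (-(θ / (4 * r))) := by
          rw [← Real.exp_add]
          congr 1
          field_simp
          ring
  have h3 : (n : ℝ) ^ (m + 2) * (p' ^ m * (1 - p) ^ (s * (m + 1))) =
      (n : ℝ) ^ 2 * ((1 + 121 / 100 * θ) * (1 - p) ^ s) ^ m * (1 - p) ^ s := by
    rw [← hnp', mul_pow, mul_pow, pow_add, pow_mul, pow_succ ((1 - p) ^ s) m]
    ring
  rw [h3]
  have h4 : (1 - p) ^ s ≤ 1 := pow_le_one₀ (by linarith) (by linarith)
  have h5 : ((1 + 121 / 100 * θ) * (1 - p) ^ s) ^ m ≤ 1 / (n : ℝ) ^ 4 := by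
    have hnn : 0 ≤ (1 + 121 / 100 * θ) * (1 - p) ^ s := by
      have : 0 ≤ 1 - p := by linarith
      positivity
    calc ((1 + 121 / 100 * θ) * (1 - p) ^ s) ^ m ≤ Real.exp (-(θ / (4 * r))) ^ m :=
          pow_le_pow_left₀ hnn h2 m
      _ = Real.exp (-(m * (θ / (4 * r)))) := by rw [← Real.exp_nat_mul]; ring_nf
      _ ≤ Real.exp (-(4 * Real.log n)) := by
          apply Real.exp_le_exp.2
          apply neg_le_neg
          have h6 : 4 * Real.log n = 16 * Real.log n * r / θ * (θ / (4 * r)) := by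
            field_simp
            ring
          rw [h6]
          apply mul_le_mul_of_nonneg_right hm (by positivity)
      _ = 1 / (n : ℝ) ^ 4 := by
          rw [Real.exp_neg, one_div]
          congr 1
          rw [show 4 * Real.log (n : ℝ) = ((4 : ℕ) : ℝ) * Real.log n by norm_num,
            Real.exp_nat_mul, Real.exp_log hn]
  calc (n : ℝ) ^ 2 * ((1 + 121 / 100 * θ) * (1 - p) ^ s) ^ m * (1 - p) ^ s
      ≤ (n : ℝ) ^ 2 * (1 / (n : ℝ) ^ 4) * 1 := by
        apply mul_le_mul _ h4 (pow_nonneg (by linarith) _) (by positivity)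
        exact mul_le_mul_of_nonneg_left h5 (by positivity)
    _ = 1 / (n : ℝ) ^ 2 := by field_simp

end Num

end Pool.Agent.W842.RST
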