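import Pool.Agent.W842.RST.Params

/-!
# The estimates at the first and the last level
-/

set_option autoImplicit false

namespace Pool.Agent.W842.RST

open Finset MeasureTheory

namespace Par

variable {γ : ℝ} {n : ℕ} {x y : ℝ} (P : Par γ n x y)

include P

theorem lev'_pos : 0 < lev n (11 / 10 * (x / y)) := by
  have := P.θ_pos
  have := P.n_pos
  unfold lev
  positivity

theorem n_big : 1000000 ≤ (n : ℝ) := P.y_big.trans P.y_le

theorem lev'_le : lev n (11 / 10 * (x / y)) ≤ 1 / 100 := by
  have := P.θ_le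
  have h := P.n_big
  unfold lev
  rw [div_le_div_iff₀ P.n_pos (by norm_num)]
  linarith

theorem lev'_small : lev n (11 / 10 * (x / y)) * 3 ≤ 9 / 10 * (x / y) := by
  have h1 := P.θ_le
  have h := P.nθ_ge
  have h2 := P.x_big
  have hn := P.n_pos
  have hθ := P.θ_pos
  unfold lev
  rw [div_mul_eq_mul_div, div_le_iff₀ hn]
  nlinarith

/-- `h = ⌊1/θ⌋` -/
theorem floor_le : (⌊y / x⌋₊ : ℝ) ≤ y / x :=
  Nat.floor_le (div_nonneg P.y_pos.le P.x_pos.le)

theorem floor_ge : y / x / 2 ≤ (⌊y / x⌋₊ : ℝ) := by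
  have h1 : 1 ≤ y / x := by rw [le_div_iff₀ P.x_pos]; linarith [P.hxy]
  have h2 := (Nat.lt_floor_add_one (y / x)).le
  have h3 : 1 ≤ ⌊y / x⌋₊ := Nat.le_floor (by push_cast; exact h1)
  have h4 : (1 : ℝ) ≤ (⌊y / x⌋₊ : ℝ) := by exact_mod_cast h3
  linarith

theorem main_ge : y ≤ n * x ^ 3 / y ^ 2 := by
  have hx := P.x_big
  have hy := P.y_pos
  rw [le_div_iff₀ (by positivity)]
  have h1 := P.hy
  have h2 : (1 : ℝ) ≤ x ^ 3 := one_le_pow₀ (by linarith)
  have hn := P.n_pos
  calc y * y ^ 2 = y ^ 3 := by ring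
    _ ≤ (n : ℝ) * 1 := by linarith
    _ ≤ (n : ℝ) * x ^ 3 := mul_le_mul_of_nonneg_left h2 hn.le

/-- there is no long path at the first level -/
theorem long : env n {U | LP ⌈n * x ^ 3 / y ^ 2⌉₊ (open Classical in
    (edg (univ : Finset (Fin n))).filter (fun e => U e ≤ lev n (11 / 10 * (x / y))))} ≤
    ENNReal.ofReal (1800 / x) := by
  classical
  have hx := P.x_pos
  have hy := P.y_pos
  have hn := P.n_pos
  have hθ := P.θ_pos
  have hθ1 := P.θ_le
  set p' := lev n (11 / 10 * (x / y)) with hp'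
  have hp'0 := P.lev'_pos
  have hp'1 := P.lev'_le
  rw [← hp'] at hp'0 hp'1
  set K := ⌈n * x ^ 3 / y ^ 2⌉₊ with hK
  set h := ⌊y / x⌋₊ with hh
  have hK1 : n * x ^ 3 / y ^ 2 ≤ K := Nat.le_ceil _
  have hKy := P.main_ge
  have hh1 := P.floor_le
  have hh2 := P.floor_ge
  rw [← hh] at hh1 hh2
  have h4h : 4 * (h : ℝ) ≤ K := by
    have : y / x * 4 ≤ y := by
      rw [div_mul_eq_mul_div, div_le_iff₀ hx]
      have := P.x_big
      nlinarith
    linarith
  refine (env_le_pr hp'0.le (by linarith) (edg (univ : Finset (Fin n))) (LP K)).trans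
    (ENNReal.ofReal_le_ofReal ?_)
  have hKh : 2 * h ≤ K := by
    have : ((2 * h : ℕ) : ℝ) ≤ K := by
      push_cast
      have : (0 : ℝ) ≤ h := Nat.cast_nonneg _
      linarith
    exact_mod_cast this
  have key := LP_bound (V := Fin n) (p := p') hp'0.le (by linarith) K h hKh
  rw [Fintype.card_fin] at key
  set c : ℝ := n * (-Real.log (1 - p')) with hc
  set τ : ℝ := 1 + 2 * (x / y) with hτ
  have hc0 : 0 ≤ c := by
    have : Real.log (1 - p') ≤ 0 := Real.log_nonpos (by linarith) (by linarith)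
    rw [hc]
    apply mul_nonneg hn.le
    linarith
  have hcτ : c ≤ τ := by
    have h1 := Real.one_sub_inv_le_log_of_pos (show 0 < 1 - p' by linarith)
    have h2 : -Real.log (1 - p') ≤ p' / (1 - p') := by
      have : p' / (1 - p') = (1 - p')⁻¹ - 1 := by
        have : 1 - p' ≠ 0 := by linarith
        field_simp
        ring
      linarith
    have h3 : c ≤ n * (p' / (1 - p')) := mul_le_mul_of_nonneg_left h2 hn.le
    refine h3.trans ?_
    rw [mul_div_assoc', div_le_iff₀ (by linarith)]
    have h4 : n * p' = 1 + 11 / 10 * (x / y) := by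
      rw [hp']; unfold lev; field_simp
    have h5 := P.lev'_small
    rw [← hp'] at h5
    rw [h4, hτ]
    nlinarith
  have hQ := Qb_le hc0 hcτ (by rw [hτ]; linarith) h
  have hQ0 := Qb_nonneg hc0 h
  set Q := Qb c h with hQd
  have hτh : τ ^ h ≤ 15 / 2 := by
    have h1 : τ ≤ Real.exp (2 * (x / y)) := by
      have := Real.add_one_le_exp (2 * (x / y)); rw [hτ]; linarith
    have h2 : τ ^ h ≤ Real.exp 2 := by
      calc τ ^ h ≤ Real.exp (2 * (x / y)) ^ h := pow_le_pow_left₀ (by rw [hτ]; positivity) h1 _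
        _ = Real.exp (h * (2 * (x / y))) := by rw [← Real.exp_nat_mul]
        _ ≤ Real.exp 2 := by
          apply Real.exp_le_exp.2
          calc (h : ℝ) * (2 * (x / y)) ≤ y / x * (2 * (x / y)) :=
                mul_le_mul_of_nonneg_right hh1 (by positivity)
            _ = 2 := by field_simp
    have h3 : Real.exp 2 ≤ 15 / 2 := by
      have h4 := Real.exp_one_lt_d9
      have h5 : Real.exp 2 = Real.exp 1 * Real.exp 1 := by rw [← Real.exp_add]; norm_num
      have h6 := Real.exp_pos 1
      rw [h5]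
      nlinarith
    linarith
  have hQ2 : Q ≤ 30 * (x / y) := by
    have h1 : y / x / 2 * Q ≤ 15 := by
      have : y / x / 2 * Q ≤ h * Q := mul_le_mul_of_nonneg_right hh2 hQ0
      linarith
    have h2 : Q = (x / y) * 2 * (y / x / 2 * Q) := by field_simp
    rw [h2]
    nlinarith
  have hpr : 0 ≤ pr p' (edg (univ : Finset (Fin n))) (LP K) := pr_nonneg hp'0.le (by linarith) _ _
  set R := pr p' (edg (univ : Finset (Fin n))) (LP K) with hR
  have h1 : n * x ^ 3 / y ^ 2 / 2 * R ≤ 900 * n * (x / y) ^ 2 := by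
    calc n * x ^ 3 / y ^ 2 / 2 * R ≤ ((K : ℝ) + 1 - 2 * h) * R := by
          apply mul_le_mul_of_nonneg_right _ hpr
          linarith
      _ ≤ n * Q ^ 2 := key
      _ ≤ n * (30 * (x / y)) ^ 2 := by
          apply mul_le_mul_of_nonneg_left _ hn.le
          exact pow_le_pow_left₀ hQ0 hQ2 2
      _ = 900 * n * (x / y) ^ 2 := by ring
  have h2 : n * x ^ 3 / y ^ 2 / 2 * R = n * (x / y) ^ 2 / 2 * (x * R) := by field_simp
  have h3 : 0 < n * (x / y) ^ 2 / 2 := by positivity
  rw [h2] at h1
  have h4 : x * R ≤ 1800 := by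
    by_contra hcon
    push Not at hcon
    have : n * (x / y) ^ 2 / 2 * 1800 < n * (x / y) ^ 2 / 2 * (x * R) :=
      mul_lt_mul_of_pos_left hcon h3
    linarith
  rw [le_div_iff₀ hx]
  linarith

theorem siz_big : n * (x / y) / 10 ≤ siz n (x / y) := by
  have hθ := P.θ_pos
  have hθ1 := P.θ_le
  have hn := P.n_pos
  have hL := P.hL
  have N := P.num le_rfl (by linarith)
  have h1 := N.p_siz_ge
  have h2 := N.log_r_ge
  have h3 : 2 / 5 * (x / y) ≤ x / y / (1 + 3 / 2 * (x / y)) := by
    rw [le_div_iff₀ (by positivity)]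
    nlinarith
  have h4 : 2 / 5 * (x / y) - lev n (x / y) ≤ lev n (x / y) * siz n (x / y) := by linarith
  have h5 : lev n (x / y) ≤ 2 / n := by
    unfold lev
    apply div_le_div_of_nonneg_right _ hn.le
    linarith
  have h6 : 2 / 5 * (x / y) - 2 / n ≤ 2 / n * siz n (x / y) := by
    have h7 : (0 : ℝ) ≤ siz n (x / y) := Nat.cast_nonneg _
    nlinarith
  have h7 : 2 / 5 * (n * (x / y)) - 2 ≤ 2 * siz n (x / y) := by
    have h8 : (2 / 5 * (x / y) - 2 / n) * n ≤ (2 / n * siz n (x / y)) * n :=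
      mul_le_mul_of_nonneg_right h6 hn.le
    have e1 : (2 / 5 * (x / y) - 2 / n) * n = 2 / 5 * (n * (x / y)) - 2 := by
      field_simp
    have e2 : (2 / n * siz n (x / y)) * n = 2 * (siz n (x / y) : ℝ) := by
      field_simp
    linarith
  have h8 := P.nθ_ge
  have h9 := P.x_big
  linarith

/-- few pairs are at a small distance at the first level -/
theorem short : env n {U | (siz n (x / y)) ^ 2 ≤
    (shortPairs (GU U (lev n (11 / 10 * (x / y)))) ⌊y / x⌋₊).card} ≤
    ENNReal.ofReal (640 / x) := by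
  classical
  have hx := P.x_pos
  have hy := P.y_pos
  have hn := P.n_pos
  have hθ := P.θ_pos
  have hθ1 := P.θ_le
  set p' := lev n (11 / 10 * (x / y)) with hp'
  have hp'0 := P.lev'_pos
  have hp'1 := P.lev'_le
  rw [← hp'] at hp'0 hp'1
  set l := ⌊y / x⌋₊ with hl
  have hl1 := P.floor_le
  rw [← hl] at hl1
  set M : ℝ := (((siz n (x / y)) ^ 2 : ℕ) : ℝ) with hM
  have h1 := env_le_pr hp'0.le (by linarith : p' ≤ 1) (edg (univ : Finset (Fin n)))
    (fun S => M ≤ ((shortPairs (gr S) l).card : ℝ))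
  refine le_trans ?_ (h1.trans (ENNReal.ofReal_le_ofReal ?_))
  · apply measure_mono
    intro U hU
    simp only [Set.mem_ofPred_eq] at hU ⊢
    have he : ∀ (S : Finset (Sym2 (Fin n))), gr S = GU U p' →
        shortPairs (gr S) l = shortPairs (GU U p') l := by
      intro S hS
      rw [hS]
    rw [he _ (by convert gr_filter U p')]
    rw [hM]
    exact_mod_cast hU
  · have key := short_le (n := n) hp'0.le (by linarith : p' ≤ 1) l M
    set R := pr p' (edg (univ : Finset (Fin n))) (fun S => M ≤ ((shortPairs (gr S) l).card : ℝ))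
      with hR
    have hnp : n * p' = 1 + 11 / 10 * (x / y) := by rw [hp']; unfold lev; field_simp
    have h2 : ∑ j ∈ range (l + 1), (n : ℝ) ^ (j + 1) * p' ^ j ≤ (l + 1) * (n * (16 / 5)) := by
      have h3 : ∀ j ∈ range (l + 1), (n : ℝ) ^ (j + 1) * p' ^ j ≤ n * (16 / 5) := by
        intro j hj
        have hj' : j ≤ l := by have := Finset.mem_range.1 hj; omega
        have e1 : (n : ℝ) ^ (j + 1) * p' ^ j = n * (1 + 11 / 10 * (x / y)) ^ j := by
          rw [← hnp, mul_pow]; ring
        rw [e1]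
        apply mul_le_mul_of_nonneg_left _ hn.le
        have h4 : 1 + 11 / 10 * (x / y) ≤ Real.exp (11 / 10 * (x / y)) := by
          have := Real.add_one_le_exp (11 / 10 * (x / y)); linarith
        calc (1 + 11 / 10 * (x / y)) ^ j ≤ Real.exp (11 / 10 * (x / y)) ^ j :=
              pow_le_pow_left₀ (by positivity) h4 _
          _ = Real.exp (j * (11 / 10 * (x / y))) := by rw [← Real.exp_nat_mul]
          _ ≤ Real.exp (11 / 10) := by
            apply Real.exp_le_exp.2
            have hjl : (j : ℝ) ≤ y / x := le_trans (by exact_mod_cast hj') hl1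
            calc (j : ℝ) * (11 / 10 * (x / y)) ≤ y / x * (11 / 10 * (x / y)) :=
                  mul_le_mul_of_nonneg_right hjl (by positivity)
              _ = 11 / 10 := by field_simp
          _ ≤ 16 / 5 := by
            have h5 := Real.exp_one_lt_d9
            have h6 : Real.exp (11 / 10) = Real.exp 1 * Real.exp (1 / 10) := by
              rw [← Real.exp_add]; norm_num
            have h7 : Real.exp (1 / 10) ≤ 1 / (1 - 1 / 10) :=
              Real.exp_bound_div_one_sub_of_interval (by norm_num) (by norm_num)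
            have h8 := Real.exp_pos 1
            have h9 := Real.exp_pos (1 / 10)
            rw [h6]
            norm_num at h7
            nlinarith
      have h4 := Finset.sum_le_card_nsmul _ _ _ h3
      rw [Finset.card_range, nsmul_eq_mul] at h4
      push_cast at h4
      exact h4
    have h3 : (n * (x / y) / 10) ^ 2 ≤ M := by
      rw [hM]
      push_cast
      exact pow_le_pow_left₀ (by positivity) P.siz_big 2
    have hR0 : 0 ≤ R := pr_nonneg hp'0.le (by linarith) _ _
    have h4 : (n * (x / y) / 10) ^ 2 * R ≤ 2 * (y / x) * (n * (16 / 5)) := by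
      have h5 : (n * (x / y) / 10) ^ 2 * R ≤ M * R := mul_le_mul_of_nonneg_right h3 hR0
      have h6 : 1 ≤ y / x := by rw [le_div_iff₀ hx]; linarith [P.hxy]
      have h7 : ((l : ℝ) + 1) * (n * (16 / 5)) ≤ 2 * (y / x) * (n * (16 / 5)) := by
        apply mul_le_mul_of_nonneg_right _ (by positivity)
        linarith
      linarith
    -- n^2 x^2/y^2 /100 R ≤ 6.4 n y / x  so R ≤ 640 y^3/(n x^3)
    have h5 : n * x ^ 3 * R ≤ 640 * y ^ 3 := by
      have e1 : (n * (x / y) / 10) ^ 2 * R = (n / (100 * x * y ^ 2)) * (n * x ^ 3 * R) := by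
        field_simp
        ring
      have e2 : 2 * (y / x) * (n * (16 / 5)) = (n / (100 * x * y ^ 2)) * (640 * y ^ 3) := by
        field_simp
        ring
      rw [e1, e2] at h4
      exact le_of_mul_le_mul_left h4 (by positivity)
    have h6 : n * (x ^ 3 * R) ≤ n * 640 := by
      have := P.hy
      nlinarith
    have h7 : x ^ 3 * R ≤ 640 := le_of_mul_le_mul_left h6 hn
    have h8 : x * R ≤ x ^ 3 * R := by
      apply mul_le_mul_of_nonneg_right _ hR0
      have := P.x_big
      calc x = x * 1 := by ring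
        _ ≤ x * x ^ 2 := by
          apply mul_le_mul_of_nonneg_left _ hx.le
          nlinarith
        _ = x ^ 3 := by ring
    rw [le_div_iff₀ hx]
    linarith

/-- the graph is connected at the last level -/
theorem conn {θ : ℝ} (h : 4 * Real.log n ≤ θ) (h' : θ ≤ 5 * Real.log n) :
    env n {U | ¬ (GU U (lev n θ)).Preconnected} ≤ ENNReal.ofReal (2 / n) := by
  have hn := P.n_pos
  have hL := P.hL
  have hθ1 := P.θ_le
  have N := P.num (by linarith : x / y ≤ θ) h'
  have hp := N.lev_pos
  have hp1 := N.lev_lt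
  refine (conn_le hp.le (by linarith)).trans (ENNReal.ofReal_le_ofReal ?_)
  have h1 : (n : ℝ) * (1 - lev n θ) ^ ((n + 1) / 2) ≤ 1 / n := by
    have h2 : 1 - lev n θ ≤ Real.exp (-lev n θ) := by
      have := Real.add_one_le_exp (-lev n θ); linarith
    have h3 : (1 - lev n θ) ^ ((n + 1) / 2) ≤ Real.exp (-(2 * Real.log n)) := by
      calc (1 - lev n θ) ^ ((n + 1) / 2) ≤ Real.exp (-lev n θ) ^ ((n + 1) / 2) :=
            pow_le_pow_left₀ (by linarith) h2 _
        _ = Real.exp (((n + 1) / 2 : ℕ) * (-lev n θ)) := by rw [← Real.exp_nat_mul]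
        _ ≤ Real.exp (-(2 * Real.log n)) := by
          apply Real.exp_le_exp.2
          have h4 : (n : ℝ) / 2 ≤ ((n + 1) / 2 : ℕ) := by
            have : n ≤ 2 * ((n + 1) / 2) := by omega
            have h5 : (n : ℝ) ≤ 2 * (((n + 1) / 2 : ℕ) : ℝ) := by exact_mod_cast this
            linarith
          have h5 : (n : ℝ) / 2 * lev n θ = (1 + θ) / 2 := by unfold lev; field_simp
          have h6 : (n : ℝ) / 2 * lev n θ ≤ ((n + 1) / 2 : ℕ) * lev n θ :=
            mul_le_mul_of_nonneg_right h4 hp.le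
          nlinarith
    have h4 : Real.exp (-(2 * Real.log n)) = 1 / (n : ℝ) ^ 2 := by
      rw [Real.exp_neg, one_div]
      congr 1
      rw [show 2 * Real.log (n : ℝ) = ((2 : ℕ) : ℝ) * Real.log n by norm_num,
            Real.exp_nat_mul, Real.exp_log hn]
    rw [h4] at h3
    calc (n : ℝ) * (1 - lev n θ) ^ ((n + 1) / 2) ≤ n * (1 / (n : ℝ) ^ 2) :=
          mul_le_mul_of_nonneg_left h3 hn.le
      _ = 1 / n := by field_simp
  have hbig := P.n_big
  have h2 : (1 : ℝ) / n ≤ 1 / 2 := by
    apply one_div_le_one_div_of_le (by norm_num)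
    linarith
  have h0 : 0 < (1 : ℝ) / n := by positivity
  have h3 : Real.exp (n * (1 - lev n θ) ^ ((n + 1) / 2)) ≤ Real.exp (1 / n) :=
    Real.exp_le_exp.2 h1
  have h4 : Real.exp (1 / (n : ℝ)) ≤ 1 / (1 - 1 / n) :=
    Real.exp_bound_div_one_sub_of_interval h0.le (by linarith)
  have h5 : 1 / (1 - 1 / (n : ℝ)) ≤ 1 + 2 * (1 / n) := by
    rw [div_le_iff₀ (by linarith)]
    nlinarith
  have h6 : 2 * (1 / (n : ℝ)) = 2 / n := by ring
  linarith

end Par

end Pool.Agent.W842.RST
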