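import Pool.Agent.W842.RST.Levels
import Pool.Agent.W842.RST.Gibbs

/-!
# The parameters
-/

set_option autoImplicit false

namespace Pool.Agent.W842.RST

open Finset MeasureTheory

/-- standing assumptions: `x` is a large factor, `y ≤ n ^ (1/3)`, the first level is `x / y` -/
structure Par (γ : ℝ) (n : ℕ) (x y : ℝ) : Prop where
  γ0 : 0 < γ
  hL : 1 ≤ Real.log n
  hx : 1000000 * (1 + 8 * Real.log n) ^ 6 ≤ x
  hxy : x ≤ y
  hy : y ^ 3 ≤ n
  hyγ : y ≤ (n : ℝ) ^ γ
  ht : 126 * (1 + γ) * Real.log n * (1 + 5 * Real.log n) ^ γ ≤ γ * x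

namespace Par

variable {γ : ℝ} {n : ℕ} {x y : ℝ} (P : Par γ n x y)

include P

theorem A6 : 1 ≤ (1 + 8 * Real.log n) ^ 6 := one_le_pow₀ (by have := P.hL; linarith)

theorem x_big : 1000000 ≤ x := by
  have := P.A6
  have := P.hx
  linarith

theorem x_big2 : 1000000 * (1 + 8 * Real.log n) ^ 2 ≤ x := by
  have h := P.hx
  have hA : 1 ≤ 1 + 8 * Real.log n := by have := P.hL; linarith
  have : (1 + 8 * Real.log n) ^ 2 ≤ (1 + 8 * Real.log n) ^ 6 := pow_le_pow_right₀ hA (by norm_num)
  linarith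

theorem y_big : 1000000 ≤ y := P.x_big.trans P.hxy

theorem y_le : y ≤ n := by
  have h := P.hy
  have h1 := P.y_big
  have : y * 1 ≤ y * y ^ 2 := by
    apply mul_le_mul_of_nonneg_left _ (by linarith)
    nlinarith
  nlinarith

theorem n_pos : (0 : ℝ) < n := by have := P.y_big; have := P.y_le; linarith

theorem x_pos : 0 < x := by have := P.x_big; linarith

theorem y_pos : 0 < y := by have := P.y_big; linarith

theorem θ_pos : 0 < x / y := div_pos P.x_pos P.y_pos

theorem θ_le : x / y ≤ 1 := by rw [div_le_one P.y_pos]; exact P.hxy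

theorem nθ_ge : x ≤ n * (x / y) := by
  rw [← mul_div_assoc, le_div_iff₀ P.y_pos]
  have := P.y_le
  have := P.x_pos
  nlinarith

theorem num {θ : ℝ} (h : x / y ≤ θ) (h' : θ ≤ 5 * Real.log n) : Num n θ := by
  have hθ := P.θ_pos
  have hn := P.n_pos
  have hL := P.hL
  have hx2 := P.x_big2
  have hxp := P.x_pos
  have hyp := P.y_pos
  have h1 := P.nθ_ge
  have h2 : n * (x / y) ≤ n * θ := mul_le_mul_of_nonneg_left h hn.le
  have hA2 : 0 < (1 + 8 * Real.log n) ^ 2 := by positivity
  refine ⟨by linarith, hL, h', by linarith, ?_, ?_⟩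
  · have := P.y_le
    have := P.hxy
    linarith
  · have h3 : n * (x / y) ^ 3 ≤ n * θ ^ 3 :=
      mul_le_mul_of_nonneg_left (pow_le_pow_left₀ hθ.le h 3) hn.le
    refine le_trans ?_ h3
    have h4 : x ≤ n * (x / y) ^ 3 := by
      have hyy := P.hy
      have h5 : n * (x / y) ^ 3 = (n / y ^ 3) * x ^ 3 := by field_simp
      have h6 : 1 ≤ n / y ^ 3 := by rw [le_div_iff₀ (by positivity)]; linarith
      rw [h5]
      have h7 : x ≤ x ^ 3 := by
        have : x * 1 ≤ x * x ^ 2 := by
          apply mul_le_mul_of_nonneg_left _ hxp.le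
          have := P.x_big
          nlinarith
        nlinarith
      calc x ≤ 1 * x ^ 3 := by linarith
        _ ≤ n / y ^ 3 * x ^ 3 := mul_le_mul_of_nonneg_right h6 (by positivity)
    refine le_trans ?_ h4
    refine le_trans ?_ P.hx
    set A := 1 + 8 * Real.log n with hA
    have hA1 : 1 ≤ A := by rw [hA]; linarith
    have hLA : Real.log n ≤ A ^ 2 := by
      have : A ≤ A ^ 2 := by nlinarith
      linarith
    calc 16000 * Real.log n * A ^ 4 ≤ 16000 * A ^ 2 * A ^ 4 := by
          apply mul_le_mul_of_nonneg_right _ (by positivity)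
          linarith
      _ = 16000 * A ^ 6 := by ring
      _ ≤ 1000000 * A ^ 6 := by
          have : 0 ≤ A ^ 6 := by positivity
          linarith

theorem thermal {θ : ℝ} (h : x / y ≤ θ) (h' : θ ≤ 5 * Real.log n) :
    6 * Real.log n ≤ (lev n θ) ^ (-γ) - (lev n (11 / 10 * θ)) ^ (-γ) := by
  have N := P.num h h'
  have hθ0 := P.θ_pos
  have hθ : 0 < θ := N.hθ
  have hθ1 := P.θ_le
  have hn := P.n_pos
  have hL := P.hL
  have hγ := P.γ0
  set t := lev n θ with htd
  set t' := lev n (11 / 10 * θ) with htd'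
  have ht : 0 < t := N.lev_pos
  have ht' : 0 < t' := by rw [htd']; unfold lev; positivity
  have hu : 0 < t ^ γ := Real.rpow_pos_of_pos ht _
  have hu' : 0 < t' ^ γ := Real.rpow_pos_of_pos ht' _
  set z : ℝ := 1 / 10 * θ / (1 + 11 / 10 * θ) with hz
  have hz0 : 0 < z := by positivity
  have hz1 : z ≤ 1 := by
    rw [hz, div_le_one (by positivity)]
    linarith
  have hr : t / t' = 1 - z := by
    rw [htd, htd', hz]; unfold lev; field_simp; ring
  have hr0 : 0 < t / t' := div_pos ht ht'
  have h1 : (t / t') ^ γ ≤ Real.exp (-(γ * z)) := by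
    have h2 : t / t' ≤ Real.exp (-z) := by
      rw [hr]; have := Real.add_one_le_exp (-z); linarith
    calc (t / t') ^ γ ≤ (Real.exp (-z)) ^ γ := Real.rpow_le_rpow hr0.le h2 hγ.le
      _ = Real.exp (-(γ * z)) := by rw [← Real.exp_mul]; ring_nf
  have h2 : Real.exp (-(γ * z)) ≤ 1 - γ * z / (1 + γ) := by
    have h3 := Real.add_one_le_exp (γ * z)
    have h4 : Real.exp (-(γ * z)) ≤ 1 / (1 + γ * z) := by
      rw [Real.exp_neg, ← one_div]
      apply one_div_le_one_div_of_le (by positivity)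
      linarith
    refine h4.trans ?_
    have h5 : γ * z / (1 + γ) ≤ γ * z / (1 + γ * z) := by
      apply div_le_div_of_nonneg_left (by positivity) (by positivity)
      nlinarith
    have h6 : 1 / (1 + γ * z) = 1 - γ * z / (1 + γ * z) := by field_simp; ring
    linarith
  have h3 : (t ^ (-γ) - t' ^ (-γ)) = (t ^ γ)⁻¹ * (1 - (t / t') ^ γ) := by
    rw [Real.rpow_neg ht.le, Real.rpow_neg ht'.le, Real.div_rpow ht.le ht'.le]
    field_simp
  rw [h3]
  have h4 : z ≥ x / y / 21 := by
    rw [hz, ge_iff_le, div_le_div_iff₀ (by norm_num) (by positivity)]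
    nlinarith
  have h5 : y / (1 + 5 * Real.log n) ^ γ ≤ (t ^ γ)⁻¹ := by
    have h6 : t ^ γ = (1 + θ) ^ γ / (n : ℝ) ^ γ := by
      rw [htd]; unfold lev; rw [Real.div_rpow (by linarith) hn.le]
    rw [h6, inv_div]
    have h7 : (0 : ℝ) < (1 + θ) ^ γ := Real.rpow_pos_of_pos (by linarith) _
    have h8 : (1 + θ) ^ γ ≤ (1 + 5 * Real.log n) ^ γ :=
      Real.rpow_le_rpow (by linarith) (by linarith) hγ.le
    apply div_le_div₀ (Real.rpow_nonneg hn.le _) P.hyγ h7 h8
  have h6 : γ * (x / y / 21) / (1 + γ) ≤ 1 - (t / t') ^ γ := by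
    have : γ * (x / y / 21) / (1 + γ) ≤ γ * z / (1 + γ) := by
      apply div_le_div_of_nonneg_right _ (by linarith)
      apply mul_le_mul_of_nonneg_left h4 hγ.le
    linarith
  have h7 : 0 < (1 + 5 * Real.log n) ^ γ := Real.rpow_pos_of_pos (by linarith) _
  have hy := P.y_pos
  have hx := P.x_pos
  calc 6 * Real.log n ≤ y / (1 + 5 * Real.log n) ^ γ * (γ * (x / y / 21) / (1 + γ)) := by
        have h8 : y / (1 + 5 * Real.log n) ^ γ * (γ * (x / y / 21) / (1 + γ)) =
            γ * x / (21 * (1 + γ) * (1 + 5 * Real.log n) ^ γ) := by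
          field_simp
        rw [h8, le_div_iff₀ (by positivity)]
        have := P.ht
        linarith
    _ ≤ _ := by
        apply mul_le_mul h5 h6 (by positivity)
        exact inv_nonneg.2 hu.le

/-- the number of levels -/
theorem levels : ∃ N : ℕ, 4 * Real.log n ≤ x / y * (11 / 10) ^ N ∧
    x / y * (11 / 10) ^ N ≤ 5 * Real.log n ∧ (N : ℝ) ≤ 12 * Real.log n := by
  classical
  have hθ0 := P.θ_pos
  have hθ1 := P.θ_le
  have hL := P.hL
  have hn := P.n_pos
  have hex : ∃ N : ℕ, 4 * Real.log n ≤ x / y * (11 / 10) ^ N := by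
    obtain ⟨N, hN⟩ := pow_unbounded_of_one_lt (4 * Real.log n / (x / y))
      (show (1 : ℝ) < 11 / 10 by norm_num)
    refine ⟨N, ?_⟩
    rw [div_lt_iff₀ hθ0] at hN
    linarith
  have hfind := Nat.find_spec hex
  set N := Nat.find hex with hN
  have hN0 : 0 < N := by
    by_contra hcon
    have : N = 0 := by omega
    rw [this] at hfind
    simp at hfind
    linarith
  have hprev := Nat.find_min hex (m := N - 1) (by omega)
  push Not at hprev
  have hstep : (11 / 10 : ℝ) ^ N = (11 / 10) ^ (N - 1) * (11 / 10) := by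
    rw [← pow_succ]; congr 1; omega
  refine ⟨N, hfind, ?_, ?_⟩
  · rw [hstep, ← mul_assoc]
    linarith
  · have h1 : (11 / 10 : ℝ) ^ (N - 1) ≤ n := by
      have h2 : (11 / 10 : ℝ) ^ (N - 1) ≤ 4 * Real.log n / (x / y) := by
        rw [le_div_iff₀ hθ0]; linarith
      refine h2.trans ?_
      have h3 : 4 * Real.log n / (x / y) = 4 * Real.log n / x * y := by
        have := P.x_pos
        have := P.y_pos
        field_simp
      rw [h3]
      have h4 : 4 * Real.log n / x ≤ 1 := by
        rw [div_le_one P.x_pos]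
        have := P.x_big2
        nlinarith
      have h5 : 0 ≤ y := P.y_pos.le
      calc 4 * Real.log n / x * y ≤ 1 * y := mul_le_mul_of_nonneg_right h4 h5
        _ ≤ n := by have := P.y_le; linarith
    have h2 : ((N - 1 : ℕ) : ℝ) * Real.log (11 / 10) ≤ Real.log n := by
      rw [← Real.log_pow]
      exact Real.log_le_log (by positivity) h1
    have h3 : (1 / 11 : ℝ) ≤ Real.log (11 / 10) := by
      have := Real.one_sub_inv_le_log_of_pos (show (0 : ℝ) < 11 / 10 by norm_num)
      norm_num at this ⊢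
      linarith
    have h4 : ((N - 1 : ℕ) : ℝ) * (1 / 11) ≤ Real.log n := by
      refine le_trans ?_ h2
      apply mul_le_mul_of_nonneg_left h3 (Nat.cast_nonneg _)
    have h5 : (N : ℝ) = ((N - 1 : ℕ) : ℝ) + 1 := by
      have : N = (N - 1) + 1 := by omega
      exact_mod_cast this
    rw [h5]
    linarith

end Par

end Pool.Agent.W842.RST
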