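import Pool.Agent.W842.RST.Avoid

/-!
# Exchange argument for the random tree
-/

set_option autoImplicit false

namespace Pool.Agent.W842.RST

open MeasureTheory Finset

/-- the tree connects every component of the graph at level `p` inside the graph at level `p'` -/
def Good {n : ℕ} (U : Sym2 (Fin n) → ℝ) (p p' : ℝ) (T : SimpleGraph (Fin n)) : Prop :=
  ∀ u v, (GU U p).Reachable u v → (T ⊓ GU U p').Reachable u v

theorem exists_leaving {V : Type*} {G : SimpleGraph V} (C : Set V) {u v : V} (w : G.Walk u v)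
    (hw : w.IsPath) (hu : u ∈ C) (hv : v ∉ C) :
    ∃ a b, G.Adj a b ∧ a ∈ C ∧ b ∉ C ∧ ∃ q : G.Walk b v, s(a, b) ∉ q.edges := by
  induction w with
  | nil => exact absurd hu hv
  | @cons u x v h w ih =>
    rw [SimpleGraph.Walk.cons_isPath_iff] at hw
    by_cases hx : x ∈ C
    · exact ih hw.1 hx hv
    · refine ⟨u, x, h, hu, hx, w, ?_⟩
      intro he
      exact hw.2 (w.fst_mem_support_of_mem_edges he)

theorem exchange {n : ℕ} (U : Sym2 (Fin n) → ℝ) {p p' : ℝ} (hp : p ≤ p')
    (T : SimpleGraph (Fin n)) (hT : T.IsTree) (hbad : ¬ Good U p p' T) :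
    ∃ (T' : SimpleGraph (Fin n)) (e f : Sym2 (Fin n)), T'.IsTree ∧ U e ≤ p ∧ p' < U f ∧
      f ∈ T.edgeSet ∧ e ∉ T.edgeSet ∧ T'.edgeSet = insert e (T.edgeSet \ {f}) := by
  classical
  -- an edge of the lower graph whose ends are not connected
  have h1 : ∃ u v, (GU U p).Adj u v ∧ ¬ (T ⊓ GU U p').Reachable u v := by
    by_contra hcon
    push Not at hcon
    apply hbad
    intro u v huv
    rw [SimpleGraph.reachable_iff_reflTransGen] at huv
    induction huv with
    | refl => exact SimpleGraph.Reachable.refl _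
    | tail _ hadj ih => exact ih.trans (hcon _ _ hadj)
  obtain ⟨u, v, huv, hnr⟩ := h1
  obtain ⟨w, hw⟩ := (hT.connected.preconnected u v).exists_isPath
  obtain ⟨a, b, hab, ha, hb, q, hq⟩ := exists_leaving {x | (T ⊓ GU U p').Reachable u x} w hw
    (SimpleGraph.Reachable.refl _) hnr
  simp only [Set.mem_ofPred_eq] at ha hb
  have hUf : p' < U s(a, b) := by
    by_contra hcon
    push Not at hcon
    apply hb
    refine ha.trans (SimpleGraph.Adj.reachable ?_)
    rw [SimpleGraph.inf_adj, GU_adj]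
    exact ⟨hab, hcon, hab.ne⟩
  rw [GU_adj] at huv
  have heT : s(u, v) ∉ T.edgeSet := by
    intro h
    apply hnr
    apply SimpleGraph.Adj.reachable
    rw [SimpleGraph.inf_adj, GU_adj]
    exact ⟨h, huv.1.trans hp, huv.2⟩
  set D := T.deleteEdges {s(a, b)} with hD
  set T' := D ⊔ SimpleGraph.fromEdgeSet {s(u, v)} with hT'
  have hset : T'.edgeSet = insert s(u, v) (T.edgeSet \ {s(a, b)}) := by
    ext e
    induction e using Sym2.ind with
    | _ x y =>
      rw [hT', hD, SimpleGraph.mem_edgeSet, SimpleGraph.sup_adj, SimpleGraph.deleteEdges_adj,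
        SimpleGraph.fromEdgeSet_adj, Set.mem_insert_iff, Set.mem_sdiff, SimpleGraph.mem_edgeSet,
        Set.mem_singleton_iff, Set.mem_singleton_iff]
      constructor
      · rintro (h | h)
        · exact Or.inr h
        · exact Or.inl h.1
      · rintro (h | h)
        · refine Or.inr ⟨h, ?_⟩
          rw [Sym2.eq_iff] at h
          rcases h with ⟨rfl, rfl⟩ | ⟨rfl, rfl⟩
          · exact huv.2
          · exact huv.2.symm
        · exact Or.inl h
  have hua : T'.Reachable u a := by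
    apply ha.mono
    refine le_trans ?_ le_sup_left
    intro x y hxy
    rw [SimpleGraph.inf_adj, GU_adj] at hxy
    rw [SimpleGraph.deleteEdges_adj]
    refine ⟨hxy.1, ?_⟩
    rw [Set.mem_singleton_iff]
    intro h
    rw [h] at hxy
    linarith [hxy.2.1]
  have hbv : T'.Reachable b v := by
    apply SimpleGraph.Reachable.mono (le_sup_left : D ≤ T')
    exact ⟨q.toDeleteEdges {s(a, b)} (by
      intro e he h
      rw [Set.mem_singleton_iff] at h
      exact hq (h ▸ he))⟩
  have huv' : T'.Reachable u v := by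
    apply SimpleGraph.Adj.reachable
    rw [hT', SimpleGraph.sup_adj, SimpleGraph.fromEdgeSet_adj]
    right
    exact ⟨rfl, huv.2⟩
  have hab' : T'.Reachable a b := hua.symm.trans (huv'.trans hbv.symm)
  have hadj : ∀ x y, T.Adj x y → T'.Reachable x y := by
    intro x y hxy
    by_cases h : s(x, y) = s(a, b)
    · rw [Sym2.eq_iff] at h
      rcases h with ⟨rfl, rfl⟩ | ⟨rfl, rfl⟩
      · exact hab'
      · exact hab'.symm
    · apply SimpleGraph.Adj.reachable
      rw [hT', SimpleGraph.sup_adj, hD, SimpleGraph.deleteEdges_adj]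
      exact Or.inl ⟨hxy, h⟩
  have hconn : T'.Connected := by
    have := hT.connected.nonempty
    refine ⟨fun x y => ?_⟩
    have := hT.connected.preconnected x y
    rw [SimpleGraph.reachable_iff_reflTransGen] at this
    induction this with
    | refl => exact SimpleGraph.Reachable.refl _
    | tail _ hxy ih => exact ih.trans (hadj _ _ hxy)
  refine ⟨T', s(u, v), s(a, b), ?_, huv.1, hUf, hab, heT, hset⟩
  rw [SimpleGraph.isTree_iff_connected_and_card]
  refine ⟨hconn, ?_⟩
  have hc := (SimpleGraph.isTree_iff_connected_and_card.1 hT).2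
  rw [← hc]
  congr 1
  have hnot : s(u, v) ∉ T.edgeSet \ {s(a, b)} := fun h => heT h.1
  have hab' : s(a, b) ∈ T.edgeSet := hab
  rw [Nat.card_coe_set_eq, Nat.card_coe_set_eq, hset,
    Set.ncard_insert_of_notMem hnot (Set.toFinite _),
    Set.ncard_sdiff_singleton_add_one hab' (Set.toFinite _)]

theorem treeWt_pos {n : ℕ} (γ : ℝ) (U : Sym2 (Fin n) → ℝ) (T : SimpleGraph (Fin n)) :
    0 < treeWt γ U T := by
  unfold treeWt
  exact Finset.prod_pos (fun e _ => Real.exp_pos _)

theorem treeWt_exchange {n : ℕ} (γ : ℝ) (hγ : 0 < γ) (U : Sym2 (Fin n) → ℝ)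
    (hU : ∀ e, 0 < U e) {p p' : ℝ} (hp' : 0 < p')
    (T T' : SimpleGraph (Fin n)) (e f : Sym2 (Fin n)) (he : U e ≤ p) (hf : p' < U f)
    (hfT : f ∈ T.edgeSet) (heT : e ∉ T.edgeSet)
    (hset : T'.edgeSet = insert e (T.edgeSet \ {f})) :
    treeWt γ U T ≤ Real.exp (-(p ^ (-γ) - p' ^ (-γ))) * treeWt γ U T' := by
  classical
  unfold treeWt
  set F : Finset (Sym2 (Fin n)) := univ.filter (fun e => e ∈ T.edgeSet) with hF
  have h1 : (univ : Finset (Sym2 (Fin n))).filter (fun e => e ∈ T'.edgeSet) =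
      insert e (F.erase f) := by
    ext x
    rw [Finset.mem_filter, hset, Finset.mem_insert, Finset.mem_erase, hF, Finset.mem_filter,
      Set.mem_insert_iff, Set.mem_sdiff, Set.mem_singleton_iff]
    simp only [Finset.mem_univ, true_and]
    tauto
  have h2 : f ∈ F := by rw [hF, Finset.mem_filter]; exact ⟨Finset.mem_univ _, hfT⟩
  have h3 : e ∉ F.erase f := by
    rw [Finset.mem_erase, hF, Finset.mem_filter]
    rintro ⟨_, _, h⟩
    exact heT h
  rw [h1, Finset.prod_insert h3, ← Finset.mul_prod_erase F _ h2]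
  have h4 : 0 < ∏ x ∈ F.erase f, Real.exp (U x ^ (-γ)) :=
    Finset.prod_pos (fun e _ => Real.exp_pos _)
  rw [← mul_assoc]
  apply mul_le_mul_of_nonneg_right _ h4.le
  rw [← Real.exp_add]
  apply Real.exp_le_exp.2
  have h5 : p ^ (-γ) ≤ U e ^ (-γ) :=
    Real.rpow_le_rpow_of_nonpos (hU e) he (by linarith)
  have h6 : U f ^ (-γ) ≤ p' ^ (-γ) :=
    Real.rpow_le_rpow_of_nonpos hp' hf.le (by linarith)
  linarith

theorem gibbs_bad_le {n : ℕ} (γ : ℝ) (hγ : 0 < γ) (U : Sym2 (Fin n) → ℝ)
    (hU : ∀ e, 0 < U e) {p p' : ℝ} (hp' : 0 < p') (hpp : p ≤ p') :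
    gibbs γ U (fun T => ¬ Good U p p' T) ≤
      (n : ℝ) ^ 4 * Real.exp (-(p ^ (-γ) - p' ^ (-γ))) := by
  classical
  unfold gibbs
  set Z : ℝ := ∑ T ∈ univ.filter (fun T : SimpleGraph (Fin n) => T.IsTree), treeWt γ U T with hZ
  have hZ0 : 0 ≤ Z := Finset.sum_nonneg (fun T _ => (treeWt_pos γ U T).le)
  rcases hZ0.eq_or_lt with h0 | hZpos
  · rw [← h0, div_zero]; positivity
  rw [div_le_iff₀ hZpos]
  set δ := Real.exp (-(p ^ (-γ) - p' ^ (-γ))) with hδ
  set B := (univ : Finset (SimpleGraph (Fin n))).filter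
    (fun T : SimpleGraph (Fin n) => T.IsTree ∧ ¬ Good U p p' T) with hB
  have hch : ∀ T ∈ B, ∃ q : SimpleGraph (Fin n) × (Sym2 (Fin n) × Sym2 (Fin n)),
      q.1.IsTree ∧ U q.2.1 ≤ p ∧ p' < U q.2.2 ∧ q.2.2 ∈ T.edgeSet ∧ q.2.1 ∉ T.edgeSet ∧
        q.1.edgeSet = insert q.2.1 (T.edgeSet \ {q.2.2}) := by
    intro T hT
    rw [hB, Finset.mem_filter] at hT
    obtain ⟨T', e, f, h⟩ := exchange U hpp T hT.2.1 hT.2.2
    exact ⟨(T', e, f), h⟩
  refine (le_of_eq (Finset.sum_congr (s₂ := B) ?_ (fun _ _ => rfl))).trans ?_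
  · ext T
    simp [hB]
  rcases B.eq_empty_or_nonempty with hBe | ⟨T0, hT0⟩
  · rw [hBe, Finset.sum_empty]; positivity
  obtain ⟨q0, _⟩ := hch T0 hT0
  have : Nonempty (SimpleGraph (Fin n) × (Sym2 (Fin n) × Sym2 (Fin n))) := ⟨q0⟩
  choose! F hF using hch
  have hinj : Set.InjOn F B := by
    intro T hT T₂ hT₂ h12
    have a := hF T hT
    have b := hF T₂ hT₂
    rw [← h12] at b
    have key : ∀ S : SimpleGraph (Fin n), (F T).2.2 ∈ S.edgeSet → (F T).2.1 ∉ S.edgeSet →
        (F T).1.edgeSet = insert (F T).2.1 (S.edgeSet \ {(F T).2.2}) →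
        S.edgeSet = insert (F T).2.2 ((F T).1.edgeSet \ {(F T).2.1}) := by
      intro S h1 h2 h3
      rw [h3]
      ext x
      simp only [Set.mem_insert_iff, Set.mem_sdiff, Set.mem_singleton_iff]
      constructor
      · intro hx
        by_cases hx2 : x = (F T).2.2
        · exact Or.inl hx2
        · right
          exact ⟨Or.inr ⟨hx, hx2⟩, fun h => h2 (h ▸ hx)⟩
      · rintro (hx | ⟨hx | hx, hx2⟩)
        · rw [hx]; exact h1
        · exact absurd hx hx2
        · exact hx.1
    have e1 := key T a.2.2.2.1 a.2.2.2.2.1 a.2.2.2.2.2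
    have e2 := key T₂ b.2.2.2.1 b.2.2.2.2.1 b.2.2.2.2.2
    exact SimpleGraph.edgeSet_injective (e1.trans e2.symm)
  calc ∑ T ∈ B, treeWt γ U T ≤ ∑ T ∈ B, δ * treeWt γ U (F T).1 := by
        apply Finset.sum_le_sum
        intro T hT
        have a := hF T hT
        exact treeWt_exchange γ hγ U hU hp' T (F T).1 (F T).2.1 (F T).2.2 a.2.1 a.2.2.1
          a.2.2.2.1 a.2.2.2.2.1 a.2.2.2.2.2
    _ = ∑ q ∈ B.image F, δ * treeWt γ U q.1 := by
        rw [Finset.sum_image hinj]
    _ ≤ ∑ q ∈ (univ.filter (fun T : SimpleGraph (Fin n) => T.IsTree)) ×ˢ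
          (univ : Finset (Sym2 (Fin n) × Sym2 (Fin n))), δ * treeWt γ U q.1 := by
        apply Finset.sum_le_sum_of_subset_of_nonneg
        · intro q hq
          obtain ⟨T, hT, rfl⟩ := Finset.mem_image.1 hq
          rw [Finset.mem_product, Finset.mem_filter]
          exact ⟨⟨Finset.mem_univ _, (hF T hT).1⟩, Finset.mem_univ _⟩
        · intro q _ _
          have := treeWt_pos γ U q.1
          positivity
    _ = (Fintype.card (Sym2 (Fin n)) : ℝ) ^ 2 * (δ * Z) := by
        rw [Finset.sum_product]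
        simp only
        simp_rw [Finset.sum_const, Finset.card_univ, Fintype.card_prod, nsmul_eq_mul]
        rw [← Finset.mul_sum, ← Finset.mul_sum]
        push_cast
        ring
    _ ≤ (n : ℝ) ^ 4 * δ * Z := by
        have hc : (Fintype.card (Sym2 (Fin n)) : ℝ) ≤ (n : ℝ) ^ 2 := by
          have : Fintype.card (Sym2 (Fin n)) ≤ Fintype.card (Fin n × Fin n) :=
            Fintype.card_le_of_surjective (fun q : Fin n × Fin n => s(q.1, q.2)) (by
              intro e
              induction e using Sym2.ind with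
              | _ a b => exact ⟨(a, b), rfl⟩)
          rw [Fintype.card_prod, Fintype.card_fin] at this
          calc (Fintype.card (Sym2 (Fin n)) : ℝ) ≤ ((n * n : ℕ) : ℝ) := by exact_mod_cast this
            _ = (n : ℝ) ^ 2 := by push_cast; ring
        have hδ0 : 0 < δ := Real.exp_pos _
        calc (Fintype.card (Sym2 (Fin n)) : ℝ) ^ 2 * (δ * Z) ≤ ((n : ℝ) ^ 2) ^ 2 * (δ * Z) := by
              apply mul_le_mul_of_nonneg_right _ (by positivity)
              exact pow_le_pow_left₀ (by positivity) hc 2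
          _ = _ := by ring

end Pool.Agent.W842.RST
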